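import Pool.Agent.ASO.DefsC

/-!
# Squad ASO, statements 7: the comparison group

`V₀` elementary abelian of order `ℓ ^ 2`, `E₀` a group of automorphisms of `V₀` of order prime to
`ℓ`, `U W` given numbers `1` modulo `ℓ`.  The comparison group is `K : (V₀ : E₀)` with an elementary
abelian `p`-group `K`, `p = 1 + ℓ` modulo `ℓ ^ 2`, such that `|C_K(W)| = U W` modulo `ℓ ^ k` for `W` of
order `ℓ` and `C_K(V₀) = 1`.  Complete proofs in the docstrings.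
-/

open scoped BigOperators

noncomputable section

namespace Pool.Agent.PP.SO

open Pool.Agent.Helper51_AWC Pool.Agent.Helper79_WRA Pool.Agent.PP Pool.Agent.PP.KF
open Pool.Agent.PP.K9 Pool.Agent.PP.K9.H97 Pool.Agent.PP.H75 Pool.Agent.PP.T3

attribute [local instance] Ideal.Quotient.field

/-- the inflation of a function of `B` along `π : A → B` -/
def infl {F A B : Type} [Field F] [Group A] [Group B] (π : A →* B) (a : B → F) : A → F :=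
  fun x => (Nat.card π.ker : F)⁻¹ * a (π x)

/-- the identity of the group ring -/
def one1 {F A : Type} [Field F] [Group A] : A → F := fun x => open scoped Classical in
  if x = 1 then 1 else 0

/-- INF: inflation along a homomorphism whose kernel `K` has order prime to `ℓ`.

Proof.  (1) `(infl a · infl b)(x) = |K|⁻² ∑_t a(π t) b(π(t⁻¹ x))`, and every `s ∈ B` is `π t` for
`|K|` elements `t`.  (2) `infl a · g = infl (a · push π g)` for every function `g` of `A` (the same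
computation).  `infl a` is a class function, idempotent by (1), not zero (`|K| ≠ 0` in `F`, `π`
surjective).  For an idempotent `g` of `A`, `push π g` is an idempotent of `B` (`push_isIdem`), so
`a · push π g` is `a` or `0`.  (3) `push π (infl a) = a`, so by `K9.PsiStmt` (`Helper.._K9/PSI`)
`κ ∈ IrrE M a` if and only if `κ ∈ Irr B` and `κ ∘ π ∈ IrrE M (infl a)`.  It remains to see that a
`χ ∈ IrrE M (infl a)` is `κ ∘ π`: let `ε = infl one1` (`|K|⁻¹` on `K`, `0` elsewhere);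
`infl a · ε = infl a`, so `res M ε χ = 1` (`res M` is multiplicative on class functions).  The residue
of `(1/|K|) ∑_{k ∈ K} χ(k)/χ(1)` is `1`; this number is `0` or `1` (`∑_{k ∈ K} χ(k)` is `|K|` times the
dimension of the fixed points of the normal subgroup `K`, which is `0` or `χ(1)`), so it is `1`, `K` is
in the kernel of `χ` and `χ = κ ∘ π` with `κ ∈ Irr B`. -/
def InfStmt : Prop := ∀ (ℓ : ℕ) [Fact ℓ.Prime] (M : Ideal (integralClosure ℤ ℂ)) [M.IsMaximal],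
  (ℓ : integralClosure ℤ ℂ) ∈ M → ∀ (A B : Type) [Group A] [Finite A] [Group B] [Finite B]
  (π : A →* B), Function.Surjective π → ¬ ℓ ∣ Nat.card π.ker →
  (∀ a b : B → FF M, mulF (infl π a) (infl π b) = infl π (mulF a b)) ∧
  (∀ a : B → FF M, IsIdem a → IsIdem (infl π a)) ∧
  (∀ a : B → FF M, IsBlk a → IsBlk (infl π a)) ∧
  ∀ a : B → FF M, IsIdem a → IrrE M (infl π a) = {χ | ∃ κ ∈ IrrE M a, χ = fun x => κ (π x)}

/-- ONB: a group with a normal `ℓ`-subgroup `P` which contains its centraliser has one block.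

Proof.  `one1` is an idempotent, not zero.  Let `g` be an idempotent; `br P g` is `g` restricted to
`C(P) ≤ P` (`g` is supported there: `T2.H32.supp_cent` with `U = P`, `X = ⊤`, or `H95`; and `g`
vanishes at the elements which are not regular, `g` lifts to `eh M g`, `K9.H25.eh_sing`).  `P` is an
`ℓ`-group, so the only regular element of `P` is `1`.  So `g` is a multiple of `one1`, and idempotent:
`g = 0` or `g = one1`.  So `one1 · g = g` is `0` or `one1`.  `IrrE`: `res M one1 χ = 1`. -/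
def OnbStmt : Prop := ∀ (ℓ : ℕ) [Fact ℓ.Prime] (M : Ideal (integralClosure ℤ ℂ)) [M.IsMaximal],
  (ℓ : integralClosure ℤ ℂ) ∈ M → ∀ (A : Type) [Group A] [Finite A] (P : Subgroup A), P.Normal →
  IsPGroup ℓ P → Subgroup.centralizer (P : Set A) ≤ P →
  IsBlk (one1 : A → FF M) ∧ IrrE M (one1 : A → FF M) = Irr A

/-- CMG: the comparison group.

Proof.  (0) If `g = 1` modulo `ℓ` and not modulo `ℓ ^ 2` then every `U = 1` modulo `ℓ` is a power of `g`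
modulo `ℓ ^ k` (induction on `k`, `g ^ (ℓ ^ (k - 1)) = 1 + ℓ ^ k s` with `ℓ ∤ s`).
(1) Let `p` be a prime with `p = 1 + ℓ` modulo `ℓ ^ 2` (Dirichlet), `X` the group of the
homomorphisms `V₀ → (ℤ/p)ˣ`, of order `ℓ ^ 2` (`ℓ` divides `p - 1`).  By (0) for `g = p ^ (ℓ - 1)` there
are `a(W)` with `p ^ ((ℓ - 1) a(W)) = U W` modulo `ℓ ^ k`, chosen as a function of `U W`, so that
`a(φ W) = a(W)` for `φ ∈ E₀`.  Let `J` be the set of the pairs `(λ, i)`, `λ ∈ X`, `λ ≠ 1`,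
`i < a(ker λ)`, and `K` the additive group of the functions `f : J → ℤ/p`.  `(u, φ) ∈ V₀ : E₀` acts as
`((u, φ) f)(λ, i) = λ(u) f(λ ∘ φ, i)`; this is an action: `((u, φ)(u', φ')) f` at `λ` is
`λ(u φ(u')) f(λ φ φ')`, and `(u, φ)((u', φ') f)` at `λ` is `λ(u) (λ ∘ φ)(u') f(λ φ φ')`.
`G = K ⋊ (V₀ ⋊ E₀)`, `π` the projection, `ι`, `ε` the inclusions.
(2) `f` is fixed by `W` if and only if `f(λ, ·) = 0` for all `λ` which are not trivial on `W`.  The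
`λ ≠ 1` which are trivial on `W` (`W` of order `ℓ`) are the `ℓ - 1` homomorphisms with kernel `W`
(`CommGroup.card_domRestrictHom_ker`), so `|C_K(W)| = p ^ ((ℓ - 1) a(W))`.  `f` is fixed by all of
`V₀` only if `f = 0`.  So `x = k u φ` centralises `ι(V₀)` only if `φ = 1` (`φ` acts trivially on
`V₀`), and then `k` centralises it, `k = 1`. -/
def CmgStmt : Prop := ∀ (ℓ : ℕ) [Fact ℓ.Prime], ℓ ≠ 2 → ∀ (V₀ : Type) [CommGroup V₀] [Finite V₀],
  (∀ v : V₀, v ^ ℓ = 1) → Nat.card V₀ = ℓ ^ 2 → ∀ (E₀ : Subgroup (MulAut V₀)) (k : ℕ)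
  (U : Subgroup V₀ → ℤ), (∀ W, (ℓ : ℤ) ∣ U W - 1) →
  (∀ W : Subgroup V₀, ∀ φ ∈ E₀, U (W.map (φ : V₀ ≃* V₀).toMonoidHom) = U W) →
  ∃ (G : Type) (_ : Group G) (_ : Finite G) (π : G →* V₀ ⋊[E₀.subtype] E₀) (ι : V₀ →* G)
    (ε : E₀ →* G), Function.Surjective π ∧ ¬ ℓ ∣ Nat.card π.ker ∧
    (∀ v, π (ι v) = SemidirectProduct.inl v) ∧ (∀ φ, π (ε φ) = SemidirectProduct.inr φ) ∧
    (∀ (φ : E₀) (v : V₀), ε φ * ι v * (ε φ)⁻¹ = ι ((φ : MulAut V₀) v)) ∧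
    Subgroup.centralizer (ι.range : Set G) ≤ ι.range ∧
    ∀ W : Subgroup V₀, W ≠ ⊥ → W ≠ ⊤ →
      ((ℓ ^ k : ℕ) : ℤ) ∣
        (Nat.card (π.ker ⊓ Subgroup.centralizer (W.map ι : Set G) : Subgroup G) : ℤ) - U W

/-- CMI: the comparison block, basic part (for a group `G` as in CMG).

Proof.  `A = V₀ ⋊ E₀` has the normal subgroup `inl(V₀)`, which contains its centraliser (`E₀` is a
group of automorphisms).  `e = infl π one1`, `g = one1`, `V = ι(V₀)`, `K = ker π`.  ONB and INF: `e` is a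
block and `IrrE M e` is the set of the `κ ∘ π`, `κ ∈ Irr A`; `π` is surjective, so the number is that of
`A`.  *The numbers.*  An `ℓ`-group `P` acting on `K` has `|C_K(P)| = |K|` modulo `ℓ`
(`IsPGroup.card_modEq_card_fixedPoints`); `C_K(V) = 1` (`C(V) ≤ V`, `π` injective on `V`), so `|K| = 1`
and `|C_K(P)| = 1` modulo `ℓ` for `P ≤ V`.
*Defect group.*  `e` is a class function, and `e 1 ≠ 0`, so `V` is good for `e` (`Gd`: the restriction of `e`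
to `C(V)` is not `0`).  If `Q` is an `ℓ`-subgroup of `G` then `Q ∩ K = 1`, so `Q` is isomorphic to its image
in `A`, of order at most `ℓ ^ 2` (`ℓ` does not divide `|E₀|`).  So `Tp ℓ e V`.  `C(V) = V` (`V` is
abelian), and `br_V(e)` is `|K|⁻¹ = 1` at `1` and `0` at the other elements (`π` is injective on `V`), so
`br_V(e) = one1 = g`; `g` is a block of `C(V) = V` (ONB for `V`).
*Inertial group.*  `g` is invariant under all of `G`, so `Tg V g = N(V)`; for `t ∈ N(V)`, `π t = (u, φ)`: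
`t ι(v) t⁻¹ ∈ V` has the image `inl(φ v)`, so it is `ι(φ v)`; conversely `ε φ ∈ N(V)`.
*Local blocks:* `b W = ` the function which is `|K ∩ C(ι W)|⁻¹` on `K ∩ C(ι W)` and `0` elsewhere, that is
`infl` of `one1` along `C(ι W) → π(C(ι W))`, extended by zero.  `π(C(ι W)) = V₀ ⋊ C_{E₀}(W)`: `⊆` is clear
(`(u, φ) w (u, φ)⁻¹ = φ(w)`) and `ι(V₀)`, `ε(C_{E₀}(W)) ≤ C(ι W)`; this group has the normal subgroup
`V₀` which contains its centraliser, so by ONB, INF `b W` is a block of `C(ι W)`.  `e b W = b W` on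
`C(ι W)`: `e` is `|K|⁻¹ = 1 = |K ∩ C(ι W)|⁻¹` on `K ∩ C(ι W)` and `0` on the other elements of `C(ι W)`, so
`e = b W` on `C(ι W)`.  `br_V(b W) = one1 = g`.  `D W = 1`, `S W = 1`. -/
def CmiStmt : Prop := ∀ (ℓ : ℕ) [Fact ℓ.Prime] (M : Ideal (integralClosure ℤ ℂ)) [M.IsMaximal],
  (ℓ : integralClosure ℤ ℂ) ∈ M → ∀ (V₀ : Type) [CommGroup V₀] [Finite V₀],
  (∀ v : V₀, v ^ ℓ = 1) → Nat.card V₀ = ℓ ^ 2 → ∀ E₀ : Subgroup (MulAut V₀),
  ¬ ℓ ∣ Nat.card E₀ → ∀ (G : Type) [Group G] [Finite G] (π : G →* V₀ ⋊[E₀.subtype] E₀) (ι : V₀ →* G)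
    (ε : E₀ →* G), Function.Surjective π → ¬ ℓ ∣ Nat.card π.ker →
    (∀ v, π (ι v) = SemidirectProduct.inl v) → (∀ φ, π (ε φ) = SemidirectProduct.inr φ) →
    (∀ (φ : E₀) (v : V₀), ε φ * ι v * (ε φ)⁻¹ = ι ((φ : MulAut V₀) v)) →
    Subgroup.centralizer (ι.range : Set G) ≤ ι.range →
  ∃ B : Bk (FF M) V₀ G, B.i = ι ∧ Sb ℓ M E₀ B ∧ (∀ W, B.D W = 1) ∧ (∀ W, B.S W = 1) ∧
    (IrrE M B.e).ncard = (Irr (V₀ ⋊[E₀.subtype] E₀)).ncard ∧
    (∀ x : G, El ℓ x → x ^ ℓ = 1) ∧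
    ∀ (W : Subgroup V₀), (∀ σ ∈ E₀, (∀ w ∈ W, σ w = w) → σ = 1) →
      Dg M (fun t : B.C W => B.b W t) 1

/-- CMO: the orders of the centralisers in the comparison group.

Proof.  `π` maps `C(ι W)` into the centraliser of `inl(W)`, which is `inl(V₀)` if only `1 ∈ E₀` fixes `W`
(`(u, φ) w (u, φ)⁻¹ = φ(w)`), so `C(ι W) = (K ∩ C(ι W)) ι(V₀)`, `|C(ι W)| = |K ∩ C(ι W)| ℓ ^ 2`.
`C(ι V₀) = ι(V₀)`.  `K ∩ ι(V₀) = 1`.  `|K ∩ C(ι W)| = 1` modulo `ℓ`: see CMI. -/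
def CmoStmt : Prop := ∀ (ℓ : ℕ) [Fact ℓ.Prime] (V₀ : Type) [CommGroup V₀] [Finite V₀],
  (∀ v : V₀, v ^ ℓ = 1) → Nat.card V₀ = ℓ ^ 2 → ∀ E₀ : Subgroup (MulAut V₀),
  ∀ (G : Type) [Group G] [Finite G] (π : G →* V₀ ⋊[E₀.subtype] E₀) (ι : V₀ →* G),
    Function.Surjective π → ¬ ℓ ∣ Nat.card π.ker → (∀ v, π (ι v) = SemidirectProduct.inl v) →
    Subgroup.centralizer (ι.range : Set G) ≤ ι.range →
    Nat.card (Subgroup.centralizer (((⊤ : Subgroup V₀).map ι : Subgroup G) : Set G)) = ℓ ^ 2 ∧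
    ∀ (W : Subgroup V₀), (∀ σ ∈ E₀, (∀ w ∈ W, σ w = w) → σ = 1) →
      Nat.card (Subgroup.centralizer ((W.map ι : Subgroup G) : Set G)) =
        Nat.card (π.ker ⊓ Subgroup.centralizer (W.map ι : Set G) : Subgroup G) * ℓ ^ 2 ∧
      (ℓ : ℤ) ∣
        (Nat.card (π.ker ⊓ Subgroup.centralizer (W.map ι : Set G) : Subgroup G) : ℤ) - 1

/-- CMB: the comparison block.

Proof.  Choose integers `U' W` with `U W - U' W = ℓ ^ (k + 1) q`, `q ∈ Rl ℓ`, as a function of the number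
`U W` (for a rational number `a/b` with `b` prime to `ℓ` take the inverse of `b` modulo
`ℓ ^ (k + 1)`); `U' W = 1` modulo `ℓ`; for the other `W` (`W = ⊥`) take `1` (CMG needs all `W`: put
`U' W = 1` if `U W` is not in `1 + ℓ Rl ℓ`; this is a function of `U W`, so it is invariant).  CMG for
`k + 1` and `U'`, CMI.  `B.U W = |C W|/|C ⊤| = |K ∩ C(ι W)|` by CMO.  For `W = ⊤` it is `1 = U ⊤`.  (The
relation `U (W.map σ) = U W` is needed for `W ≠ ⊥` only; put `U' ⊥ = 1`.) -/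
def CmbStmt : Prop := ∀ (ℓ : ℕ) [Fact ℓ.Prime] (M : Ideal (integralClosure ℤ ℂ)) [M.IsMaximal],
  (ℓ : integralClosure ℤ ℂ) ∈ M → ℓ ≠ 2 → ∀ (V₀ : Type) [CommGroup V₀] [Finite V₀],
  (∀ v : V₀, v ^ ℓ = 1) → Nat.card V₀ = ℓ ^ 2 → ∀ E₀ : Subgroup (MulAut V₀),
  ¬ ℓ ∣ Nat.card E₀ → ∀ (k : ℕ) (U : Subgroup V₀ → ℚ), U ⊤ = 1 →
  (∀ W, W ≠ ⊥ → ∃ q ∈ SOR.Rl ℓ, U W = 1 + ℓ * q) →
  (∀ W, W ≠ ⊥ → ∀ σ ∈ E₀, U (W.map (σ : V₀ ≃* V₀).toMonoidHom) = U W) →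
  ∃ (G : Type) (_ : Group G) (_ : Finite G) (B : Bk (FF M) V₀ G), Sb ℓ M E₀ B ∧
    (IrrE M B.e).ncard = (Irr (V₀ ⋊[E₀.subtype] E₀)).ncard ∧
    (∀ x : G, El ℓ x → x ^ ℓ = 1) ∧ (∀ W, B.D W = 1) ∧ (∀ W, B.S W = 1) ∧
    ∀ W : Subgroup V₀, W ≠ ⊥ → (∀ σ ∈ E₀, (∀ w ∈ W, σ w = w) → σ = 1) →
      Dg M (fun t : B.C W => B.b W t) 1 ∧ (∃ q ∈ SOR.Rl ℓ, B.U W = 1 + ℓ * q) ∧
      ∃ q ∈ SOR.Rl ℓ, B.U W - U W = ℓ ^ k * q

/-- CMP: the comparison block for a free action.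

Proof.  CMB for `k`; `|E₀|` is prime to `ℓ` (`E₀` acts freely on the `ℓ ^ 2 - 1` elements of
`V₀ - 1`); if `σ ∈ E₀` fixes `W ≠ ⊥` then `σ = 1`.  `PE`: `m` is `1` modulo `ℓ ^ r` and modulo the `ℓ`-part of
`|G|`, and `0` modulo the prime to `ℓ` part of `|G|`; the `ℓ`-elements have order dividing `ℓ`. -/
def CmpStmt : Prop := ∀ (ℓ : ℕ) [Fact ℓ.Prime] (M : Ideal (integralClosure ℤ ℂ)) [M.IsMaximal],
  (ℓ : integralClosure ℤ ℂ) ∈ M → ℓ ≠ 2 → ∀ (V₀ : Type) [CommGroup V₀] [Finite V₀]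
  (E₀ : Subgroup (MulAut V₀)), Fr ℓ V₀ E₀ → ∀ (k : ℕ) (U : Subgroup V₀ → ℚ), U ⊤ = 1 →
  (∀ W, W ≠ ⊥ → ∃ q ∈ SOR.Rl ℓ, U W = 1 + ℓ * q) →
  (∀ W, W ≠ ⊥ → ∀ σ ∈ E₀, U (W.map (σ : V₀ ≃* V₀).toMonoidHom) = U W) → ∀ r : ℕ, 0 < r →
  ∃ (G : Type) (_ : Group G) (_ : Finite G) (B : Bk (FF M) V₀ G) (m : ℕ), Sy ℓ M E₀ B ∧
    PE ℓ (ℓ ^ r) m G ∧ (IrrE M B.e).ncard = (Irr (V₀ ⋊[E₀.subtype] E₀)).ncard ∧
    ∀ W, W ≠ ⊥ → ∃ q ∈ SOR.Rl ℓ, B.U W - U W = ℓ ^ k * q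

end Pool.Agent.PP.SO
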