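import Pool.Agent.ASO.DefsC
import Pool.Agent.AT8.StmtsF

/-!
# Squad ASO, statements 8: the final deduction

Complete proofs in the docstrings.  `T8.Fr V γ`: the inertial quotient acts freely on `V - 1`.
Library: AT8 (`Pool/Agent/AT8/Asm.lean`), AT6, K9.
-/

open scoped BigOperators

noncomputable section

namespace Pool.Agent.PP.SO

open Pool.Agent.Helper51_AWC Pool.Agent.Helper79_WRA Pool.Agent.PP Pool.Agent.PP.KF
open Pool.Agent.PP.K9 Pool.Agent.PP.K9.H97 Pool.Agent.PP.H75 Pool.Agent.PP.T3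

attribute [local instance] Ideal.Quotient.field

/-- K2B: the output of blocks (1) - (7): the number of ordinary characters modulo `ℓ ^ 2`. -/
def K2bStmt : Prop := ∀ (ℓ : ℕ) [Fact ℓ.Prime] (M : Ideal (integralClosure ℤ ℂ)) [M.IsMaximal],
  (ℓ : integralClosure ℤ ℂ) ∈ M → 5 ≤ ℓ → ∀ (V₀ G : Type) [CommGroup V₀] [Finite V₀] [Group G]
  [Finite G] (E₀ : Subgroup (MulAut V₀)), Fr ℓ V₀ E₀ → ∀ B : Bk (FF M) V₀ G, Sy ℓ M E₀ B →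
  ((ℓ ^ 2 : ℕ) : ℤ) ∣ ((IrrE M B.e).ncard : ℤ) - ((Irr (V₀ ⋊[E₀.subtype] E₀)).ncard : ℤ)

/-- KLN: the number of ordinary and of modular characters for a free inertial quotient.

Proof.  Local blocks `b v`, `v ∈ V` (`T3.LocStmt`).  `T6.CplStmt` for `χ ∈ e`:
`∑_{v ∈ V} Mm v (b v) χ χ = |V| ix`; add over the `k(e)` characters `χ`.  `v = 1`: `C(1) = G`, `b 1 = e`
(uniqueness), `C(V).relIndex (T ⊓ C(1)) = ix`, `gv G s e χ = χ(s)` for `χ ∈ e`, so the sum of `Pm` over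
`χ ∈ e` is `ln e` (`T3.LrkStmt`): the contribution is `|V| ix ln e`.  `v ≠ 1`: `v` is regular
(`T8.Fr`), the relative index is `1`; let `b = b v`, `C = C(v)`, `d` the degree, `κ₀ ∈ b`
(`T3.RglStmt`; `b` has inertial index one by `T3.LsbStmt`).  `χ|C = ∑ m_κ κ`,
`gv C (v s) b χ = ∑_{κ ∈ b} m_κ κ(v s) = ∑ m_κ (κ(v)/d) κ(s) = (κ₀(s)/d) gv C v b χ` for `s` regular
(`T8.Rg1Stmt`).  So `∑_χ Pm v b χ χ = (|C|⁻¹ ∑_s |κ₀(s)|²) ∑_χ |gv v b χ|²/d²`; the second factor is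
`|V|` (`T3.Co1Stmt`, `|V|` characters of degree `d`; `gv v b χ = 0` for `χ ∉ e`, `T3.SmgStmt`), and
`|V| |C|⁻¹ ∑_s |κ₀(s)|² = |C|⁻¹ ∑_s ∑_{κ ∈ b} |κ(s)|² = ln b = 1` (LRK; `1 ≤ ln b` by `K9.LbdStmt`,
`ln b ≤ ix = 1` by `T8.LfrStmt`).  So the contribution of `v` is `|V|`, and
`|V| ix k(e) = |V| ix ln e + (|V| - 1) |V|`. -/
def KlnStmt : Prop := ∀ (ℓ : ℕ) [Fact ℓ.Prime] (M : Ideal (integralClosure ℤ ℂ)) [M.IsMaximal],
  (ℓ : integralClosure ℤ ℂ) ∈ M → ℓ ≠ 2 → ∀ (G : Type) [Group G] [Finite G] (e : G → FF M)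
  (V : Subgroup G) (γ : G → FF M), Ld ℓ e V γ → V ≠ ⊥ → T8.Fr V γ →
  (IrrE M e).ncard * ix V γ = ln e * ix V γ + (Nat.card V - 1)

/-- ESY: the group `V₀` and the automorphisms `E₀`, for `G` and for `N(V)`.

Proof.  `V₀ = V` with the commutative group structure, `i` the inclusion in `G`, `j` the inclusion in
`N(V)`, `E₀` the set of the automorphisms `v ↦ t v t⁻¹`, `t ∈ T = Tg V γ`.  `T ≤ N(V)`, and the inertial
group of `γ` in `N(V)` is `T` (as in `T3.NvtStmt`).  `Fr`: if `t v t⁻¹ = v ≠ 1` then `t ∈ C(V)`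
(`T8.Fr`), so `σ = 1`. -/
def EsyStmt : Prop := ∀ (ℓ : ℕ) [Fact ℓ.Prime] (M : Ideal (integralClosure ℤ ℂ)) [M.IsMaximal],
  (ℓ : integralClosure ℤ ℂ) ∈ M → ∀ (G : Type) [Group G] [Finite G] (e : G → FF M)
  (V : Subgroup G) (γ : G → FF M), Ld ℓ e V γ → T8.Fr V γ → (∀ v ∈ V, v ^ ℓ = 1) →
  Nat.card V = ℓ ^ 2 →
  ∃ (V₀ : Type) (_ : CommGroup V₀) (_ : Finite V₀) (E₀ : Subgroup (MulAut V₀)) (i : V₀ →* G)
    (j : V₀ →* Subgroup.normalizer (V : Set G)), Fr ℓ V₀ E₀ ∧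
    (Function.Injective i ∧ i.range = V ∧
      (∀ t ∈ Tg V γ, ∃ σ ∈ E₀, ∀ v, t * i v * t⁻¹ = i (σ v)) ∧
      ∀ σ ∈ E₀, ∃ t ∈ Tg V γ, ∀ v, t * i v * t⁻¹ = i (σ v)) ∧
    Function.Injective j ∧ j.range = V.subgroupOf (Subgroup.normalizer (V : Set G)) ∧
      (∀ t ∈ Tg (V.subgroupOf (Subgroup.normalizer (V : Set G)))
        (fun t : Subgroup.normalizer (V : Set G) => γ t), ∃ σ ∈ E₀, ∀ v, t * j v * t⁻¹ = j (σ v)) ∧
      ∀ σ ∈ E₀, ∃ t ∈ Tg (V.subgroupOf (Subgroup.normalizer (V : Set G)))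
        (fun t : Subgroup.normalizer (V : Set G) => γ t), ∀ v, t * j v * t⁻¹ = j (σ v)

/-- S2A: the theorem for block idempotents.

Proof.  ESY; SYE (`SyeStmt`) for `e`, `G` and for `f = br V e`, `N(V)` (`T3.NvtStmt`); K2B for both with
the same `V₀`, `E₀`: `ℓ ^ 2 ∣ k(e) - k(f)`.  `ix` is the same for both (NVT) and `T8.Fr` holds for `f`
(the inertial groups are equal), so KLN gives `ix (k(e) - ln e) = ix (k(f) - ln f)`,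
`ℓ ^ 2 ∣ ln e - ln f`.  `1 ≤ ln e, ln f` (`K9.LbdStmt`), `ln e, ln f ≤ ix` (`T8.LfrStmt`) and
`ix ≤ ℓ ^ 2 - 1` (KLN: `ix ∣ ℓ ^ 2 - 1`).  So `ln e = ln f`, and `YY = 0` by `K9.ChvStmt`. -/
def S2aStmt : Prop := ∀ (ℓ : ℕ) [Fact ℓ.Prime] (M : Ideal (integralClosure ℤ ℂ)) [M.IsMaximal],
  (ℓ : integralClosure ℤ ℂ) ∈ M → 5 ≤ ℓ → ∀ (G : Type) [Group G] [Finite G] (e : G → FF M)
  (V : Subgroup G) (γ : G → FF M), Ld ℓ e V γ → T8.Fr V γ → (∀ v ∈ V, v ^ ℓ = 1) →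
  Nat.card V = ℓ ^ 2 → YY ℓ ⊤ e = 0

/-- FRD: the reduction modulo `O_ℓ(G)`.

Proof.  This is a part of `Helper24_AT8/FN8.lean`: `e` the block of `χ`,
`|G| altSum χ = |Z|² YY ℓ ⊤ (push p e)`, `γ'` from QT3, `T8.Fr` from `T8.Fd`. -/
def FrdStmt : Prop := ∀ (ℓ : ℕ) [Fact ℓ.Prime] (M : Ideal (integralClosure ℤ ℂ)) [M.IsMaximal],
  (ℓ : integralClosure ℤ ℂ) ∈ M → ∀ (G : Type) [Group G] [Finite G],
  opCore ℓ G ≤ Subgroup.center G → ∀ χ ∈ Irr G, ∀ D : Subgroup G, ML.IsDef ℓ M χ D →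
  (∀ x ∈ D, ∀ y ∈ D, x * y = y * x) →
  ∀ th ∈ IrrBlock M (Subgroup.centralizer (D : Set G)).subtype χ, T8.Fd ℓ M D th →
  ∀ (A : Type) [Group A] [Finite A] (p : G →* A), Function.Surjective p → p.ker = opCore ℓ G →
  Nat.card (D.map p) * Nat.card (opCore ℓ G) = Nat.card D ∧
  ∃ f γ' : A → FF M, Ld ℓ f (D.map p) γ' ∧ T8.Fr (D.map p) γ' ∧
    (Nat.card G : ℤ) * altSum ℓ M χ = (Nat.card (opCore ℓ G) : ℤ) ^ 2 * YY ℓ ⊤ f

/-- FNO: the final theorem.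

Proof.  FRD for `p : G → G/O_ℓ(G)`.  If `D.map p` has exponent `ℓ`: S2A.  Otherwise it is cyclic of order
`ℓ ^ 2`, an element `y` of order `ℓ ^ 2` generates it: `T5.t5a_` (`Helper11_AT5/Asm5.lean`, cyclic defect
groups), or `T8.T8aStmt`. -/
def FnoStmt : Prop := ∀ (ℓ : ℕ) [Fact ℓ.Prime] (M : Ideal (integralClosure ℤ ℂ)) [M.IsMaximal],
  (ℓ : integralClosure ℤ ℂ) ∈ M → 5 ≤ ℓ → ∀ (G : Type) [Group G] [Finite G],
  opCore ℓ G ≤ Subgroup.center G → ∀ χ ∈ Irr G, ∀ D : Subgroup G, ML.IsDef ℓ M χ D →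
  (∀ x ∈ D, ∀ y ∈ D, x * y = y * x) →
  Nat.card D = ℓ ^ 2 * Nat.card (opCore ℓ G) →
  ∀ th ∈ IrrBlock M (Subgroup.centralizer (D : Set G)).subtype χ, T8.Fd ℓ M D th →
  altSum ℓ M χ = 0

end Pool.Agent.PP.SO
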