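import Pool.Agent.ASO.StmtsH

/-!
# Squad ASO, block H, part 2: the conclusions for a free action
-/

open scoped BigOperators

noncomputable section

namespace Pool.Agent.PP.SO

open Pool.Agent.Helper51_AWC Pool.Agent.Helper79_WRA Pool.Agent.PP Pool.Agent.PP.KF
open Pool.Agent.PP.K9 Pool.Agent.PP.K9.H97 Pool.Agent.PP.H75 Pool.Agent.PP.T3

attribute [local instance] Ideal.Quotient.field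

/-- HCO: the conclusions of block H for a free action.

Proof.  If `Fr ℓ V₀ E₀` all `c ≠ 1` are regular, `Es E₀ c = ⊥`, `nE E₀ c = |E₀|` (HIXE), `Es E₀ 1 = E₀`,
`nE E₀ 1 = 1`, and there is `c ≠ 1` (`|V₀| = ℓ²`).  HTZ, HSM, HL12. -/
def HCoStmt : Prop := ∀ (ℓ : ℕ) [Fact ℓ.Prime] (M : Ideal (integralClosure ℤ ℂ)) [M.IsMaximal],
  (ℓ : integralClosure ℤ ℂ) ∈ M → ∀ (V₀ : Type) [CommGroup V₀] [Finite V₀]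
  (E₀ : Subgroup (MulAut V₀)), Fr ℓ V₀ E₀ → ∀ (G : Type) [Group G] [Finite G]
  (B : Bk (FF M) V₀ G), Sb ℓ M E₀ B →
  (∀ χ ∈ IrrE M B.e, ((Nat.card G : ℂ) / (ℓ ^ 2 * χ 1)) ∈ RM M) ∧
  0 < (IrrE M B.e).ncard ∧ (IrrE M B.e).ncard ≤ ℓ ^ 2 ∧
  (∀ c : V₀, ∃ q ∈ SOR.Rl ℓ, L1 B c = (q : ℂ)) ∧ (∀ c d : V₀, ∃ q ∈ SOR.Rl ℓ, L2 B c d = (q : ℂ)) ∧
  (∀ c : V₀, ∀ j : ℕ, ¬ ℓ ∣ j → L1 B (c ^ j) = L1 B c) ∧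
  (∀ c d : V₀, ∀ j : ℕ, ¬ ℓ ∣ j → L2 B (c ^ j) (d ^ j) = L2 B c d) ∧
  (∀ c d : V₀, ∀ σ ∈ E₀, ∀ τ ∈ E₀, L1 B (σ c) = L1 B c ∧ L2 B (σ c) (τ d) = L2 B c d) ∧
  L1 B 1 = ((IrrE M B.e).ncard : ℂ) ∧
  (((Nat.card E₀ : ℂ) * (IrrE M B.e).ncard + ∑ᶠ c ∈ {c : V₀ | c ≠ 1}, L1 B c) / ℓ ^ 2) ∈ RM M ∧
  (∃ q ∈ SOR.Rl ℓ, (Nat.card E₀ : ℂ) * (IrrE M B.e).ncard + ∑ᶠ c ∈ {c : V₀ | c ≠ 1}, L1 B c =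
    ((ℓ ^ 2 * q : ℚ) : ℂ)) ∧
  ∀ c d : V₀, c ≠ 1 → d ≠ 1 →
    (((∑ t ∈ Finset.Icc 1 (ℓ - 1), ∑ s ∈ Finset.Icc 1 (ℓ - 1), L2 B (c ^ t) (d ^ s) +
      (Nat.card E₀ : ℂ) * (ℓ - 1) * (L1 B c + L1 B d) +
      (Nat.card E₀ : ℂ) ^ 2 * (IrrE M B.e).ncard) / ℓ ^ 2) ∈ RM M) ∧
    ∃ q ∈ SOR.Rl ℓ, ∑ t ∈ Finset.Icc 1 (ℓ - 1), ∑ s ∈ Finset.Icc 1 (ℓ - 1), L2 B (c ^ t) (d ^ s) +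
      (Nat.card E₀ : ℂ) * (ℓ - 1) * (L1 B c + L1 B d) +
      (Nat.card E₀ : ℂ) ^ 2 * (IrrE M B.e).ncard = ((ℓ ^ 2 * q : ℚ) : ℂ)

end Pool.Agent.PP.SO
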