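import Pool.Agent.ASO.DefsC

/-!
# Squad ASO, statements L: linear algebra over the field with `ℓ` elements

`KarStmt` is the output (used by KCM, `Stmts5.lean`).  Rows: LTB LSM LHF LT1 LID LAV LC1 LC2 LCM LQU LQS
LC3 LIA (linear algebra of a plane `V` over `ZMod ℓ` with a linear action of a finite group `Γ` of order
prime to `ℓ`; no freeness), RSL KCP KM1 KM2 KAR.

All sums over `Γ`, `V` and `ZMod ℓ` are sums over finite types.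
-/

open scoped BigOperators

noncomputable section

namespace Pool.Agent.PP.SO

section lin

variable {ℓ : ℕ} [Fact ℓ.Prime] {V Γ : Type} [AddCommGroup V] [Module (ZMod ℓ) V] [Fintype V]
  [Group Γ] [Fintype Γ]

/-- `F` is a homogeneous function on the plane `V`, invariant under `Γ`, with sum `- f₀`. -/
structure LF (ρ : Γ →* Module.End (ZMod ℓ) V) (F : V → ZMod ℓ) (f₀ : ZMod ℓ) : Prop where
  od : ℓ ≠ 2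
  rk : Module.finrank (ZMod ℓ) V = 2
  cp : (Fintype.card Γ : ZMod ℓ) ≠ 0
  fz : F 0 = 0
  fs : ∀ (j : ZMod ℓ) (v : V), j ≠ 0 → F (j • v) = F v
  fe : ∀ (e : Γ) (v : V), F (ρ e v) = F v
  sm : ∑ v, F v = - f₀

/-- the properties of the linear functionals `h c` -/
def HH (F : V → ZMod ℓ) (f₀ : ZMod ℓ) (h : V → V →ₗ[ZMod ℓ] ZMod ℓ) : Prop :=
  ∀ c : V, c ≠ 0 → h c c = F c - f₀ ∧ ∀ w : V, (∀ a : ZMod ℓ, w ≠ a • c) →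
    h c w = ∑ s : ZMod ℓ, s * F (w + s • c)

/-- the identity (I) -/
def II (ρ : Γ →* Module.End (ZMod ℓ) V) (F : V → ZMod ℓ) (f₀ : ZMod ℓ)
    (h : V → V →ₗ[ZMod ℓ] ZMod ℓ) : Prop :=
  ∀ c d : V, c ≠ 0 → d ≠ 0 → ∀ φ ψ : V →ₗ[ZMod ℓ] ZMod ℓ,
    ∑ e : Γ, ((f₀ - F c - F d) * φ (ρ e d) * ψ (ρ e⁻¹ c) + h c (ρ e d) * φ c * ψ (ρ e⁻¹ c) +
      h d (ρ e⁻¹ c) * φ (ρ e d) * ψ d) = 0

/-- the relation for the function `N` -/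
structure LN (ρ : Γ →* Module.End (ZMod ℓ) V) (F : V → ZMod ℓ) (N : V → V → ZMod ℓ)
    (s₀ : ZMod ℓ) : Prop where
  n1 : ∀ (φ ψ : V →ₗ[ZMod ℓ] ZMod ℓ) (c d : V), c ≠ 0 → d ≠ 0 →
    N c d * (φ c * ψ d) = ∑ e : Γ, F (c + ρ e d) * (φ (c + ρ e d) * ψ (ρ e⁻¹ c + d))
  n2 : ∀ c d : V, c ≠ 0 → d ≠ 0 → ∑ t : (ZMod ℓ)ˣ, ∑ s : (ZMod ℓ)ˣ, N (t • c) (s • d) =
    Fintype.card Γ * (F c + F d) - (Fintype.card Γ : ZMod ℓ) ^ 2 * s₀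

end lin

/-- LTB: a basis of the plane.

Proof.  `c`, `w` are linearly independent (`w` is not a multiple of `c` and `c ≠ 0`:
`LinearIndependent.pair_iff`), so a basis (`finrank = 2`, `basisOfLinearIndependentOfCardEqFinrank`). -/
def LTbStmt : Prop := ∀ (ℓ : ℕ) [Fact ℓ.Prime] (V : Type) [AddCommGroup V] [Module (ZMod ℓ) V],
  Module.finrank (ZMod ℓ) V = 2 → ∀ c w : V, c ≠ 0 → (∀ a : ZMod ℓ, w ≠ a • c) →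
  (∀ v : V, ∃ a b : ZMod ℓ, v = a • w + b • c) ∧
  (∀ a b : ZMod ℓ, a • w + b • c = 0 → a = 0 ∧ b = 0) ∧
  (∀ x y : ZMod ℓ, ∃ φ : V →ₗ[ZMod ℓ] ZMod ℓ, φ w = x ∧ φ c = y)

/-- LSM: the sum over the lines.

Proof.  By LTB the map `(a, s) ↦ a • (w + s • c)`, `a ≠ 0`, is a bijection onto the vectors which are no
multiples of `c`, and `F (a • (w + s • c)) = F (w + s • c)`, so their sum is
`(ℓ - 1) ∑ s, F (w + s • c) = - ∑ s, F (w + s • c)`; the multiples `a • c`, `a ≠ 0`, have the sum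
`(ℓ - 1) F c = - F c`, and `F 0 = 0`.  So `- f₀ = - ∑ s, F (w + s • c) - F c`. -/
def LSmStmt : Prop := ∀ (ℓ : ℕ) [Fact ℓ.Prime] (V Γ : Type) [AddCommGroup V] [Module (ZMod ℓ) V]
  [Fintype V] [Group Γ] [Fintype Γ] (ρ : Γ →* Module.End (ZMod ℓ) V) (F : V → ZMod ℓ)
  (f₀ : ZMod ℓ), LF ρ F f₀ → ∀ c w : V, c ≠ 0 → (∀ a : ZMod ℓ, w ≠ a • c) →
  ∑ s : ZMod ℓ, F (w + s • c) = f₀ - F c

/-- LHF: the functionals `h c` exist.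

Proof.  Let `c ≠ 0`.  There is `w₀` which is not a multiple of `c` (`finrank = 2`).  Let
`X = ∑ s, s F (w₀ + s • c)` and let `h` be the linear functional with `h w₀ = X`, `h c = F c - f₀`
(LTB).  Let `w = a • w₀ + b • c`, `a ≠ 0` (every vector which is not a multiple of `c` is of this form).  Then
`F (w + s • c) = F (w₀ + (a⁻¹ (b + s)) • c)` (`fs`), and with `s = a s' - b`,
`∑ s, s F (w + s • c) = ∑ s', (a s' - b) F (w₀ + s' • c) = a X - b (f₀ - F c) = h w` (LSM). -/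
def LHfStmt : Prop := ∀ (ℓ : ℕ) [Fact ℓ.Prime] (V Γ : Type) [AddCommGroup V] [Module (ZMod ℓ) V]
  [Fintype V] [Group Γ] [Fintype Γ] (ρ : Γ →* Module.End (ZMod ℓ) V) (F : V → ZMod ℓ)
  (f₀ : ZMod ℓ), LF ρ F f₀ → ∃ h : V → V →ₗ[ZMod ℓ] ZMod ℓ, HH F f₀ h

/-- LT1: the sum for one element `e`.

Proof.  Put `d' = ρ e d`, `c' = ρ e⁻¹ c`; so `c' + s • d = ρ e⁻¹ (c + s • d')`, `F c' = F c`, `F d' = F d`,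
`F (c + s • d') = F (c' + s • d)`.  The term for `s = 0` is `0` (`0⁻¹ = 0`).  For `s ≠ 0`
`s⁻¹ φ (c + s d') ψ (c' + s d) = s⁻¹ φ c ψ c' + (φ d' ψ c' + φ c ψ d) + s φ d' ψ d`.
First case: `d'` is not a multiple of `c`.  Then (`s ↦ s⁻¹`, `F (c + s • d') = F (d' + s⁻¹ • c)`)
`∑ s ≠ 0, s⁻¹ F (c + s d') = ∑ s, s F (d' + s • c) = h c d'`;
`∑ s ≠ 0, F (c + s d') = ∑ s ≠ 0, F (d' + s • c) = f₀ - F c - F d` (LSM, the term `s = 0` is `F d' = F d`);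
`∑ s, s F (c + s d') = ∑ s, s F (c' + s d) = h d c'` (`c'` is not a multiple of `d`, since `c` is not a
multiple of `d'`: `d' ≠ 0`).
Second case: `d' = j • c`, `j ≠ 0` (`d ≠ 0` and `ρ e` is bijective); then `d = j • c'`.  `F (c + s d') = F c` if
`1 + s j ≠ 0`, otherwise `F 0 = 0` and `φ (c + s d') = 0`.  So the left side is
`∑ s ≠ 0, s⁻¹ F c (1 + s j) ^ 2 φ c ψ c' = F c φ c ψ c' (∑ s⁻¹ + 2 j (ℓ - 1) + j ^ 2 ∑ s) = - 2 j F c φ c ψ c'`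
(`∑ s = ∑ s ≠ 0, s⁻¹ = 0` as `ℓ ≠ 2`); the right side is (`F d = F c`, `h c d' = j (F c - f₀)`,
`h d c' = j⁻¹ (F c - f₀)`, `φ d' = j φ c`, `ψ d = j ψ c'`)
`j φ c ψ c' (2 (f₀ - 2 F c) + (F c - f₀) + (F c - f₀)) = - 2 j F c φ c ψ c'`. -/
def LT1Stmt : Prop := ∀ (ℓ : ℕ) [Fact ℓ.Prime] (V Γ : Type) [AddCommGroup V] [Module (ZMod ℓ) V]
  [Fintype V] [Group Γ] [Fintype Γ] (ρ : Γ →* Module.End (ZMod ℓ) V) (F : V → ZMod ℓ)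
  (f₀ : ZMod ℓ) (h : V → V →ₗ[ZMod ℓ] ZMod ℓ), LF ρ F f₀ → HH F f₀ h → ∀ (e : Γ) (c d : V),
  c ≠ 0 → d ≠ 0 → ∀ φ ψ : V →ₗ[ZMod ℓ] ZMod ℓ,
  ∑ s : ZMod ℓ, s⁻¹ * (F (c + s • ρ e d) * (φ (c + s • ρ e d) * ψ (ρ e⁻¹ c + s • d))) =
    (f₀ - F c - F d) * (φ (ρ e d) * ψ (ρ e⁻¹ c) + φ c * ψ d) + h c (ρ e d) * φ c * ψ (ρ e⁻¹ c) +
      h d (ρ e⁻¹ c) * φ (ρ e d) * ψ d

/-- LID: the identity (I).

Proof.  Let `n = |Γ|`, `f₀ = n s₀`.  For units `t`, `s` the relation `n1` for `t • c`, `s • d`, multiplied with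
`(t s)⁻¹`: `N (t • c) (s • d) φ c ψ d = ∑ e, (t s)⁻¹ F (t c + s ρ e d) φ (t c + s ρ e d) ψ (t ρ e⁻¹ c + s d)`, and
with `s = t s'` this is `∑ e, s'⁻¹ F (c + s' ρ e d) φ (c + s' ρ e d) ψ (ρ e⁻¹ c + s' d)` (homogeneity).  The sum over
`t` and `s'` gives with `n2` and LT1 (the sum over `t` is the factor `ℓ - 1 = - 1`)
`(n (F c + F d) - n f₀) φ c ψ d = - ∑ e, ((f₀ - F c - F d) (φ (ρ e d) ψ (ρ e⁻¹ c) + φ c ψ d) + ..)`;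
the terms `n (f₀ - F c - F d) φ c ψ d` cancel. -/
def LIdStmt : Prop := ∀ (ℓ : ℕ) [Fact ℓ.Prime] (V Γ : Type) [AddCommGroup V] [Module (ZMod ℓ) V]
  [Fintype V] [Group Γ] [Fintype Γ] (ρ : Γ →* Module.End (ZMod ℓ) V) (F : V → ZMod ℓ)
  (N : V → V → ZMod ℓ) (s₀ : ZMod ℓ) (h : V → V →ₗ[ZMod ℓ] ZMod ℓ),
  LF ρ F (Fintype.card Γ * s₀) → LN ρ F N s₀ → HH F (Fintype.card Γ * s₀) h →
  II ρ F (Fintype.card Γ * s₀) h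

/-- LAV: the averages of the rank one operators.

Proof.  Let `A v = lam v • d` and `S = ∑ e, ρ e * A * ρ e⁻¹ = a • 1`.  The trace of `S` is `n lam d` and the trace of
`a • 1` is `2 a`.  So `S c = (n / 2) (lam d) • c`. -/
def LAvStmt : Prop := ∀ (ℓ : ℕ) [Fact ℓ.Prime] (V Γ : Type) [AddCommGroup V] [Module (ZMod ℓ) V]
  [Fintype V] [Group Γ] [Fintype Γ] (ρ : Γ →* Module.End (ZMod ℓ) V), ℓ ≠ 2 →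
  Module.finrank (ZMod ℓ) V = 2 →
  (∀ A : Module.End (ZMod ℓ) V, ∃ a : ZMod ℓ, ∑ e : Γ, ρ e * A * ρ e⁻¹ = a • 1) →
  ∀ (lam : V →ₗ[ZMod ℓ] ZMod ℓ) (c d : V),
  (2 : ZMod ℓ) • ∑ e : Γ, lam (ρ e⁻¹ c) • ρ e d = ((Fintype.card Γ : ZMod ℓ) * lam d) • c

/-- LC1: the absolutely irreducible case.

Proof.  By LAV, for all functionals `lam`, `mu` and `c`, `d`:
`2 ∑ e, lam (ρ e⁻¹ c) mu (ρ e d) = n (lam d) (mu c)`.  So twice the identity (I) is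
`n φ c ψ d ((f₀ - F c - F d) + (F c - f₀) + (F d - f₀)) = - n f₀ φ c ψ d` (for the three terms
`(lam, mu) = (ψ, φ)`, `(ψ, h c)`, `(h d, φ)`, with `h c c = F c - f₀`, `h d d = F d - f₀`).  Take `c = d ≠ 0` and
`φ = ψ` with `φ c = 1`. -/
def LC1Stmt : Prop := ∀ (ℓ : ℕ) [Fact ℓ.Prime] (V Γ : Type) [AddCommGroup V] [Module (ZMod ℓ) V]
  [Fintype V] [Group Γ] [Fintype Γ] (ρ : Γ →* Module.End (ZMod ℓ) V) (F : V → ZMod ℓ)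
  (f₀ : ZMod ℓ) (h : V → V →ₗ[ZMod ℓ] ZMod ℓ), LF ρ F f₀ → HH F f₀ h → II ρ F f₀ h →
  (∀ A : Module.End (ZMod ℓ) V, ∃ a : ZMod ℓ, ∑ e : Γ, ρ e * A * ρ e⁻¹ = a • 1) → f₀ = 0

/-- LC2: the case of scalars.

Proof.  `ρ e = a_e`, `a_e a_{e⁻¹} = 1`.  If `c`, `d` are linearly independent take `φ d = 1`, `φ c = 0`, `ψ c = 1`,
`ψ d = 0` (LTB): (I) is `n (f₀ - F c - F d) = 0`, so `F c + F d = f₀`.  Let `c`, `w` be independent; so are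
`c`, `w + s • c` and `w`, `w + c` : `F c = F w = F (w + c) = f₀ / 2`, and `F (w + s • c) = f₀ - F c = f₀ / 2` for
all `s`.  LSM: `0 = ℓ f₀ / 2 = f₀ - F c = f₀ / 2`. -/
def LC2Stmt : Prop := ∀ (ℓ : ℕ) [Fact ℓ.Prime] (V Γ : Type) [AddCommGroup V] [Module (ZMod ℓ) V]
  [Fintype V] [Group Γ] [Fintype Γ] (ρ : Γ →* Module.End (ZMod ℓ) V) (F : V → ZMod ℓ)
  (f₀ : ZMod ℓ) (h : V → V →ₗ[ZMod ℓ] ZMod ℓ), LF ρ F f₀ → HH F f₀ h → II ρ F f₀ h →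
  (∀ e : Γ, ∃ a : ZMod ℓ, ρ e = a • 1) → f₀ = 0

/-- LCM: operators which commute with an operator which is not scalar.

Proof.  If `θ c` is a multiple of `c` for all `c`, then `θ` is scalar (the multipliers for two independent
vectors and their sum).  So choose `c` with `θ c` not a multiple of `c`; by LTB every vector is a
combination of `θ c` and `c`.  If `g` commutes with `θ` and `g c = y • θ c + x • c`, then `g = y θ + x` at `c` and at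
`θ c`, so `g = y θ + x`.  For `g = g₀` not scalar `y ≠ 0`, so `θ = y⁻¹ (g₀ - x)`, and every `g` which
commutes with `θ` is a combination of `g₀` and `1`.  Last claim: `g₀ c` is not a multiple of `c` for some
`c` by the first step, `g₀ (g₀ c) = t • g₀ c - m • c` by LTB and `g₀ ^ 2 = t g₀ - m` at `c` and at `g₀ c`. -/
def LCmStmt : Prop := ∀ (ℓ : ℕ) [Fact ℓ.Prime] (V : Type) [AddCommGroup V] [Module (ZMod ℓ) V],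
  Module.finrank (ZMod ℓ) V = 2 → ∀ g₀ : Module.End (ZMod ℓ) V, (∀ a : ZMod ℓ, g₀ ≠ a • 1) →
  (∃ c : V, ∀ a : ZMod ℓ, g₀ c ≠ a • c) ∧
  (∀ θ g : Module.End (ZMod ℓ) V, (∀ a : ZMod ℓ, θ ≠ a • 1) → θ * g₀ = g₀ * θ → θ * g = g * θ →
    ∃ a b : ZMod ℓ, g = a • 1 + b • g₀) ∧
  ∃ t m : ZMod ℓ, g₀ * g₀ = t • g₀ - m • 1

/-- LQU: the square root of a scalar.

Proof.  `g₀ = ρ e₀`, `g₀ ^ 2 = t g₀ - m` (LCM), `u = g₀ - t / 2`, `Δ = t ^ 2 / 4 - m`: `u ^ 2 = Δ`.  If `Δ = 0` then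
`u ^ 2 = 0`, `g₀ ^ k = (t / 2) ^ k + k (t / 2) ^ (k - 1) u` for all `k ≥ 1`; for `k = |Γ|` this is `1`
(`orderOf_dvd_card`, `pow_card_eq_one`); `t / 2 ≠ 0` (otherwise `g₀ ^ 2 = 0`, but `g₀` is invertible), so `u` would be
scalar and `g₀` too.  For every `e`, `ρ e = x + y g₀ = (x + y t / 2) + y u` (LCM for `θ` and `g = ρ e`). -/
def LQuStmt : Prop := ∀ (ℓ : ℕ) [Fact ℓ.Prime] (V Γ : Type) [AddCommGroup V] [Module (ZMod ℓ) V]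
  [Fintype V] [Group Γ] [Fintype Γ] (ρ : Γ →* Module.End (ZMod ℓ) V), ℓ ≠ 2 →
  Module.finrank (ZMod ℓ) V = 2 → (Fintype.card Γ : ZMod ℓ) ≠ 0 →
  ∀ (e₀ : Γ) (θ : Module.End (ZMod ℓ) V), (∀ a : ZMod ℓ, ρ e₀ ≠ a • 1) →
  (∀ a : ZMod ℓ, θ ≠ a • 1) → (∀ e, θ * ρ e = ρ e * θ) →
  ∃ (u : Module.End (ZMod ℓ) V) (D : ZMod ℓ) (a b : Γ → ZMod ℓ), D ≠ 0 ∧ u * u = D • 1 ∧
    (∀ x : ZMod ℓ, u ≠ x • 1) ∧ (∀ e, ρ e = a e • 1 + b e • u) ∧ b e₀ = 1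

/-- LQS: the sums of the coefficients.

Proof.  `1`, `u` are linearly independent (`u` is not scalar).  `q e = (a e) ^ 2 - (b e) ^ 2 D ≠ 0`:
`(a + b u) (a - b u) = q`; if `q = 0`, then `a - b u = 0` (`ρ e` is invertible), `a = b = 0`, `ρ e = 0`, a
contradiction (`V ≠ 0`).  So `ρ e⁻¹ = (a - b u) / q`.  `a (e e') = a a' + b b' D`, `b (e e') = a b' + b a'`,
`q (e e') = q q'`.  Put `x e = (a ^ 2 + b ^ 2 D) / q`, `y e = 2 a b / q`.  Then `x (e e₀) = x x₀ + D y y₀`,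
`y (e e₀) = x y₀ + y x₀`, `x₀ ^ 2 - D y₀ ^ 2 = 1`, `1 - x₀ = - 2 D / q₀ ≠ 0` (`b e₀ = 1`).  The sums `X`, `Y` over `Γ`
satisfy `X = X x₀ + D Y y₀`, `Y = X y₀ + Y x₀`, so `(1 - x₀) ^ 2 X = (1 - x₀) D Y y₀ = D y₀ ^ 2 X =
(x₀ ^ 2 - 1) X`, `2 (1 - x₀) X = 0`, `X = 0`, `Y = 0`.  With `∑ (a ^ 2 - b ^ 2 D) / q = n`:
`2 ∑ a ^ 2 / q = n`, `2 D ∑ b ^ 2 / q = - n`, `∑ a b / q = 0`. -/
def LQsStmt : Prop := ∀ (ℓ : ℕ) [Fact ℓ.Prime] (V Γ : Type) [AddCommGroup V] [Module (ZMod ℓ) V]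
  [Fintype V] [Group Γ] [Fintype Γ] (ρ : Γ →* Module.End (ZMod ℓ) V), ℓ ≠ 2 →
  Module.finrank (ZMod ℓ) V = 2 → ∀ (u : Module.End (ZMod ℓ) V) (D : ZMod ℓ) (a b : Γ → ZMod ℓ)
  (e₀ : Γ), D ≠ 0 → u * u = D • 1 → (∀ x : ZMod ℓ, u ≠ x • 1) →
  (∀ e, ρ e = a e • 1 + b e • u) → b e₀ = 1 →
  (∀ e, a e ^ 2 - b e ^ 2 * D ≠ 0) ∧
  (∀ e, ρ e⁻¹ = (a e / (a e ^ 2 - b e ^ 2 * D)) • 1 - (b e / (a e ^ 2 - b e ^ 2 * D)) • u) ∧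
  2 * ∑ e : Γ, a e ^ 2 / (a e ^ 2 - b e ^ 2 * D) = Fintype.card Γ ∧
  2 * D * ∑ e : Γ, b e ^ 2 / (a e ^ 2 - b e ^ 2 * D) = - (Fintype.card Γ : ZMod ℓ) ∧
  ∑ e : Γ, a e * b e / (a e ^ 2 - b e ^ 2 * D) = 0

/-- LC3: the commutative case.

Proof.  `u`, `D`, `a`, `b` from LQU, `q e = a ^ 2 - b ^ 2 D` as in LQS.  Choose `c` with `u c` not a multiple of `c`
(LCM for `u`), and (LTB) `ψ c = 0`, `ψ (u c) = 1`, `φ c = 1`, `φ (u c) = 0`.  (I) for `c = d` and `(ψ, ψ)`: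
`(f₀ - 2 F c) ∑ e, ψ (ρ e c) ψ (ρ e⁻¹ c) = (f₀ - 2 F c) ∑ e, b (- b / q) = 0`; by LQS the sum is not `0`
(`2 D ∑ b ^ 2 / q = - n ≠ 0`), so `f₀ = 2 F c`.  (I) for `c = d` and `(φ, φ)`:
`∑ e, h c (ρ e c) φ (ρ e⁻¹ c) + ∑ e, h c (ρ e⁻¹ c) φ (ρ e c) = 0`, the two sums are equal (`e ↦ e⁻¹`), and the
first is `∑ e, (a h c c + b h c (u c)) a / q = (n / 2) h c c`.  So `h c c = F c - f₀ = 0`; with `f₀ = 2 F c`: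
`f₀ = 0`. -/
def LC3Stmt : Prop := ∀ (ℓ : ℕ) [Fact ℓ.Prime] (V Γ : Type) [AddCommGroup V] [Module (ZMod ℓ) V]
  [Fintype V] [Group Γ] [Fintype Γ] (ρ : Γ →* Module.End (ZMod ℓ) V) (F : V → ZMod ℓ)
  (f₀ : ZMod ℓ) (h : V → V →ₗ[ZMod ℓ] ZMod ℓ), LF ρ F f₀ → HH F f₀ h → II ρ F f₀ h →
  ∀ (e₀ : Γ) (θ : Module.End (ZMod ℓ) V), (∀ a : ZMod ℓ, ρ e₀ ≠ a • 1) →
  (∀ a : ZMod ℓ, θ ≠ a • 1) → (∀ e, θ * ρ e = ρ e * θ) → f₀ = 0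

/-- LIA: the conclusion of the linear algebra.

Proof.  `h` from LHF, (I) from LID.  If all averages `∑ e, ρ e * A * ρ e⁻¹` are scalar: LC1.  Otherwise
some average `θ` is not scalar; it commutes with all `ρ e`.  If all `ρ e` are scalar: LC2.  Otherwise LC3.
So `n s₀ = 0` and `s₀ = 0`. -/
def LIaStmt : Prop := ∀ (ℓ : ℕ) [Fact ℓ.Prime] (V Γ : Type) [AddCommGroup V] [Module (ZMod ℓ) V]
  [Fintype V] [Group Γ] [Fintype Γ] (ρ : Γ →* Module.End (ZMod ℓ) V) (F : V → ZMod ℓ)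
  (N : V → V → ZMod ℓ) (s₀ : ZMod ℓ), LF ρ F (Fintype.card Γ * s₀) → LN ρ F N s₀ → s₀ = 0

/-- RSL: residues of the elements of `Rl ℓ`.

Proof.  `Rat.cast` to `ZMod ℓ`: `(q : ZMod ℓ) = q.num / q.den`, `Rat.cast_add_of_ne_zero`,
`Rat.cast_mul_of_ne_zero`.  If the residue is `0`, `ℓ` divides the numerator. -/
def RslStmt : Prop := ∀ (ℓ : ℕ) [Fact ℓ.Prime],
  (∀ x ∈ SOR.Rl ℓ, ∀ y ∈ SOR.Rl ℓ, ((x + y : ℚ) : ZMod ℓ) = (x : ZMod ℓ) + (y : ZMod ℓ) ∧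
    ((x * y : ℚ) : ZMod ℓ) = (x : ZMod ℓ) * (y : ZMod ℓ)) ∧
  (∀ x ∈ SOR.Rl ℓ, ((x : ZMod ℓ) = 0 ↔ ∃ q ∈ SOR.Rl ℓ, x = ℓ * q)) ∧
  (∀ (I : Type) (s : Finset I) (f : I → ℚ), (∀ i ∈ s, f i ∈ SOR.Rl ℓ) →
    (∑ i ∈ s, f i) ∈ SOR.Rl ℓ ∧ ((∑ i ∈ s, f i : ℚ) : ZMod ℓ) = ∑ i ∈ s, (f i : ZMod ℓ))

/-- KCP: the order of a group with a free action is prime to `ℓ`.

Proof.  Otherwise there is `σ ∈ E₀` of order `ℓ` (Cauchy).  The number of the fixed points of the group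
generated by `σ` on `V₀` is divisible by `ℓ` (`IsPGroup.card_modEq_card_fixedPoints`) and `1` is a fixed
point, so there is a fixed point `v ≠ 1`. -/
def KcpStmt : Prop := ∀ (ℓ : ℕ) [Fact ℓ.Prime] (V₀ : Type) [CommGroup V₀] [Finite V₀]
  (E₀ : Subgroup (MulAut V₀)), Fr ℓ V₀ E₀ → ¬ ℓ ∣ Nat.card E₀

/-- the data of the arithmetic part -/
structure KD (ℓ : ℕ) [Fact ℓ.Prime] {V₀ : Type} [CommGroup V₀] (E₀ : Subgroup (MulAut V₀))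
    (D : V₀ → ℚ) (N : V₀ → V₀ → ℚ) (k : ℤ) : Prop where
  dr : ∀ c, D c ∈ SOR.Rl ℓ
  nr : ∀ c d, N c d ∈ SOR.Rl ℓ
  dp : ∀ (c : V₀) (j : ℕ), ¬ ℓ ∣ j → D (c ^ j) = D c
  de : ∀ σ ∈ E₀, ∀ c, D (σ c) = D c
  n1 : ∀ c d : V₀, c ≠ 1 → d ≠ 1 → ∃ q ∈ SOR.Rl ℓ, N c d = ℓ * q
  n2 : (∀ c : V₀, c ≠ 1 → ∃ q ∈ SOR.Rl ℓ, D c = ℓ * q) → ∀ (ρ₁ ρ₂ : V₀ → ZMod ℓ), Hm ρ₁ → Hm ρ₂ →
    ∀ c d : V₀, c ≠ 1 → d ≠ 1 → ∃ q ∈ SOR.Rl ℓ, N c d * ((ρ₁ c).val * (ρ₂ d).val) -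
      ∑ᶠ σ ∈ {σ : MulAut V₀ | σ ∈ E₀ ∧ c * σ d ≠ 1},
        ((ρ₁ (c * σ d)).val : ℚ) * (ρ₂ (σ⁻¹ (c * σ d))).val * D (c * σ d) = ℓ ^ 2 * q
  sf : ∀ c d : V₀, c ≠ 1 → d ≠ 1 → ∃ q ∈ SOR.Rl ℓ,
    ∑ t ∈ Finset.Icc 1 (ℓ - 1), ∑ s ∈ Finset.Icc 1 (ℓ - 1), N (c ^ t) (d ^ s) +
      (Nat.card E₀ : ℚ) * (ℓ - 1) * (D c + D d) + (Nat.card E₀ : ℚ) ^ 2 * k = ℓ ^ 2 * q
  hh : ∃ q ∈ SOR.Rl ℓ, (Nat.card E₀ : ℚ) * k + ∑ᶠ c ∈ {c : V₀ | c ≠ 1}, D c = ℓ ^ 2 * q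

/-- KM1: the part modulo `ℓ`.

Proof.  Everything modulo `ℓ` (RSL), `n = |E₀|` is prime to `ℓ` (KCP).  Let `c, d ≠ 1`.  `c ^ t, d ^ s ≠ 1` for
`1 ≤ t, s ≤ ℓ - 1`, so by `n1` the relation `sf` is `- n (D c + D d) + n ^ 2 k = 0`, `D c + D d = n k`; `d = c`:
`2 D c = n k`.  There are `ℓ ^ 2 - 1` elements `c ≠ 1`, so `2 hh`: `2 n k + (ℓ ^ 2 - 1) n k = n k = 0`.  So `k = 0`
and `D c = 0`. -/
def Km1Stmt : Prop := ∀ (ℓ : ℕ) [Fact ℓ.Prime], 5 ≤ ℓ → ∀ (V₀ : Type) [CommGroup V₀] [Finite V₀]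
  (E₀ : Subgroup (MulAut V₀)), Fr ℓ V₀ E₀ → ∀ (D : V₀ → ℚ) (N : V₀ → V₀ → ℚ) (k : ℤ),
  KD ℓ E₀ D N k → (∃ k' : ℤ, k = ℓ * k') ∧ ∀ c : V₀, c ≠ 1 → ∃ q ∈ SOR.Rl ℓ, D c = ℓ * q

/-- KM2: division by `ℓ`, functions on `V₀` with values in `ZMod ℓ`.

Proof.  `k = ℓ s₀` and `D c = ℓ D' c`, `N c d = ℓ N' c d` for `c, d ≠ 1` (KM1 and `n1`).  `F c` is the residue of
`D' c` for `c ≠ 1`, `F 1 = 0`, `N'' c d` the residue of `N' c d`.  Divide `n2`, `sf`, `hh` by `ℓ` and take residues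
(RSL; `(ρ x).val` has the residue `ρ x`; the terms with `c * σ d = 1` are `0`; `σ⁻¹ (c * σ d) = σ⁻¹ c * d`).
For `sf`: `n (ℓ - 1) (D' c + D' d)` has the residue `- n (F c + F d)`. -/
def Km2Stmt : Prop := ∀ (ℓ : ℕ) [Fact ℓ.Prime], 5 ≤ ℓ → ∀ (V₀ : Type) [CommGroup V₀] [Finite V₀]
  (E₀ : Subgroup (MulAut V₀)), Fr ℓ V₀ E₀ → ∀ (D : V₀ → ℚ) (N : V₀ → V₀ → ℚ) (k : ℤ),
  KD ℓ E₀ D N k → ∃ (F : V₀ → ZMod ℓ) (N' : V₀ → V₀ → ZMod ℓ) (k' : ℤ), k = ℓ * k' ∧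
  F 1 = 0 ∧ (∀ (c : V₀) (j : ℕ), ¬ ℓ ∣ j → F (c ^ j) = F c) ∧ (∀ σ ∈ E₀, ∀ c, F (σ c) = F c) ∧
  (∑ᶠ c : V₀, F c) = - ((Nat.card E₀ : ZMod ℓ) * k') ∧
  (∀ (ρ₁ ρ₂ : V₀ → ZMod ℓ), Hm ρ₁ → Hm ρ₂ → ∀ c d : V₀, c ≠ 1 → d ≠ 1 →
    N' c d * (ρ₁ c * ρ₂ d) = ∑ᶠ σ : E₀, F (c * σ.1 d) * (ρ₁ (c * σ.1 d) * ρ₂ (σ.1⁻¹ c * d))) ∧
  (∀ c d : V₀, c ≠ 1 → d ≠ 1 →
    ∑ t ∈ Finset.Icc 1 (ℓ - 1), ∑ s ∈ Finset.Icc 1 (ℓ - 1), N' (c ^ t) (d ^ s) =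
      (Nat.card E₀ : ZMod ℓ) * (F c + F d) - (Nat.card E₀ : ZMod ℓ) ^ 2 * k')

/-- KAR: the arithmetic part.

Proof.  KM2.  `V = Additive V₀` is a vector space over `ZMod ℓ` (`AddCommGroup.zmodModule`) of dimension two
(`Fr.cd`), `Γ = E₀`, `ρ σ = σ` as a linear map (`AddMonoidHom.toZModLinearMap`), `(ρ σ⁻¹) c = σ⁻¹ c`.  A linear
functional is a function with `Hm`.  `j • v` for `j : ZMod ℓ` is `v ^ j.val`; a sum over `(ZMod ℓ)ˣ` is a sum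
over `Icc 1 (ℓ - 1)`.  So `LF`, `LN` hold with `s₀ = k'` (KCP for `cp`), LIA: `ℓ ∣ k'`. -/
def KarStmt : Prop := ∀ (ℓ : ℕ) [Fact ℓ.Prime], 5 ≤ ℓ → ∀ (V₀ : Type) [CommGroup V₀] [Finite V₀]
  (E₀ : Subgroup (MulAut V₀)), Fr ℓ V₀ E₀ → ∀ (D : V₀ → ℚ) (N : V₀ → V₀ → ℚ) (k : ℤ),
  KD ℓ E₀ D N k → ((ℓ ^ 2 : ℕ) : ℤ) ∣ k

end Pool.Agent.PP.SO
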