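import Mathlib

/-!
# Squad ASO, definitions, part A: lifted permutations

Squad ASO: blocks with elementary abelian defect groups of order `ℓ ^ 2` and free inertial action
(second order).  This part needs Mathlib only.  Text: `AWC_SO.md`.
-/

open scoped BigOperators

noncomputable section

namespace Pool.Agent.PP.SO

/-- the rational numbers with denominator prime to `ℓ` -/
def zl (ℓ : ℕ) [hp : Fact ℓ.Prime] : Subring ℚ where
  carrier := {q | ∃ (a : ℤ) (b : ℕ), ¬ ℓ ∣ b ∧ (b : ℚ) * q = a}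
  one_mem' := ⟨1, 1, fun h => hp.out.one_lt.ne' (Nat.dvd_one.1 h), by simp⟩
  zero_mem' := ⟨0, 1, fun h => hp.out.one_lt.ne' (Nat.dvd_one.1 h), by simp⟩
  mul_mem' := by
    rintro x y ⟨a, b, hb, h⟩ ⟨a', b', hb', h'⟩
    refine ⟨a * a', b * b', fun h0 => ?_, ?_⟩
    · rcases hp.out.dvd_mul.1 h0 with h1 | h1
      · exact hb h1
      · exact hb' h1
    · push_cast
      rw [← h, ← h']
      ring
  add_mem' := by
    rintro x y ⟨a, b, hb, h⟩ ⟨a', b', hb', h'⟩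
    refine ⟨a * b' + a' * b, b * b', fun h0 => ?_, ?_⟩
    · rcases hp.out.dvd_mul.1 h0 with h1 | h1
      · exact hb h1
      · exact hb' h1
    · push_cast
      rw [← h, ← h']
      ring
  neg_mem' := by
    rintro x ⟨a, b, hb, h⟩
    refine ⟨-a, b, hb, ?_⟩
    push_cast
    rw [← h]
    ring

/-- A permutation `p` of `Z` with three rational functions: `r` and `e` are lifts of the values at
`p` of two cocycles, `t` is the value of the pairing cochain. -/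
@[ext] structure HZ (Z : Type) where
  p : Equiv.Perm Z
  r : Z → ℚ
  e : Z → ℚ
  t : Z → ℚ

namespace HZ

variable {Z : Type}

instance : Mul (HZ Z) := ⟨fun x y => ⟨x.p * y.p, fun z => x.r (y.p z) + y.r z,
  fun z => x.e (y.p z) + y.e z, fun z => x.t (y.p z) + y.t z + x.r (y.p z) * y.e z⟩⟩

instance : One (HZ Z) := ⟨⟨1, fun _ => 0, fun _ => 0, fun _ => 0⟩⟩

instance : Inv (HZ Z) := ⟨fun x => ⟨x.p⁻¹, fun z => - x.r (x.p⁻¹ z), fun z => - x.e (x.p⁻¹ z),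
  fun z => - x.t (x.p⁻¹ z) + x.r (x.p⁻¹ z) * x.e (x.p⁻¹ z)⟩⟩

@[simp] theorem mul_p (x y : HZ Z) : (x * y).p = x.p * y.p := rfl
@[simp] theorem mul_r (x y : HZ Z) (z : Z) : (x * y).r z = x.r (y.p z) + y.r z := rfl
@[simp] theorem mul_e (x y : HZ Z) (z : Z) : (x * y).e z = x.e (y.p z) + y.e z := rfl
@[simp] theorem mul_t (x y : HZ Z) (z : Z) :
    (x * y).t z = x.t (y.p z) + y.t z + x.r (y.p z) * y.e z := rfl
@[simp] theorem one_p : (1 : HZ Z).p = 1 := rfl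
@[simp] theorem one_r (z : Z) : (1 : HZ Z).r z = 0 := rfl
@[simp] theorem one_e (z : Z) : (1 : HZ Z).e z = 0 := rfl
@[simp] theorem one_t (z : Z) : (1 : HZ Z).t z = 0 := rfl
@[simp] theorem inv_p (x : HZ Z) : (x⁻¹).p = x.p⁻¹ := rfl
@[simp] theorem inv_r (x : HZ Z) (z : Z) : (x⁻¹).r z = - x.r (x.p⁻¹ z) := rfl
@[simp] theorem inv_e (x : HZ Z) (z : Z) : (x⁻¹).e z = - x.e (x.p⁻¹ z) := rfl
@[simp] theorem inv_t (x : HZ Z) (z : Z) :
    (x⁻¹).t z = - x.t (x.p⁻¹ z) + x.r (x.p⁻¹ z) * x.e (x.p⁻¹ z) := rfl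

instance : Group (HZ Z) where
  mul_assoc x y w := by
    ext z
    · rfl
    · simp only [mul_r, mul_p, Equiv.Perm.mul_apply]; ring
    · simp only [mul_e, mul_p, Equiv.Perm.mul_apply]; ring
    · simp only [mul_t, mul_r, mul_e, mul_p, Equiv.Perm.mul_apply]; ring
  one_mul x := by
    ext z
    · rfl
    · simp
    · simp
    · simp
  mul_one x := by
    ext z
    · rfl
    · simp
    · simp
    · simp
  inv_mul_cancel x := by
    ext z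
    · simp
    · simp
    · simp
    · simp

/-- equality modulo `R` of the permutations and of the functions `r` and `e` -/
structure cg (R : Subring ℚ) (x y : HZ Z) : Prop where
  p : x.p = y.p
  r : ∀ z, x.r z - y.r z ∈ R
  e : ∀ z, x.e z - y.e z ∈ R

variable {R : Subring ℚ}

theorem cg.refl (x : HZ Z) : cg R x x := ⟨rfl, fun z => by simp [R.zero_mem], fun z => by
  simp [R.zero_mem]⟩

theorem cg.symm {x y : HZ Z} (h : cg R x y) : cg R y x :=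
  ⟨h.p.symm, fun z => by rw [← neg_sub]; exact R.neg_mem (h.r z),
    fun z => by rw [← neg_sub]; exact R.neg_mem (h.e z)⟩

theorem cg.trans {x y w : HZ Z} (h : cg R x y) (h' : cg R y w) : cg R x w :=
  ⟨h.p.trans h'.p, fun z => by
      have := R.add_mem (h.r z) (h'.r z)
      rwa [sub_add_sub_cancel] at this, fun z => by
      have := R.add_mem (h.e z) (h'.e z)
      rwa [sub_add_sub_cancel] at this⟩

theorem cg.mul {x y x' y' : HZ Z} (h : cg R x y) (h' : cg R x' y') : cg R (x * x') (y * y') := by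
  refine ⟨?_, fun z => ?_, fun z => ?_⟩
  · rw [mul_p, mul_p, h.p, h'.p]
  · have := R.add_mem (h.r (y'.p z)) (h'.r z)
    rw [mul_r, mul_r, h'.p, add_sub_add_comm]
    exact this
  · have := R.add_mem (h.e (y'.p z)) (h'.e z)
    rw [mul_e, mul_e, h'.p, add_sub_add_comm]
    exact this

theorem cg.inv {x y : HZ Z} (h : cg R x y) : cg R x⁻¹ y⁻¹ := by
  refine ⟨?_, fun z => ?_, fun z => ?_⟩
  · rw [inv_p, inv_p, h.p]
  · rw [inv_r, inv_r, h.p, ← neg_sub']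
    exact R.neg_mem (h.r (y.p⁻¹ z))
  · rw [inv_e, inv_e, h.p, ← neg_sub']
    exact R.neg_mem (h.e (y.p⁻¹ z))

variable (Z R) in
/-- the congruence `cg R`; `(cgc Z R).Quotient` is a group -/
def cgc : Con (HZ Z) where
  r := cg R
  iseqv := ⟨cg.refl, cg.symm, cg.trans⟩
  mul' h h' := cg.mul h h'

end HZ

/-- `A = a c⁻¹` -/
def AA {Z : Type} (a c : HZ Z) : HZ Z := a * c⁻¹

/-- `B = b A⁻¹ b⁻¹` -/
def BB {Z : Type} (a b c : HZ Z) : HZ Z := b * (c * a⁻¹) * b⁻¹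

/-- `C = B⁻¹ A⁻¹ B A` -/
def CC {Z : Type} (a b c : HZ Z) : HZ Z := (BB a b c)⁻¹ * (AA a c)⁻¹ * BB a b c * AA a c

/-- The value at `A` of the cocycle `a ρ₁` and of the cocycle `ε_a = a ρ₂ - ρ₂ - δ g`, where
`g(z) = ρ₂(a⁻¹, z)`, `(a ρ)(h, z) = ρ(a⁻¹ h a, a⁻¹ z)`, `a⁻¹ A a = A`, `a⁻¹ B a = A⁻¹ B`. -/
def X1 {Z : Type} (a c : HZ Z) : HZ Z :=
  ⟨(AA a c).p, fun z => (AA a c).r (a.p⁻¹ z), fun z => (AA a c).e (a.p⁻¹ z) - (AA a c).e z -
    (a⁻¹.e ((AA a c).p z) - a⁻¹.e z), fun _ => 0⟩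

/-- The value at `B` of the cocycles `a ρ₁` and `ε_a`. -/
def Y1 {Z : Type} (a b c : HZ Z) : HZ Z :=
  ⟨(BB a b c).p, fun z => ((AA a c)⁻¹ * BB a b c).r (a.p⁻¹ z),
    fun z => ((AA a c)⁻¹ * BB a b c).e (a.p⁻¹ z) - (BB a b c).e z -
    (a⁻¹.e ((BB a b c).p z) - a⁻¹.e z), fun _ => 0⟩

/-- `τ(a) = I(a ρ₁, ε_a) - ∑ h₁ g - ∑ g₁ j₂`, `h₁ = κ₁ - r₁`, `g₁(z) = ρ₁(a⁻¹, z)`,
`j₂ = κ₂ - r₂ - ρ₂(C, ·)`. -/
def tau {Z : Type} (a b c : HZ Z) (r₁ r₂ : ℚ) (κ₁ κ₂ : Z → ℚ) : ℚ :=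
  ∑ᶠ z, ((Y1 a b c)⁻¹ * (X1 a c)⁻¹ * Y1 a b c * X1 a c).t z -
    ∑ᶠ z, (κ₁ z - r₁) * a⁻¹.e z - ∑ᶠ z, a⁻¹.r z * (κ₂ z - r₂ - (CC a b c).e z)

/-- The lifts `a`, `b`, `c` of three permutations satisfy modulo `R` the braid relations, the value
of `(a b c) ^ 4` is `(r₁, r₂)` and the value of `(a b) ^ 6` is `(κ₁, κ₂)`, functions invariant under
`a` and `b`. -/
structure Bra (R : Subring ℚ) {Z : Type} (a b c : HZ Z) (r₁ r₂ : ℚ) (κ₁ κ₂ : Z → ℚ) : Prop where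
  aba : HZ.cg R (a * b * a) (b * a * b)
  cbc : HZ.cg R (c * b * c) (b * c * b)
  ac : HZ.cg R (a * c) (c * a)
  tw : HZ.cg R ((a * b * c) ^ 4) ⟨1, fun _ => r₁, fun _ => r₂, fun _ => 0⟩
  t6 : HZ.cg R ((a * b) ^ 6) ⟨((a * b) ^ 6).p, κ₁, κ₂, fun _ => 0⟩
  k1a : ∀ z, κ₁ (a.p z) = κ₁ z
  k1b : ∀ z, κ₁ (b.p z) = κ₁ z
  k2a : ∀ z, κ₂ (a.p z) = κ₂ z
  k2b : ∀ z, κ₂ (b.p z) = κ₂ z

end Pool.Agent.PP.SO
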