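import Pool.Agent.SOR.Defs
import Pool.Agent.AT3.Defs

/-!
# Squad ASO, definitions, part B: triples in a group, types
-/

open scoped BigOperators

noncomputable section

namespace Pool.Agent.PP.SO

open Pool.Agent.Helper51_AWC Pool.Agent.Helper79_WRA Pool.Agent.PP Pool.Agent.PP.KF
open Pool.Agent.PP.K9 Pool.Agent.PP.K9.H97 Pool.Agent.PP.H75 Pool.Agent.PP.T3

/-- the triples `(x, y, u)` with `[x, y] = g (u h u⁻¹)` -/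
def XX {G : Type} [Group G] (g h : G) : Type :=
  {w : G × G × G // w.1 * w.2.1 * w.1⁻¹ * w.2.1⁻¹ = g * (w.2.2 * h * w.2.2⁻¹)}

/-- `x ↦ x ^ m` is the `ℓ`-part, `n > 1` is a power of `ℓ` which kills the `ℓ`-elements. -/
structure PE (ℓ n m : ℕ) (G : Type) [Group G] : Prop where
  pw : ∃ r, 0 < r ∧ n = ℓ ^ r
  md : m % ℓ = 1
  el : ∀ g : G, El ℓ g → g ^ m = g ∧ g ^ n = 1
  rg : ∀ g : G, Reg ℓ g → g ^ m = 1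

/-- a homomorphism to `ZMod ℓ` -/
def Hm {V₀ : Type} [CommGroup V₀] {ℓ : ℕ} (ρ : V₀ → ZMod ℓ) : Prop := ∀ v w, ρ (v * w) = ρ v + ρ w

/-- the index set of the types: `(i, j, p, q)` -/
abbrev SS (n : ℕ) (V₀ : Type) : Type := Fin n × Fin n × V₀ × V₀

section types

variable {G : Type} [Group G] {V₀ : Type} [CommGroup V₀]

/-- `α₁ ^ i α₃ ^ j (x, y, u) = (p, q) (x, y, u)`, where `α₁ (x, y, u) = (x, y x^m, u)`,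
`α₃ (x, y, u) = (x, X^m y, X^m u)`, `X = g⁻¹ x`, and `(p, q)` acts as
`(x, y, u) ↦ (p x p⁻¹, p y p⁻¹, p u q⁻¹)`. -/
def c13 (m : ℕ) (ι : V₀ →* G) (g x y u : G) (i j : ℕ) (p q : V₀) : Prop :=
  x = ι p * x * (ι p)⁻¹ ∧ ((g⁻¹ * x) ^ m) ^ j * y * (x ^ m) ^ i = ι p * y * (ι p)⁻¹ ∧
    ((g⁻¹ * x) ^ m) ^ j * u = ι p * u * (ι q)⁻¹

/-- the commutator `x y x⁻¹ y⁻¹` -/
def kap (x y : G) : G := x * y * x⁻¹ * y⁻¹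

/-- `α₁ ^ i α₁₂ ^ k (x, y, u) = (p, q) (x, y, u)`, where
`α₁₂ (x, y, u) = (κ^(-m) x κ^m, κ^(-m) y κ^m, u)`, `κ = x y x⁻¹ y⁻¹`. -/
def c12 (m : ℕ) (ι : V₀ →* G) (x y u : G) (i k : ℕ) (p q : V₀) : Prop :=
  ((kap x y ^ m) ^ k)⁻¹ * x * (kap x y ^ m) ^ k = ι p * x * (ι p)⁻¹ ∧
    ((kap x y ^ m) ^ k)⁻¹ * (y * (x ^ m) ^ i) * (kap x y ^ m) ^ k = ι p * y * (ι p)⁻¹ ∧
    u = ι p * u * (ι q)⁻¹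

/-- the type for `α₁`, `α₃` -/
def t13 (n m : ℕ) (ι : V₀ →* G) (P Q : Subgroup V₀) (g x y u : G) : Set (SS n V₀) :=
  {s | s.2.2.1 ∈ P ∧ s.2.2.2 ∈ Q ∧ c13 m ι g x y u s.1 s.2.1 s.2.2.1 s.2.2.2}

/-- the type for `α₁`, `α₁₂` -/
def t12 (n m : ℕ) (ι : V₀ →* G) (P Q : Subgroup V₀) (x y u : G) : Set (SS n V₀) :=
  {s | s.2.2.1 ∈ P ∧ s.2.2.2 ∈ Q ∧ c12 m ι x y u s.1 s.2.1 s.2.2.1 s.2.2.2}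

/-- The properties of the functions of the types.  `ρ₁`, `ρ₂` homomorphisms, `r₁`, `r₂` integers. -/
structure FT (ℓ n : ℕ) (ρ₁ ρ₂ : V₀ → ZMod ℓ) (c d : V₀) (r₁ r₂ : ℤ)
    (F₁₃ F₁₂ : Set (SS n V₀) → ℚ) : Prop where
  z13 : ∀ τ : Set (SS n V₀), (∀ s ∈ τ, s.2.2.1 = 1) ∨ (∀ s ∈ τ, s.2.2.2 = 1) → F₁₃ τ = 0
  z12 : ∀ τ : Set (SS n V₀), (∀ s ∈ τ, s.2.2.1 = 1 ∧ s.2.2.2 = 1) → F₁₂ τ = r₁ * r₂ / ℓ ^ 2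
  main : ∀ (κ₁ κ₂ : V₀) (I : Set (Fin n)), (∃ i ∈ I, (i : ℕ) = 0) → κ₁ ≠ c⁻¹ → κ₂ ≠ d⁻¹ →
    F₁₂ {s | s.1 ∈ I ∧ s.2.2.1 = κ₁ ^ (s.2.1 : ℕ) ∧ s.2.2.2 = κ₂ ^ (s.2.1 : ℕ)} =
      (r₁ * r₂ - (ρ₁ κ₁).val * (ρ₂ κ₂).val) / ℓ ^ 2

/-- The relation: for all frames `P`, `Q` the sum of `F₁₃ + F₁₂` over the triples is divisible by
`|P| |Q|`. -/
def Rel (ℓ : ℕ) [Fact ℓ.Prime] (n m : ℕ) (ι : V₀ →* G) (c d : V₀) (F₁₃ F₁₂ : Set (SS n V₀) → ℚ) :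
    Prop :=
  ∀ P Q : Subgroup V₀, c ∈ P → d ∈ Q → ∀ s t : G, Reg ℓ s → Reg ℓ t →
    (∀ p ∈ P, ι p * s = s * ι p) → (∀ q ∈ Q, ι q * t = t * ι q) →
    ∃ z ∈ SOR.Rl ℓ, ∑ᶠ w : XX (ι c * s) (ι d * t),
      (F₁₃ (t13 n m ι P Q (ι c * s) w.1.1 w.1.2.1 w.1.2.2) +
        F₁₂ (t12 n m ι P Q w.1.1 w.1.2.1 w.1.2.2)) = Nat.card P * Nat.card Q * z

end types

end Pool.Agent.PP.SO
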