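import Pool.Agent.ASO.DefsB
import Pool.Agent.AT3.Stmts3

/-!
# Squad ASO, definitions, part C: the block, its local blocks, the counting functions

`F = FF M`.  A datum `B : Bk F V₀ G` consists of a block `e` of `G`, an embedding `i` of the elementary
abelian group `V₀` of order `ℓ ^ 2` onto the defect group, a block `g` of its centraliser, the
blocks `b W` of the centralisers `C W` of the subgroups `i(W)` with `e ≤ b W ≤ g`, the degrees `D W` of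
their characters and signs `S W` (for `W ≠ ⊥`).
-/

open scoped BigOperators

noncomputable section

namespace Pool.Agent.PP.SO

open Pool.Agent.Helper51_AWC Pool.Agent.Helper79_WRA Pool.Agent.PP Pool.Agent.PP.KF
open Pool.Agent.PP.K9 Pool.Agent.PP.K9.H97 Pool.Agent.PP.H75 Pool.Agent.PP.T3

attribute [local instance] Ideal.Quotient.field

/-- `V₀` is elementary abelian of order `ℓ ^ 2` and the group `E₀` acts freely on `V₀ - 1`. -/
structure Fr (ℓ : ℕ) (V₀ : Type) [CommGroup V₀] (E₀ : Subgroup (MulAut V₀)) : Prop where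
  ex : ∀ v : V₀, v ^ ℓ = 1
  cd : Nat.card V₀ = ℓ ^ 2
  fr : ∀ σ ∈ E₀, σ ≠ 1 → ∀ v : V₀, σ v = v → v = 1

/-- a block with its local blocks, degrees and signs -/
structure Bk (F V₀ G : Type) [CommGroup V₀] [Group G] where
  /-- the block -/
  e : G → F
  /-- the block of the centraliser of the defect group -/
  g : G → F
  /-- the embedding of the defect group -/
  i : V₀ →* G
  /-- the local blocks -/
  b : Subgroup V₀ → G → F
  /-- the degrees -/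
  D : Subgroup V₀ → ℕ
  /-- the signs -/
  S : Subgroup V₀ → ℤ

section gen

variable {F V₀ G : Type} [CommGroup V₀] [Group G]

/-- the centraliser of `i(W)` -/
def Bk.C (B : Bk F V₀ G) (W : Subgroup V₀) : Subgroup G :=
  Subgroup.centralizer ((W.map B.i : Subgroup G) : Set G)

/-- the numbers `U` -/
def Bk.U (B : Bk F V₀ G) (W : Subgroup V₀) : ℚ :=
  B.S W * Nat.card (B.C W) * B.D ⊤ / (Nat.card (B.C ⊤) * B.D W)

/-- `b` is the block of the centraliser of `i(W)` under `e` and over `g`. -/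
structure Lb [Field F] (e g : G → F) (i : V₀ →* G) (W : Subgroup V₀) (b : G → F) : Prop where
  blk : Bx (Subgroup.centralizer ((W.map i : Subgroup G) : Set G)) b
  und : mulF (fun t : Subgroup.centralizer ((W.map i : Subgroup G) : Set G) => e t)
    (fun t : Subgroup.centralizer ((W.map i : Subgroup G) : Set G) => b t) =
      fun t : Subgroup.centralizer ((W.map i : Subgroup G) : Set G) => b t
  gam : mulF (br i.range b) g = g

open Classical in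
/-- `1` if `c ∈ W`, otherwise `U W` -/
def ux (U : Subgroup V₀ → ℚ) (W : Subgroup V₀) (c : V₀) : ℚ := if c ∈ W then 1 else U W

/-- the linear characters -/
def lin (V₀ : Type) [CommGroup V₀] : Set (V₀ → ℂ) := {f | f 1 = 1 ∧ ∀ v w, f (v * w) = f v * f w}

end gen

section blk

variable {V₀ G : Type} [CommGroup V₀] [Group G] (ℓ : ℕ) (M : Ideal (integralClosure ℤ ℂ))
  [M.IsMaximal]

/-- the basic conditions: `E₀` is the group of the automorphisms of `V₀` induced by the inertial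
group -/
structure Sb (E₀ : Subgroup (MulAut V₀)) (B : Bk (FF M) V₀ G) : Prop where
  inj : Function.Injective B.i
  ld : Ld ℓ B.e B.i.range B.g
  act : ∀ t ∈ Tg B.i.range B.g, ∃ σ ∈ E₀, ∀ v, t * B.i v * t⁻¹ = B.i (σ v)
  sur : ∀ σ ∈ E₀, ∃ t ∈ Tg B.i.range B.g, ∀ v, t * B.i v * t⁻¹ = B.i (σ v)
  lb : ∀ W, Lb B.e B.g B.i W (B.b W)

/-- the conditions for the degrees and the signs -/
structure Sy [Fact ℓ.Prime] (E₀ : Subgroup (MulAut V₀)) (B : Bk (FF M) V₀ G) : Prop extends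
    Sb ℓ M E₀ B where
  dg : ∀ W, W ≠ ⊥ → Dg M (fun t : B.C W => B.b W t) (B.D W)
  sg : ∀ W, W ≠ ⊥ → B.S W = 1 ∨ B.S W = -1
  un : ∀ W, W ≠ ⊥ → ∃ q ∈ SOR.Rl ℓ, B.U W = 1 + ℓ * q

variable {M}

/-- the lift of the idempotent `b W` as a function on `G` -/
def bh (B : Bk (FF M) V₀ G) (W : Subgroup V₀) : G → ℂ :=
  PP.ext0 (B.C W) (eh M (fun t : B.C W => B.b W t))

/-- The sum of the conjugates of `c b^` in the group ring of `C W`, `b` the block of the centraliser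
of `W` and `c`. -/
def fc (B : Bk (FF M) V₀ G) (W : Subgroup V₀) (c : V₀) : G → ℂ := fun g =>
  (Nat.card (B.C (W ⊔ Subgroup.zpowers c)) : ℂ)⁻¹ *
    ∑ᶠ z : B.C W, bh B (W ⊔ Subgroup.zpowers c) ((B.i c)⁻¹ * ((z : G)⁻¹ * g * z))

/-- the irreducible characters of the block `b W`, extended by zero -/
def Ch (B : Bk (FF M) V₀ G) (W : Subgroup V₀) : Set (G → ℂ) :=
  {χ | (∀ g, g ∉ B.C W → χ g = 0) ∧
    (fun t : B.C W => χ t) ∈ IrrE M (fun t : B.C W => B.b W t)}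

/-- the central character of `χ` at `f` -/
def cv (f χ : G → ℂ) : ℂ := (∑ᶠ g, f g * χ g) / χ 1

/-- the linear character of `V₀` which belongs to the character `χ` in `b W`, `W ≠ ⊥` -/
def lam (B : Bk (FF M) V₀ G) (W : Subgroup V₀) (χ : G → ℂ) (x : V₀) : ℂ :=
  cv (fc B W x) χ / (ux B.U W x : ℚ)

/-- `∑ ω_χ(f_c)`, `χ` in the block -/
def L1 (B : Bk (FF M) V₀ G) (c : V₀) : ℂ := ∑ᶠ χ ∈ IrrE M B.e, cv (fc B ⊥ c) χ

/-- `∑ ω_χ(f_c) ω_χ(f_d)`, `χ` in the block -/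
def L2 (B : Bk (FF M) V₀ G) (c d : V₀) : ℂ :=
  ∑ᶠ χ ∈ IrrE M B.e, cv (fc B ⊥ c) χ * cv (fc B ⊥ d) χ

/-- the sum `S(L; χ, χ')` -/
def SL (B : Bk (FF M) V₀ G) (m : ℕ) (L : Set (V₀ × V₀ × ℤ)) (χ χ' : G → ℂ) : ℂ :=
  ∑ᶠ w ∈ {w : G × G | ∀ s ∈ L, w.2 * B.i s.2.1 * w.2⁻¹ = B.i s.1 * (w.1 ^ m) ^ s.2.2},
    χ w.1 * χ' (w.2⁻¹ * w.1⁻¹ * w.2)

end blk

section types

variable {n : ℕ} {V₀ : Type} [CommGroup V₀]

/-- the subgroup generated by the components `p` -/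
def pL (L : Set (SS n V₀)) : Subgroup V₀ := Subgroup.closure {p | ∃ s ∈ L, s.2.2.1 = p}

/-- the subgroup generated by the components `q` -/
def qL (L : Set (SS n V₀)) : Subgroup V₀ := Subgroup.closure {q | ∃ s ∈ L, s.2.2.2 = q}

/-- the subgroup generated by the elements `κ ^ k p` -/
def aL (κ : V₀) (L : Set (SS n V₀)) : Subgroup V₀ :=
  Subgroup.closure {a | ∃ s ∈ L, κ ^ (s.2.1 : ℕ) * s.2.2.1 = a}

variable (E₀ : Subgroup (MulAut V₀))

/-- the number of the `(σ, σ', X)` for `W13` -/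
def N13 (c d : V₀) (L : Set (SS n V₀)) : ℕ :=
  {w : E₀ × E₀ × V₀ | w.1.1 w.2.2 = d * w.2.1.1 (c * w.2.2) ∧ ∀ s ∈ L,
    w.1.1 (s.2.2.1 * (w.2.2 ^ (s.2.1 : ℕ))⁻¹) = s.2.2.2 ∧
    w.2.1.1 (s.2.2.1 * (c * w.2.2) ^ (s.1 : ℕ)) = s.2.2.2}.ncard

/-- the number of the `(τ, X)` for `W12` -/
def N12 (κ : V₀) (L : Set (SS n V₀)) : ℕ :=
  {w : E₀ × V₀ | w.1.1 w.2 = κ * w.2 ∧ ∀ s ∈ L,
    w.1.1 (κ ^ (s.2.1 : ℕ) * s.2.2.1 * (w.2 ^ (s.1 : ℕ))⁻¹) = κ ^ (s.2.1 : ℕ) * s.2.2.1}.ncard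

/-- the value of `W13` -/
def P13 (U : Subgroup V₀ → ℚ) (c d : V₀) (L : Set (SS n V₀)) : ℚ :=
  ux U (pL L) c * ux U (qL L) d * N13 E₀ c d L

/-- the automorphisms `σ ∈ E₀` with `σ q = p` for all elements of `L` -/
def EL (L : Set (SS n V₀)) : Set (MulAut V₀) := {σ | σ ∈ E₀ ∧ ∀ s ∈ L, σ s.2.2.2 = s.2.2.1}

/-- the local part of the value of `W12` -/
def P12 (U : Subgroup V₀ → ℚ) (c d : V₀) (L : Set (SS n V₀)) : ℚ :=
  ∑ᶠ σ ∈ {σ | σ ∈ EL E₀ L ∧ aL (c * σ d) L ≠ ⊥},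
    ux U (pL L) c * ux U (pL L) (σ d) / ux U (pL L) (c * σ d) *
      (ux U (aL (c * σ d) L) (c * σ d) * N12 E₀ (c * σ d) L)

end types

section wsum

variable {V₀ G : Type} [CommGroup V₀] [Group G] {M : Ideal (integralClosure ℤ ℂ)} [M.IsMaximal]
  {n : ℕ}

/-- the weighted number of the triples whose `13`-type contains `L` -/
def W13 (B : Bk (FF M) V₀ G) (m : ℕ) (c d : V₀) (L : Set (SS n V₀)) : ℂ :=
  ((Nat.card (B.C (pL L ⊔ Subgroup.zpowers c)) : ℂ) *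
    Nat.card (B.C (qL L ⊔ Subgroup.zpowers d)))⁻¹ *
    ∑ᶠ w : G × G, bh B (pL L ⊔ Subgroup.zpowers c) w.1 * bh B (qL L ⊔ Subgroup.zpowers d) w.2 *
      {z : XX (B.i c * w.1) (B.i d * w.2) | ∀ s ∈ L,
        c13 m B.i (B.i c * w.1) z.1.1 z.1.2.1 z.1.2.2 s.1 s.2.1 s.2.2.1 s.2.2.2}.ncard

/-- the weighted number of the triples whose `12`-type contains `L` -/
def W12 (B : Bk (FF M) V₀ G) (m : ℕ) (c d : V₀) (L : Set (SS n V₀)) : ℂ :=
  ((Nat.card (B.C (pL L ⊔ Subgroup.zpowers c)) : ℂ) *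
    Nat.card (B.C (qL L ⊔ Subgroup.zpowers d)))⁻¹ *
    ∑ᶠ w : G × G, bh B (pL L ⊔ Subgroup.zpowers c) w.1 * bh B (qL L ⊔ Subgroup.zpowers d) w.2 *
      {z : XX (B.i c * w.1) (B.i d * w.2) | ∀ s ∈ L,
        c12 m B.i z.1.1 z.1.2.1 z.1.2.2 s.1 s.2.1 s.2.2.1 s.2.2.2}.ncard

/-- The weighted number of the pairs `(x, y)` with commutator in the section of `κ` such that
`κ ^ k p` commutes with `x` and `y⁻¹ (κ ^ k p) y = (κ ^ k p) (x ^ m) ^ i`, for all elements of `L`. -/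
def HK (B : Bk (FF M) V₀ G) (m : ℕ) (κ : V₀) (L : Set (SS n V₀)) : ℂ :=
  (Nat.card (B.C (aL κ L ⊔ Subgroup.zpowers κ)) : ℂ)⁻¹ *
    ∑ᶠ t : G, bh B (aL κ L ⊔ Subgroup.zpowers κ) t *
      {w : G × G | kap w.1 w.2 = B.i κ * t ∧ ∀ s ∈ L,
        B.i (κ ^ (s.2.1 : ℕ) * s.2.2.1) * w.1 = w.1 * B.i (κ ^ (s.2.1 : ℕ) * s.2.2.1) ∧
        w.2⁻¹ * B.i (κ ^ (s.2.1 : ℕ) * s.2.2.1) * w.2 =
          B.i (κ ^ (s.2.1 : ℕ) * s.2.2.1) * (w.1 ^ m) ^ (s.1 : ℕ)}.ncard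

/-- the weights of the two kinds of frames: `⊤` (rank two) and `⟨c⟩` -/
def wt (B : Bk (FF M) V₀ G) (c : V₀) (full : Bool) (s : G) : ℂ :=
  if full then (Nat.card (B.C ⊤) : ℂ)⁻¹ * bh B ⊤ s
  else (Nat.card (B.C (Subgroup.zpowers c)) : ℂ)⁻¹ * (bh B (Subgroup.zpowers c) s -
    (Nat.card (B.C ⊤) : ℂ)⁻¹ * ∑ᶠ z : B.C (Subgroup.zpowers c), bh B ⊤ ((z : G)⁻¹ * s * z))

/-- the frame -/
def frm {V₀ : Type} [CommGroup V₀] (c : V₀) (full : Bool) : Subgroup V₀ :=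
  if full then ⊤ else Subgroup.zpowers c

/-- the total sum -/
def TS (B : Bk (FF M) V₀ G) (m : ℕ) (c d : V₀) (F₁₃ F₁₂ : Set (SS n V₀) → ℚ) : ℂ :=
  ∑ f : Bool, ∑ f' : Bool, ∑ᶠ w : G × G, wt B c f w.1 * wt B d f' w.2 *
    ((∑ᶠ z : XX (B.i c * w.1) (B.i d * w.2),
      (F₁₃ (t13 n m B.i (frm c f) (frm d f') (B.i c * w.1) z.1.1 z.1.2.1 z.1.2.2) +
        F₁₂ (t12 n m B.i (frm c f) (frm d f') z.1.1 z.1.2.1 z.1.2.2)) : ℚ) : ℂ)

/-- the Möbius transform -/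
def mob {A : Type} (F : Set A → ℚ) (L : Set A) : ℚ :=
  ∑ᶠ T ∈ {T : Set A | T ⊆ L}, (-1) ^ (L \ T).ncard * F T

end wsum

end Pool.Agent.PP.SO
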