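import Pool.Agent.ASO.DefsA

/-!
# Squad ASO, statements 1: the exact relation for lifted permutations

This part needs Mathlib only.  Complete proofs in the docstrings.  Text: `AWC_SO.md`.

A *cocycle* of a group `Γ` acting on `Z` with values in `ℚ/R` is a function with
`ρ(g h, z) = ρ(g, h z) + ρ(h, z)`.  An element `(p, r, e, t)` of `HZ Z` carries the values at `p` of
two cocycles `ρ₁` (`r`), `ρ₂` (`e`).  `(δ g)(h, z) = g(h z) - g(z)`.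
-/

open scoped BigOperators

noncomputable section

namespace Pool.Agent.PP.SO

/-! ## 1. The braid group -/

/-- BRD: identities in a group with elements `a`, `b`, `c` which satisfy the braid relations.

Proof.  (1) `a A a⁻¹ = A` is clear.  `b A b⁻¹ = B⁻¹` is the definition of `B = b A⁻¹ b⁻¹`.
`B a = c B`: `B = b c a⁻¹ b⁻¹`, `a⁻¹ b⁻¹ a b a = b`, so `B a = b c (a⁻¹ b⁻¹ a b a) a⁻¹ b⁻¹ =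
b c b a⁻¹ b⁻¹ = c b c a⁻¹ b⁻¹ = c B`.  `a B a⁻¹ = a c⁻¹ B = A B` (`B a⁻¹ = c⁻¹ B`).
`c B c⁻¹ = B a c⁻¹ = B A`.  `(a b a) A (a b a)⁻¹ = (b a b) A (b a b)⁻¹`: the left side is
`a B⁻¹ a⁻¹ = (A B)⁻¹`, the right side is `b a B⁻¹ a⁻¹ b⁻¹ = b (A B)⁻¹ b⁻¹ = (b B b⁻¹)⁻¹ B`, so
`b B b⁻¹ = B A B`.
(2) `C = B⁻¹ A⁻¹ B A` commutes with `a` and with `b` (insert (1)).
(3) `Δ = a b a`, `w = a b c`.  `A B a = A c B = a B`, `B b = b c a⁻¹`, so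
`A B Δ = a B b a = a b c a⁻¹ a = w`.
`Δ A Δ⁻¹ = (A B)⁻¹`, `Δ B Δ⁻¹ = a b (A B) b⁻¹ a⁻¹ = a (B⁻¹ B A B) a⁻¹ = A A B`, so
`w² = A B (Δ A B Δ⁻¹) Δ² = A B (A B)⁻¹ A A B Δ² = A A B Δ²`.
`Δ² A Δ⁻² = ((A B)⁻¹ A A B)⁻¹ = B⁻¹ A⁻¹ B`, `Δ² B Δ⁻² = (A B)⁻¹ (A B)⁻¹ A A B = B⁻¹ A⁻¹ B⁻¹ A B`.
`w⁴ = A A B (Δ² A A B Δ⁻²) Δ⁴ = A A B · B⁻¹ A⁻¹ A⁻¹ B · B⁻¹ A⁻¹ B⁻¹ A B · Δ⁴ = A⁻¹ B⁻¹ A B Δ⁴
= C⁻¹ Δ⁴`, and `Δ⁴ = (a b) ^ 6` (`Δ² = (a b) ^ 3`), it commutes with `a`, `b` (`Δ a = b Δ`,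
`Δ b = a Δ`).
(4) `w⁴ = C⁻¹ Δ⁴` commutes with `a` and `b` by (2), (3), and so with `c = w b w⁻¹`
(`w b w⁻¹ = a (b c b c⁻¹ b⁻¹) a⁻¹ = a (c b c c⁻¹ b⁻¹) a⁻¹ = a c a⁻¹ = c`). -/
def BrdStmt : Prop := ∀ (Γ : Type) [Group Γ] (a b c A B C : Γ), a * b * a = b * a * b →
  c * b * c = b * c * b → a * c = c * a → A = a * c⁻¹ → B = b * (c * a⁻¹) * b⁻¹ →
  C = B⁻¹ * A⁻¹ * B * A →
  a * A * a⁻¹ = A ∧ a * B * a⁻¹ = A * B ∧ b * A * b⁻¹ = B⁻¹ ∧ b * B * b⁻¹ = B * A * B ∧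
  B * a = c * B ∧ c * B * c⁻¹ = B * A ∧ a * C = C * a ∧ b * C = C * b ∧
  (a * b) ^ 6 = C * (a * b * c) ^ 4 ∧ (a * b) ^ 6 * a = a * (a * b) ^ 6 ∧
  (a * b) ^ 6 * b = b * (a * b) ^ 6 ∧ (a * b * c) ^ 4 * a = a * (a * b * c) ^ 4 ∧
  (a * b * c) ^ 4 * b = b * (a * b * c) ^ 4 ∧ (a * b * c) ^ 4 * c = c * (a * b * c) ^ 4

/-! ## 2. The pairing and the homomorphism `τ` -/

/-- TAU: the homomorphism `τ` on the group generated by `a` and `b`.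

Proof.  `F` is the free group on `A`, `B`, `Π` the group generated by `a`, `b` (BRD in the quotient
group `(HZ.cgc Z R).Quotient`).  `ρ₁`, `ρ₂`: the cocycles of the group generated by `a`, `b`, `c`
with values in `ℚ/R`; `ρ~₂` the `ℚ`-valued cocycle of `F` with the values `(AA a c).e`,
`(BB a b c).e`, `ρ~₁` in the same way.
*Pairing.*  For `ℚ`-valued cocycles `ρ`, `ρ'` of `F` let `x, y ∈ HZ Z` be lifts of `A`, `B` with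
`r = ρ`, `e = ρ'`, and `I(ρ, ρ') = ∑_z (y⁻¹ x⁻¹ y x).t z`.  It does not depend on the functions `t`
of `x`, `y` (an element `(1, 0, 0, t)` is moved by conjugation to `(1, 0, 0, t ∘ π)`, its sum does not
change, and `x`, `y` both occur once with exponent `1` and once with `-1`).  `I` is the sum of
`θ(C, z)` for any `θ` with `θ(g h, z) = θ(g, h z) + θ(h, z) + ρ(g, h z) ρ'(h, z)`.  It is additive in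
`ρ` and in `ρ'`.  (F1) `I(δ g, ρ') = ∑ g(C z) ρ'(C, z)` (`θ(h, z) = g(h z) ρ'(h, z)`).  (F2)
`I(ρ, δ g) = - ∑ ρ(C, z) g(z)` (`θ(h, z) = - ρ(h, z) g(z)`).  (F3) Let `x ∈ Π` be a word in
`a`, `b` and `φ` the automorphism `g ↦ x⁻¹ g x` of the free group `F` (generated by
`φ_a : A ↦ A, B ↦ A⁻¹ B` and `φ_b : A ↦ A B A, B ↦ A⁻¹`; both fix the element `C` of the free
group), `(x ρ)(g, z) = ρ(φ(g), x⁻¹ z)`; then `I(x ρ, x ρ') = I(ρ, ρ')`: conjugation with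
`(x, 0, 0, 0)` and `φ(C) = C`, `I` computed with the lifts `φ(A)`, `φ(B)`.  If `ρ'` has values in `R`
then `I(ρ, ρ')` modulo `R` depends only on `ρ` modulo `R`.
*The gauge.*  `C = (a b) ^ 6 (a b c) ^ -4` modulo `R` (BRD), so `ρ_i(C, z) = h_i(z) = κ_i(z) - r_i`
modulo `R`, invariant under `Π`, and `C` acts on `Z` as `T = (a b) ^ 6`.
For `x ∈ Π` let `g_{i,x}(z) = ρ_i(x⁻¹, z)`, `g~_{2,x}` any lift of `g_{2,x}`.  The cocycle identity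
gives `(x ρ_i)(g, z) = ρ_i(g, z) + g_{i,x}(g z) - g_{i,x}(z)`, so
`ε_x = x ρ~₂ - ρ~₂ - δ g~_{2,x}` has values in `R`.  `C` commutes with `x`, so `g_{i,x}(C z) =
g_{i,x}(z)` modulo `R`.  Let `j₂ = h₂ - ρ~₂(C, ·)` (`h₂ = κ₂ - r₂` exactly), with values in `R`.
`ε_x(C, z) = j₂(z) - j₂(x⁻¹ z) - (g~_{2,x}(C z) - g~_{2,x}(z))`.
`τ(x) = I(x ρ₁, ε_x) - ∑ h₁ g~_{2,x} - ∑ g_{1,x} j₂` in `ℚ/R`.
(i) Independence of the lift: for `g~ + n`, `n` with values in `R`, the first term changes by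
`∑ (x ρ₁)(C, z) n(z) = ∑ h₁(x⁻¹ z) n(z) = ∑ h₁ n`, and the second by the negative.
(ii) `τ(x x') = τ(x) + τ(x')`: take `g~_{x x'} = g~_x + x g~_{x'}` (`(x g)(z) = g(x⁻¹ z)`).  Then
`ε_{x x'} = x ε_{x'} + ε_x`, `I(x x' ρ₁, ε_{x x'}) = I(x' ρ₁, ε_{x'}) + I(x ρ₁, ε_x) +
∑ (x g_{1,x'})(C z) ε_x(C, z)` (F1, F3, `x x' ρ₁ = x ρ₁ + δ(x g_{1,x'})`).  The last sum is
`∑ g_{1,x'}(x⁻¹ z) j₂(z) - ∑ g_{1,x'}(z) j₂(z)` (for the part `g~(C z) - g~(z)`: if `f(C z) - f(z)`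
and `g(C z) - g(z)` are in `R` for all `z` then `∑ f(z) (g(C z) - g(z)) ∈ R`, since `f` is
congruent to a `C`-invariant function).  Now compare with `∑ g_{1,x x'} j₂ = ∑ g_{1,x} j₂ +
∑ (x g_{1,x'}) j₂` and `∑ h₁ (x g~_{x'}) = ∑ h₁ g~_{x'}`.
(iii) `T`: `φ_T(g) = C⁻¹ g C` in the free group: for `ψ_a : A ↦ A, B ↦ A B` and
`ψ_b : A ↦ B⁻¹, B ↦ B A B` (`ψ_x(g) = x g x⁻¹`), `(ψ_a ψ_b) ^ 6` is `A ↦ C A C⁻¹, B ↦ C B C⁻¹` (a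
computation on words, checked by program; with `Δ`: `ψ_Δ = ψ_a ψ_b ψ_a : A ↦ (A B)⁻¹, B ↦ A A B`,
`ψ_Δ² : A ↦ B⁻¹ A⁻¹ B, B ↦ B⁻¹ A⁻¹ B⁻¹ A B`, `(ψ_Δ²)² = (ψ_a ψ_b) ^ 6`).  So `T ρ~₂ - ρ~₂ = δ(ρ~₂(C⁻¹, ·))`, `ρ~₂(C⁻¹, z) = - ρ~₂(C, C⁻¹ z) =
- h₂(z) + j₂(C⁻¹ z)`; with `g~_{2,T} = - κ₂`: `ε_T = δ(κ₂ + ρ~₂(C⁻¹, ·)) = δ(r₂ + j₂ ∘ C⁻¹) =
δ(j₂ ∘ C⁻¹)`.  (F2): `I(T ρ₁, ε_T) = - ∑ h₁(z) j₂(C⁻¹ z) = - ∑ h₁ j₂`.  So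
`τ(T) = - ∑ h₁ j₂ + ∑ h₁ κ₂ + ∑ κ₁ j₂ = ∑ h₁ κ₂ + r₁ ∑ j₂`, and
`∑ j₂ = ∑ κ₂ - |Z| r₂ - ∑ ρ~₂(C, z)`, the last sum is `0` (`C` is a commutator).  So
`τ(T) = ∑ κ₁ κ₂ - |Z| r₁ r₂`.
(iv) `T = (a b) ^ 6` and `τ(b) = τ(a)` (`a b a = b a b`), so `τ(T) = 12 τ(a)`; the number `tau` is
`τ(a)` for the lift `g~(z) = a⁻¹.e z` (`φ_a(A) = A`, `φ_a(B) = A⁻¹ B`). -/
def TauStmt : Prop := ∀ (R : Subring ℚ) (Z : Type) [Finite Z] (a b c : HZ Z) (r₁ r₂ : ℚ)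
  (κ₁ κ₂ : Z → ℚ), Bra R a b c r₁ r₂ κ₁ κ₂ →
  (Nat.card Z * r₁ * r₂ - ∑ᶠ z, κ₁ z * κ₂ z) + 12 * tau a b c r₁ r₂ κ₁ κ₂ ∈ R

/-- EVA: evaluation of `τ(a)` with local functions.

Proof.  Notation: `α = a.r`, `α₃ = c.r`, `β = (BB a b c).r`, `α' = a.e`, `α₃' = c.e`,
`β' = (BB a b c).e` (functions), `A* = B⁻¹ A B`, `a* = B⁻¹ a B`; on `Z`: `C = A*⁻¹ A`,
`A* = a* a⁻¹`, `a = B⁻¹ c B`, `A*` commutes with `a` (BRD).  All congruences are modulo `R`.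
(1) `a` and `c` commute exactly in `e`, so `ε_a(A) = 0` (`X1.e = 0`).  If `ε(A) = 0` then
`I(ρ, ε) = ∑_z ε(B, z) ρ(A*⁻¹, z)` (with `θ(A) = θ(B) = 0`: `∑ θ(C, z) = ∑ θ(A*⁻¹, z) =
∑ (ρ(B⁻¹ A⁻¹, B z) - ρ(B⁻¹, B z)) ε(B, z)`).  `ε_a(B, a z) = ε^(z)` with
`ε^(z) = α₃'(B z) + β'(z) - β'(a z) - α'(z)` (`a⁻¹ B a = A⁻¹ B`, `B a = c B`), in `R`.
`(a ρ₁)(A*⁻¹, a z) = ρ₁(A*⁻¹, z)`.  So `τ ≡ P + T₂ + T₃`, `P = ∑ ε^(z) ρ₁(A*⁻¹, z)`,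
`T₂ = ∑ h₁(z) α'(z)`, `T₃ = ∑ α(z) j₂(a z)` (`a⁻¹.e z = - α'(a⁻¹ z)`, `h₁` is `a`-invariant).
(2) `φ' = u ∘ B - β`; then modulo `R`: `ρ₁(a, z) = α₃(B z) + β(z) - β(a z) ≡ n₁(B z) + φ'(a z) -
φ'(z)` and `n₁(B z) = m₁(z)`; `ρ₁(a*, z) ≡ (m₁ - η)(B z) + φ'(a* z) - φ'(z)`.  Write `f*` for
`f ∘ B`.  So `ρ₁(A*⁻¹, z) = ρ₁(a a*⁻¹, z) ≡ (m₁ - m₁* + η*)(z) + φ'(A*⁻¹ z) - φ'(z)`.  The same for
`ρ₂` with exact equalities for the lifts: `χ = v ∘ B - β'`, `ω = χ - v`: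
`ε^ = ω(a z) - ω(z) - ζ*(z)`, `ρ~₂(A*⁻¹, z) = (m₂ - ζ* - m₂*)(z) + χ(A*⁻¹ z) - χ(z)`,
`ρ~₂(A, z) = (m₂ - n₂ + ζ)(z) + v(A z) - v(z)`.
All of `m_i, n_i, η, ζ, m_i*, η*, ζ*` are invariant under `a`; `m_i`, `n_i`, `η`, `ζ` under `c`;
`m_i*, η*, ζ*` under `a*` and so under `A*`; `m_i` under `C`.
(3) `P ≡ ∑ ε^ (m₁ - m₁* + η*) + ∑ ε^(z)(φ'(A*⁻¹ z) - φ'(z))
= - ∑ ζ*(m₁ - m₁* + η*) - ∑ ω(a z)[δ_a φ'(A*⁻¹ z) - δ_a φ'(z)]`, `δ_a f(z) = f(a z) - f(z)`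
(sums of `δ_a ω` against `a`-invariant functions vanish; `ζ*` is `A*`-invariant).
(4) `T₂ = ∑ h₁ m₂ = ∑ (κ₁ - r₁) m₂` (`h₁` is `a`-invariant).
(5) `T₃`: `j₂` has values in `R`, so `α` may be replaced by `m₁ + δ_a φ'`.
`j₂(a z) = h₂(z) - ρ~₂(C, a z)`, `ρ~₂(C, w) = (m₂ - ζ* - m₂*)(A w) + (m₂ - n₂ + ζ)(w) + χ(C w) -
ω(A w) - v(w)`.  `∑ (m₁ + δ_a φ') h₂ = ∑ m₁ (κ₂ - r₂)`.  The sums of `m₁` against the differences of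
`χ`, `v` vanish (`m₁` is invariant under `a`, `A`, `C`), the sums of `δ_a φ'` against `a`-invariant
functions vanish.  So `T₃ ≡ ∑ m₁ (κ₂ - r₂) - ∑ m₁ (2 m₂ - n₂ - m₂* + ζ - ζ*) -
∑ δ_a φ'(z) [χ(C a z) - ω(A a z) - v(a z)]`.
(6) The sum of the quadratic terms of (3) and (5) is
`Q = ∑ δ_a φ'(z) [ω(a A z) - ω(a A* z) + χ(a z) - χ(a C z)]`, and `A z = A* C z`, so with
`f(z) = ω(a A* z) - χ(a z)`: `Q = ∑ δ_a φ'(z) (f(C z) - f(z)) = - ∑ N(z) f(C z)`,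
`N(z) = δ_a φ'(C z) - δ_a φ'(z)`, which is in `R` (`δ_a φ' ≡ α - m₁` is `C`-invariant modulo `R`: `C`
commutes with `a` and `ρ₁(C, ·) = h₁` is `a`-invariant).  From the formula for `ρ~₂(C, a z)` modulo `R`
(`≡ h₂(z)`): `f(C z) = ω(a A z) - χ(a C z) ≡ - h₂(z) + [a`-invariant functions`] - v(a z)`.
`∑ N h₂ = 0` (`h₂` is `C`-invariant), `∑ N (a`-invariant`) = 0` (`N = δ_a` of `φ'(C z) - φ'(z)`).  So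
`Q ≡ ∑ N(z) v(a z)`.
(7) `Q` may be computed with any `φ` with `δ_a φ ≡ α - m₁`: let `ψ = φ - φ'`, `D = δ_a ψ ∈ R`; the
difference is `∑ (D(C z) - D(z)) v(a z) = ∑ D(z) w(z)`, `w(z) = v(a C⁻¹ z) - v(a z)`, and
`δ_a w ∈ R` (`δ_a v ≡ α' - m₂` is `C`-invariant modulo `R`); `ψ` is the sum of an `a`-invariant
function and a function with values in `R`, so `∑ δ_a ψ · w = - ∑ ψ(z) (w(z) - w(a⁻¹ z)) ∈ R`.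
(8) Collect: `- ∑ ζ*(m₁ - m₁* + η*) - ∑ m₁(ζ - ζ*) = - ∑ η ζ` (`∑ f* g* = ∑ f g`),
`∑ m₁ m₂* = ∑ n₁ m₂` (`n_i ∘ B = m_i`), so `- ∑ m₁ (2 m₂ - n₂ - m₂*) = - ∑ (m₁ - n₁)(m₂ - n₂)`
(`∑ n₁ n₂ = ∑ m₁ m₂`). -/
def EvaStmt : Prop := ∀ (R : Subring ℚ) (Z : Type) [Finite Z] (a b c : HZ Z) (r₁ r₂ : ℚ)
  (κ₁ κ₂ : Z → ℚ), Bra R a b c r₁ r₂ κ₁ κ₂ → ∀ (m₁ m₂ n₁ n₂ η ζ u v φ : Z → ℚ),
  (∀ f : Z → ℚ, f = m₁ ∨ f = m₂ ∨ f = n₁ ∨ f = n₂ ∨ f = η ∨ f = ζ →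
    ∀ z, f (a.p z) = f z ∧ f (c.p z) = f z) →
  (∀ z, m₁ (((a * b) ^ 6).p z) = m₁ z ∧ m₂ (((a * b) ^ 6).p z) = m₂ z) →
  (∀ z, n₁ ((BB a b c).p z) = m₁ z ∧ n₂ ((BB a b c).p z) = m₂ z) →
  (∀ z, a.r z - (m₁ z - η z) - (u (a.p z) - u z) ∈ R ∧ c.r z - n₁ z - (u (c.p z) - u z) ∈ R) →
  (∀ z, a.e z = m₂ z + (v (a.p z) - v z) ∧ c.e z = n₂ z - ζ z + (v (c.p z) - v z)) →
  (∀ z, a.r z - m₁ z - (φ (a.p z) - φ z) ∈ R) →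
  tau a b c r₁ r₂ κ₁ κ₂ + ∑ᶠ z, ((m₁ z - n₁ z) * (m₂ z - n₂ z) + (r₁ - κ₁ z) * m₂ z +
    m₁ z * (r₂ - κ₂ z) + η z * ζ z) -
    ∑ᶠ z, ((φ (a.p (((a * b) ^ 6).p z)) - φ (((a * b) ^ 6).p z)) - (φ (a.p z) - φ z)) *
      v (a.p z) ∈ R

/-- NTM: the term of the pairs of commuting permutations.

Proof.  It is enough to consider one orbit `O` of the group generated by `a`, `C`.  Let `n` be the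
length of the `a`-orbits in `O`, `k` the least positive number with `C ^ k z ∈ ⟨a⟩ z` (the same for
all `z ∈ O`), `C ^ k z = a ^ k' z` (`k'` modulo `n`, the same for all `z`).  `|O| = n k`.  Summing over
an `a`-orbit, `n μ_i ∈ R`.
(1) The sum modulo `R` does not change if `p₁`, `p₂` are changed by functions with values in `R`
(`N = δ_C δ_a p₁` is in `R`, because `μ₁` is invariant; for a change of `p₁` by `q` with values in `R`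
move the differences to `p₂(a z)`).  So let `z₀ ∈ O`, and for `0 ≤ s < k`, `0 ≤ t < n`:
`p₁(C^s a^t z₀) = t μ₁ + f(s)`, and `p₂(C^s a^t z₀) ≡ t μ₂ + g(s)`.  Then `δ_a p₁ = μ₁ - n μ₁ [t = n-1]`,
`N = 0` for `s < k - 1`, and for `s = k - 1`: `N = - n μ₁ ([t + k' ≡ n - 1] - [t = n - 1])` (mod `n`).
`∑ N(z) p₂(a z) = - n μ₁ (p₂(C^(k-1) a^(-k') z₀) - p₂(C^(k-1) z₀)) ≡ n μ₁ k' μ₂`.
(2) For `z ∈ O`: `k₀(z) = s k` with a natural number `s`, and `k/k₀(z) ∈ R`, so `s` is a unit of `R`;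
`k₁(z) = s k' + t n` with an integer `t`, and
`(k₁/k₀) n k μ₁ μ₂ = n k' μ₁ μ₂ + (t/s) (n μ₁) (n μ₂)`, the last term is in `R`. -/
def NtmStmt : Prop := ∀ (R : Subring ℚ) (Z : Type) [Finite Z] (a C : Equiv.Perm Z),
  a * C = C * a → ∀ (p₁ p₂ μ₁ μ₂ : Z → ℚ) (k₀ k₁ : Z → ℕ),
  (∀ z, μ₁ (a z) = μ₁ z ∧ μ₁ (C z) = μ₁ z ∧ μ₂ (a z) = μ₂ z ∧ μ₂ (C z) = μ₂ z) →
  (∀ z, k₀ (a z) = k₀ z ∧ k₀ (C z) = k₀ z ∧ k₁ (a z) = k₁ z ∧ k₁ (C z) = k₁ z) →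
  (∀ z, p₁ (a z) - p₁ z - μ₁ z ∈ R ∧ p₂ (a z) - p₂ z - μ₂ z ∈ R) →
  (∀ z, 0 < k₀ z ∧ (C ^ k₀ z) z = (a ^ k₁ z) z ∧
    ∀ k j : ℕ, (C ^ k) z = (a ^ j) z → (k : ℚ) / k₀ z ∈ R) →
  ∑ᶠ z, ((p₁ (a (C z)) - p₁ (C z)) - (p₁ (a z) - p₁ z)) * p₂ (a z) -
    ∑ᶠ z, (k₁ z : ℚ) / k₀ z * μ₁ z * μ₂ z ∈ R

/-- RTO: the exact relation.

Proof.  TAU, EVA, NTM.  Let `a'`, `c'` be `a`, `c` with the functions `e` replaced by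
`m₂ + δ_a v`, `n₂ - ζ + δ_c v`; they are congruent to `a`, `c`, so `Bra` holds for `a'`, `b`, `c'`.
Let `φ = t₁ + q₁` where `q₁` is a function with `q₁(a z) - q₁(z) ≡ M₁ - m₁`: (it exists: by EVA's proof
`φ = u ∘ B - (BB).r` satisfies `δ_a φ ≡ a.r - m₁`; put `q₁ = φ - t₁`), and `q₂ = v - t₂`.  `t_i` is
`T`-invariant, so in the last sum of EVA `φ` may be replaced by `q₁` (in the difference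
`φ(T z) - φ(z)`) and then `v` by `q₂` (`∑ (f(T z) - f(z)) t₂(a z) = 0`).  NTM for `p_i = q_i`,
`μ_i = M_i - m_i`, `C = T = ((a b) ^ 6).p` (it commutes with `a.p`, BRD for the permutations). -/
def RtoStmt : Prop := ∀ (R : Subring ℚ) (Z : Type) [Finite Z] (a b c : HZ Z) (r₁ r₂ : ℚ)
  (κ₁ κ₂ : Z → ℚ), Bra R a b c r₁ r₂ κ₁ κ₂ →
  ∀ (m₁ m₂ n₁ n₂ η ζ M₁ M₂ u v t₁ t₂ : Z → ℚ) (k₀ k₁ : Z → ℕ),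
  (∀ f : Z → ℚ, f = m₁ ∨ f = m₂ ∨ f = n₁ ∨ f = n₂ ∨ f = η ∨ f = ζ →
    ∀ z, f (a.p z) = f z ∧ f (c.p z) = f z) →
  (∀ f : Z → ℚ, f = m₁ ∨ f = m₂ ∨ f = M₁ ∨ f = M₂ →
    ∀ z, f (a.p z) = f z ∧ f (((a * b) ^ 6).p z) = f z) →
  (∀ z, n₁ ((BB a b c).p z) = m₁ z ∧ n₂ ((BB a b c).p z) = m₂ z) →
  (∀ z, a.r z - (m₁ z - η z) - (u (a.p z) - u z) ∈ R ∧ c.r z - n₁ z - (u (c.p z) - u z) ∈ R) →
  (∀ z, a.e z - m₂ z - (v (a.p z) - v z) ∈ R ∧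
    c.e z - (n₂ z - ζ z) - (v (c.p z) - v z) ∈ R) →
  (∀ z, t₁ (((a * b) ^ 6).p z) = t₁ z ∧ t₂ (((a * b) ^ 6).p z) = t₂ z) →
  (∀ z, a.r z - M₁ z - (t₁ (a.p z) - t₁ z) ∈ R ∧ a.e z - M₂ z - (t₂ (a.p z) - t₂ z) ∈ R) →
  (∀ z, k₀ (a.p z) = k₀ z ∧ k₀ (((a * b) ^ 6).p z) = k₀ z ∧
    k₁ (a.p z) = k₁ z ∧ k₁ (((a * b) ^ 6).p z) = k₁ z) →
  (∀ z, 0 < k₀ z ∧ (((a * b) ^ 6).p ^ k₀ z) z = (a.p ^ k₁ z) z ∧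
    ∀ k j : ℕ, (((a * b) ^ 6).p ^ k) z = (a.p ^ j) z → (k : ℚ) / k₀ z ∈ R) →
  ∑ᶠ z, (r₁ * r₂ - κ₁ z * κ₂ z - 12 * ((m₁ z - n₁ z) * (m₂ z - n₂ z) + (r₁ - κ₁ z) * m₂ z +
    m₁ z * (r₂ - κ₂ z) + η z * ζ z -
    (k₁ z : ℚ) / k₀ z * (M₁ z - m₁ z) * (M₂ z - m₂ z))) ∈ R

/-- GAU: a cocycle of two commuting permutations with given holonomy.

Proof.  One orbit of `⟨a, c⟩` at a time.  Fix `z₀`.  Every point is `a^i c^j z₀`; put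
`u(a^i c^j z₀) = (sum of the cocycle along a^i c^j) - (i μ + j ν)`.  By the hypothesis and the cocycle
identity it is well defined modulo `R` (if `a^i c^j z₀ = a^i' c^j' z₀` then compare with the
holonomy of `a^(i-i') c^(j-j')`; add multiples of the orders of `a`, `c` to have natural
exponents); choose representatives in `ℚ`.  Then `u(a z) - u(z) ≡ α(z) - μ` and
`u(c z) - u(z) ≡ γ(z) - ν`. -/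
def GauStmt : Prop := ∀ (R : Subring ℚ) (Z : Type) [Finite Z] (a c : Equiv.Perm Z),
  a * c = c * a → ∀ (α γ μ ν : Z → ℚ), (∀ z, α (c z) + γ z - (γ (a z) + α z) ∈ R) →
  (∀ z, μ (a z) = μ z ∧ μ (c z) = μ z ∧ ν (a z) = ν z ∧ ν (c z) = ν z) →
  (∀ (z : Z) (i j : ℕ), (a ^ i * c ^ j) z = z →
    (∑ s ∈ Finset.range i, α ((a ^ s * c ^ j) z) + ∑ s ∈ Finset.range j, γ ((c ^ s) z)) -
      (i * μ z + j * ν z) ∈ R) →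
  ∃ u : Z → ℚ, ∀ z, α z - μ z - (u (a z) - u z) ∈ R ∧ γ z - ν z - (u (c z) - u z) ∈ R

end Pool.Agent.PP.SO
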