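import Pool.Agent.ASO.DefsB
import Pool.Agent.SOR.Stmts3

/-!
# Squad ASO, statements 2: the exact relation for triples in a finite group

Complete proofs in the docstrings.  Text: `AWC_SO.md`.
-/

open scoped BigOperators

noncomputable section

namespace Pool.Agent.PP.SO

open Pool.Agent.Helper51_AWC Pool.Agent.Helper79_WRA Pool.Agent.PP Pool.Agent.PP.KF
open Pool.Agent.PP.K9 Pool.Agent.PP.K9.H97 Pool.Agent.PP.H75 Pool.Agent.PP.T3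

/-- RTX: the relation for the triples in all finite groups, with universal functions of the types.

Proof.  A corollary of `RtyStmt` (`Helper66_SOR/StmtX.lean`, itself a corollary of `SOR.UniStmt` and
`SOR.BrxStmt`): let `x₁(v) = (ρ₁ v).val` for `v ≠ c⁻¹`, `x₁(c⁻¹) = r₁`, `x₂(v) = (ρ₂ v).val` for
`v ≠ d⁻¹`, `x₂(d⁻¹) = r₂`.  `z13` is weaker than that of RTY (`p = 1` implies `ρ₁ p = 0`), `z12` follows (a
type with all `p = q = 1` is free), `main`: `prod`, `K1` (`n > 1`; the type is free and a product type). -/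
def RtxStmt : Prop := ∀ (ℓ : ℕ) [Fact ℓ.Prime] (V₀ : Type) [CommGroup V₀] [Finite V₀],
  (∀ v : V₀, v ^ ℓ = 1) → ∀ (n : ℕ) (ρ₁ ρ₂ : V₀ → ZMod ℓ), (∃ r, 0 < r ∧ n = ℓ ^ r) → Hm ρ₁ →
  Hm ρ₂ → ∀ (c d : V₀) (r₁ r₂ : ℤ), (r₁ : ZMod ℓ) = - ρ₁ c → (r₂ : ZMod ℓ) = - ρ₂ d →
  (ρ₁ c = 0 → r₁ = 0) → (ρ₂ d = 0 → r₂ = 0) →
  ∃ F₁₃ F₁₂ : Set (SS n V₀) → ℚ, FT ℓ n ρ₁ ρ₂ c d r₁ r₂ F₁₃ F₁₂ ∧
    ∀ (G : Type) [Group G] [Finite G] (m : ℕ) (ι : V₀ →* G), Function.Injective ι →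
      PE ℓ n m G → Rel ℓ n m ι c d F₁₃ F₁₂

end Pool.Agent.PP.SO
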