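import Pool.Agent.ASO.DefsC

/-!
# Squad ASO, statements 3: local blocks, character values, labels

Complete proofs in the docstrings.  Text: notes 2773, 2790 on MP_6a3f1a_al.  Library: squad AT3
(`Pool/Agent/AT3/Asm.lean`: all statements of AT3 are proved, `T3.Asm.xxx_`), K9, KF.  `V = i(V₀)`.
-/

open scoped BigOperators

noncomputable section

namespace Pool.Agent.PP.SO

open Pool.Agent.Helper51_AWC Pool.Agent.Helper79_WRA Pool.Agent.PP Pool.Agent.PP.KF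
open Pool.Agent.PP.K9 Pool.Agent.PP.K9.H97 Pool.Agent.PP.H75 Pool.Agent.PP.T3

attribute [local instance] Ideal.Quotient.field

/-! ## 1. Local blocks -/

/-- LBU: existence and uniqueness of the block of `C(i W)` under `e` and over `g`.

Proof.  As `LocStmt` (`Helper88_AT3`), with the subgroup `i(W) ≤ V` instead of `u`: `C(V) ≤ C(i W)`;
`1 = ∑ b_j`, the blocks of `C(i W)`; `br_V` is multiplicative on the `V`-invariant elements (`V ≤ C(i W)`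
as `V` is abelian), so exactly one `j` has `br_V(b_j) g = g`; `e|C(i W) b_j` is `b_j` or `0`, in the last
case `g = br_V(e) br_V(b_j) g = 0`.  For `W = ⊤` the block is `g` (`br_V g = g`), for `W = ⊥` it is `e`
(`C(1) = G`). -/
def LbuStmt : Prop := ∀ (ℓ : ℕ) [Fact ℓ.Prime] (F : Type) [Field F], GoodF ℓ F → ∀ (V₀ G : Type)
  [CommGroup V₀] [Finite V₀] [Group G] [Finite G] (e g : G → F) (i : V₀ →* G),
  Function.Injective i → Ld ℓ e i.range g → (∀ W : Subgroup V₀, ∃ b, Lb e g i W b) ∧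
  (∀ (W : Subgroup V₀) (b b' : G → F), Lb e g i W b → Lb e g i W b' → b = b') ∧
  Lb e g i ⊤ g ∧ Lb e g i ⊥ e ∧
  ∀ (v : V₀) (b : G → F), Lb e g i (Subgroup.zpowers v) b ↔ Lc e i.range g (i v) b

/-- LBG: the local block of `W ≠ ⊥` has the defect group `V` and inertial index one.

Proof.  As `LsbStmt` (`Helper85_AT3`): `V` is good for `b W`; a good `ℓ`-subgroup of `b W` (in `C(i W)`) is
good for `e`; centraliser and normaliser of `V` in `C(i W)` are `C(V)` and `N(V) ∩ C(i W)`.  The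
inertial group is `T ∩ C(i W)`; an element acts on `V` by some `σ ∈ E₀` which fixes `W ≠ ⊥`, so `σ = 1`
(`Fr`), so it is in `C(V)`.  (`W` is `⊤` or generated by one element `v`, `|V₀| = ℓ ^ 2`; LSB for
`u = i v` may be used, `C(i W) = Cu (i v)`.) -/
def LbgStmt : Prop := ∀ (ℓ : ℕ) [Fact ℓ.Prime] (M : Ideal (integralClosure ℤ ℂ)) [M.IsMaximal],
  (ℓ : integralClosure ℤ ℂ) ∈ M → ∀ (V₀ G : Type) [CommGroup V₀] [Finite V₀] [Group G] [Finite G]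
  (E₀ : Subgroup (MulAut V₀)), Fr ℓ V₀ E₀ → ∀ B : Bk (FF M) V₀ G, Sb ℓ M E₀ B →
  ∀ W : Subgroup V₀, W ≠ ⊥ →
  Ld ℓ (fun t : B.C W => B.b W t) (B.i.range.subgroupOf (B.C W)) (fun t : B.C W => B.g t) ∧
  ix (B.i.range.subgroupOf (B.C W)) (fun t : B.C W => B.g t) = 1

/-- SYE: existence of the local data.

Proof.  `b W` from LBU.  `W ≠ ⊥`: LBG and `NilStmt` for the group `C(i W)`: all characters of `b W` have
the same degree `D W`.  `NitStmt` (for the group `C(i W)`; the block `g` of the centraliser of `V` in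
`C(i W)` is the transport of `g`, as in LSB): `r = |C W| D ⊤ / (|C ⊤| D W)` is in `RM M` with residue
`ε = ± 1`; `S W = ε`.  Then `U W = ε r` is a rational number in `RM M` with residue `1`, so
`U W - 1 = ℓ q` with `q ∈ Rl ℓ` (a rational number in `RM M` is in `Rl ℓ`: compare `KF.dvd_of_rr`). -/
def SyeStmt : Prop := ∀ (ℓ : ℕ) [Fact ℓ.Prime] (M : Ideal (integralClosure ℤ ℂ)) [M.IsMaximal],
  (ℓ : integralClosure ℤ ℂ) ∈ M → ∀ (V₀ G : Type) [CommGroup V₀] [Finite V₀] [Group G] [Finite G]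
  (E₀ : Subgroup (MulAut V₀)), Fr ℓ V₀ E₀ → ∀ (e g : G → FF M) (i : V₀ →* G),
  Function.Injective i → Ld ℓ e i.range g →
  (∀ t ∈ Tg i.range g, ∃ σ ∈ E₀, ∀ v, t * i v * t⁻¹ = i (σ v)) →
  (∀ σ ∈ E₀, ∃ t ∈ Tg i.range g, ∀ v, t * i v * t⁻¹ = i (σ v)) →
  ∃ B : Bk (FF M) V₀ G, B.e = e ∧ B.g = g ∧ B.i = i ∧ Sy ℓ M E₀ B

/-- DGV: the `ℓ`-parts of the degrees.

Proof.  `W = ⊤`: in the proof of CEN (`Helper86_AT3/CEN.lean`) `D ⊤ = κ₀(1)` for the only character `κ₀` of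
the block `push p g` of `C(V)/V`, which vanishes at the singular elements, so
`|C(V)/V| / κ₀(1)` is prime to `ℓ`: the lift `eh` of this block is in the local ring and its value at `1`
is `κ₀(1)² / |C(V)/V|`, so `κ₀(1)²/|C(V)/V| ∈ RM M`; and `|C(V)/V|/κ₀(1)` is an integer (degree divides
order); so both have the `ℓ`-part `1`: `ν(κ₀(1)) ≤ ν(|C/V|) ≤ 2 ν(κ₀(1))`... use the standard fact
(`DzoStmt`, `dz`): a character vanishing at the singular elements has degree divisible by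
`|H|_ℓ` (`κ₀` restricted to a Sylow subgroup `P` is a multiple of the regular character:
`κ₀(1)/|P|` is an integer).  `W ≠ ⊥` arbitrary: `U W = ± |C W| D ⊤/(|C ⊤| D W)` is a unit of `Rl ℓ`. -/
def DgvStmt : Prop := ∀ (ℓ : ℕ) [Fact ℓ.Prime] (M : Ideal (integralClosure ℤ ℂ)) [M.IsMaximal],
  (ℓ : integralClosure ℤ ℂ) ∈ M → ∀ (V₀ G : Type) [CommGroup V₀] [Finite V₀] [Group G] [Finite G]
  (E₀ : Subgroup (MulAut V₀)), Fr ℓ V₀ E₀ → ∀ B : Bk (FF M) V₀ G, Sy ℓ M E₀ B →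
  ∀ W : Subgroup V₀, W ≠ ⊥ → ((ℓ ^ 2 * B.D W / Nat.card (B.C W) : ℂ)) ∈ RM M ∧
    ((Nat.card (B.C W) / (ℓ ^ 2 * B.D W) : ℂ)) ∈ RM M

/-- CJT: conjugation with the inertial group.

Proof.  `t ∈ T` normalises `V`, `t g t⁻¹ = g` (`stabF`), `e` is a class function, `t i(W) t⁻¹ = i(σ W)`; so
`cj t (b W)` is a block of `C(i(σ W))` under `e` and over `g`, it is `b (σ W)` (LBU).  The characters of the
two blocks correspond, so `D (σ W) = D W` (`W ≠ ⊥`), `|C(σ W)| = |C W|`, `U (σ W) = ± U W`, and both are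
`≡ 1` modulo `ℓ`, `ℓ ≠ 2`, so `S (σ W) = S W`.  `bh` and `fc` are transported. -/
def CjtStmt : Prop := ∀ (ℓ : ℕ) [Fact ℓ.Prime] (M : Ideal (integralClosure ℤ ℂ)) [M.IsMaximal],
  (ℓ : integralClosure ℤ ℂ) ∈ M → ℓ ≠ 2 → ∀ (V₀ G : Type) [CommGroup V₀] [Finite V₀] [Group G]
  [Finite G] (E₀ : Subgroup (MulAut V₀)), Fr ℓ V₀ E₀ → ∀ B : Bk (FF M) V₀ G, Sy ℓ M E₀ B →
  ∀ σ ∈ E₀, ∀ t ∈ Tg B.i.range B.g, (∀ v, t * B.i v * t⁻¹ = B.i (σ v)) → ∀ W : Subgroup V₀,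
  cj t (B.b W) = B.b (W.map σ.toMonoidHom) ∧
  (∀ x, t * x * t⁻¹ ∈ B.C (W.map σ.toMonoidHom) ↔ x ∈ B.C W) ∧
  Nat.card (B.C (W.map σ.toMonoidHom)) = Nat.card (B.C W) ∧
  (∀ x, bh B (W.map σ.toMonoidHom) (t * x * t⁻¹) = bh B W x) ∧
  (∀ c x, fc B (W.map σ.toMonoidHom) (σ c) (t * x * t⁻¹) = fc B W c x) ∧
  (W ≠ ⊥ → B.D (W.map σ.toMonoidHom) = B.D W ∧ B.S (W.map σ.toMonoidHom) = B.S W ∧
    B.U (W.map σ.toMonoidHom) = B.U W)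

/-- FUW: fusion of the subpairs `(W', b W')`.

Proof.  As `FusStmt` (`Helper79_AT3`), for subgroups: `w V w⁻¹` is good for `cj w (b W') = b W`, in the group
`C(i W)`, of the order of `V`, so by `FmgStmt` for `C(i W)`, `b W` (LBG; for `W = ⊥` use `e`) there is
`c ∈ C(i W)` with `c w V w⁻¹ c⁻¹ = V`.  `n = c w ∈ N(V)`, `n i(v) n⁻¹ = i(f v)` for `v ∈ W'`, and `cj n g` is a
block of `C(V)` under `b W`; by `OrbStmt` there is `m ∈ N(V) ∩ C(i W)` with `cj n g = cj m g`.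
`t = m⁻¹ n ∈ T`, `t i(v) t⁻¹ = i(f v)` for `v ∈ W'`.  `t` acts on `V` by `σ ∈ E₀`, `f v = σ v` on `W'`, and
`t⁻¹ w` centralises `i(W')`. -/
def FuwStmt : Prop := ∀ (ℓ : ℕ) [Fact ℓ.Prime] (M : Ideal (integralClosure ℤ ℂ)) [M.IsMaximal],
  (ℓ : integralClosure ℤ ℂ) ∈ M → ∀ (V₀ G : Type) [CommGroup V₀] [Finite V₀] [Group G] [Finite G]
  (E₀ : Subgroup (MulAut V₀)), Fr ℓ V₀ E₀ → ∀ B : Bk (FF M) V₀ G, Sb ℓ M E₀ B →
  ∀ (W W' : Subgroup V₀) (w : G) (f : V₀ → V₀), (∀ v ∈ W', w * B.i v * w⁻¹ = B.i (f v)) →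
  (∀ v ∈ W', f v ∈ W) → (∀ v ∈ W, ∃ v' ∈ W', f v' = v) → cj w (B.b W') = B.b W →
  ∃ σ ∈ E₀, (∀ v ∈ W', f v = σ v) ∧ ∃ t ∈ Tg B.i.range B.g,
    (∀ v, t * B.i v * t⁻¹ = B.i (σ v)) ∧ t⁻¹ * w ∈ B.C W'

/-! ## 2. Character values in the local blocks -/

/-- ISO: an integral function on a cyclic group of order `ℓ` with `|m^(j)| = 1` for `j ≠ 0`.

Proof.  Parseval: `ℓ ∑ m_j² - (∑ m_j)² = ℓ - 1`, the left side is the sum of `(m_i - m_j)²` over the pairs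
`i < j`.  `m` is not constant; if some value is taken `k` times, `0 < k < ℓ`, there are at least
`k (ℓ - k) ≥ ℓ - 1` unequal pairs, so exactly `ℓ - 1`, all differences are `± 1` and `k = 1` or `ℓ - 1`:
all values but one are equal (for `ℓ = 2` also clear).  Then `m^(j) = ε ζ^(j₀ j)` for `ℓ ∤ j`. -/
def IsoStmt : Prop := ∀ (ℓ : ℕ) [Fact ℓ.Prime] (ζ : ℂ), IsPrimitiveRoot ζ ℓ → ∀ m : Fin ℓ → ℤ,
  (∀ j : ℕ, ¬ ℓ ∣ j → Complex.normSq (∑ k : Fin ℓ, (m k : ℂ) * ζ ^ ((k : ℕ) * j)) = 1) →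
  ∃ (j₀ : Fin ℓ) (ε m₀ : ℤ), (ε = 1 ∨ ε = -1) ∧ ∀ k, m k = m₀ + if k = j₀ then ε else 0

/-- NSV: the values of the central characters in the local blocks; bijection with the linear
characters of `V₀`; inversion; the multiplicities of the characters of `g`.

Proof.  `H = C(i W)`, `ψ ∈ Irr H`, `C = C(V) ≤ H`.  The restriction of `ψ` to `C` is `∑ m_κ κ`, `κ ∈ Irr C`,
`m_κ ≥ 0` integers.  The characters of `g` are `κ_μ`, `μ ∈ lin V₀` (`|V|` of them, CEN; `κ_μ(i(x) s) =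
μ(x) κ_μ(s)`, different `μ` by orthogonality `∑_κ κ(x) conj κ(y) = 0` for `x ≠ y ∈ V`, `PrgStmt`), of degree
`D ⊤`; let `m_μ` be the multiplicities.  For `x ∉ W`: `C_H(i x) = C` (`W ⊔ ⟨x⟩ = ⊤`), and
`cv (fc B W x) ψ = (|H|/|C|) ψ(i(x) g^)/ψ(1) = (|H| D ⊤/(|C| ψ(1))) V_x(ψ)`, `V_x(ψ) = ∑_μ m_μ μ(x)`; for
`x ∈ W`: `fc B W x = i(x) b^` and `cv = ψ(i x)/ψ(1)` for `ψ` in `b W`, `0` otherwise.
(5) If `m_μ ≠ 0` then `μ = ν` on `W`, `ν` the central character of `ψ` on `i(W)`.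
(1) `ψ` in `b W`.  If `V ≤ Z(H)` then `H = C`, `b W = g` and everything is clear (`S W = 1` by `un`).
Otherwise `x ∉ Z(H)` for `x ∉ W` and `|V_x(ψ)| = 1` (`NilStmt` for `H`, `b W`; `Lc` for `x` is `g`).
`W` has order `ℓ` (or `W = ⊤`, clear).  Let `τ` be a linear character `≠ 1` of `V₀` trivial on `W`,
`μ₀ = ν` on `W`; `m_(μ₀ τ^j) = m_j`; ISO gives `m_j = m₀ + ε δ_(j j₀)`, so with `μ_ψ = μ₀ τ^(j₀)`:
`V_x(ψ) = ε μ_ψ(x)` for `x ∉ W`, and `∑_μ m_μ = ℓ m₀ + ε`.  Sign: `(|H| D ⊤/(|C| D W)) V_x(ψ)` has residue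
`1` (`RsvStmt` in `H`, index one, `OmgStmt`), `μ_ψ(x)` has residue `1`, and `S W |H| D ⊤/(|C| D W)` has
residue `1`, so `ε = S W` (`ℓ ≠ 2`).  So `cv (fc B W x) ψ = U W μ_ψ(x)` (`x ∉ W`), `μ_ψ(x)` (`x ∈ W`), that
is `lam B W ψ = μ_ψ`.
(2) For `x, y ∈ V₀`: `∑_ψ V_x(ψ) conj V_y(ψ) = 0` for `x ≠ y`, `|V|` for `x = y` (`V_x(ψ) = ψ(i x)/D W` for
`x ∈ W`; `Co1Stmt`, `Co2Stmt`, `PrgStmt`, as in `NibStmt`; CO2 applies: `i x`, `i y` are not conjugate with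
their blocks in `H`, by `FusStmt` and index one); `|V|` characters.  So `ψ ↦ μ_ψ` is injective, and both
sets have `|V|` elements.
(3) `ψ ∉ b W`: `V_x(ψ) = 0` for `x ∉ W` (`SmgStmt` in `H`), so `m_μ` is constant on the coset
`{μ = ν on W}` (a function on a cyclic group of order `ℓ` whose transform vanishes outside of `0`),
`∑ m_μ = ℓ m₀`; if `W = ⊤` then `ψ(g^) = 0`.  So `cv (fc B W x) ψ = 0` for all `x`, i.e.
`fc B W x = fc B W x · bh B W`.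
(4) Inversion: the central idempotent of `ψ` (in `b W`), `(D W/|H|) ψ(h⁻¹)`, is `∑_x a_x fc B W x (h)` with
`a_x = conj μ_ψ(x)/(ℓ² ux(x))`: compare all central characters (orthogonality of the linear
characters). -/
def NsvStmt : Prop := ∀ (ℓ : ℕ) [Fact ℓ.Prime] (M : Ideal (integralClosure ℤ ℂ)) [M.IsMaximal],
  (ℓ : integralClosure ℤ ℂ) ∈ M → ℓ ≠ 2 → ∀ (V₀ G : Type) [CommGroup V₀] [Finite V₀] [Group G]
  [Finite G] (E₀ : Subgroup (MulAut V₀)), Fr ℓ V₀ E₀ → ∀ B : Bk (FF M) V₀ G, Sy ℓ M E₀ B →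
  ∀ W : Subgroup V₀, W ≠ ⊥ →
  Set.BijOn (lam B W) (Ch B W) (lin V₀) ∧
  (∀ χ ∈ Ch B W, ∀ x, cv (fc B W x) χ = (ux B.U W x : ℚ) * lam B W χ x) ∧
  (∀ χ : G → ℂ, (∀ x, x ∉ B.C W → χ x = 0) → (fun t : B.C W => χ t) ∈ Irr (B.C W) →
    χ ∉ Ch B W → ∀ x, cv (fc B W x) χ = 0) ∧
  (∀ χ ∈ Ch B W, ∀ h ∈ B.C W, χ h = (Nat.card (B.C W) : ℂ) / (ℓ ^ 2 * B.D W) *
    ∑ᶠ x : V₀, starRingEnd ℂ (lam B W χ x) / (ux B.U W x : ℚ) * fc B W x h⁻¹) ∧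
  (∀ χ ∈ Ch B W, ∃ m₀ : ℤ, ∑ᶠ s, bh B ⊤ s * χ s = B.D ⊤ * (ℓ * m₀ + B.S W) ∨
    (B.C W = B.C ⊤ ∧ ∑ᶠ s, bh B ⊤ s * χ s = B.D ⊤)) ∧
  (∀ χ : G → ℂ, (∀ x, x ∉ B.C W → χ x = 0) → (fun t : B.C W => χ t) ∈ Irr (B.C W) →
    χ ∉ Ch B W → ∃ m₀ : ℤ, ∑ᶠ s, bh B ⊤ s * χ s = B.D ⊤ * (ℓ * m₀)) ∧
  bh B W 1 = ℓ ^ 2 * B.D W ^ 2 / Nat.card (B.C W)

/-- MUL: products of the elements `f_c`.

Proof.  Both sides are in the centre of the group ring of `C W` times `b^` (NSV (3)); at the characters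
of `b W` both have the central character `ux(c) ux(d) lam(c d)` (NSV (1), (2): `lam` is
multiplicative). -/
def MulStmt : Prop := ∀ (ℓ : ℕ) [Fact ℓ.Prime] (M : Ideal (integralClosure ℤ ℂ)) [M.IsMaximal],
  (ℓ : integralClosure ℤ ℂ) ∈ M → ℓ ≠ 2 → ∀ (V₀ G : Type) [CommGroup V₀] [Finite V₀] [Group G]
  [Finite G] (E₀ : Subgroup (MulAut V₀)), Fr ℓ V₀ E₀ → ∀ B : Bk (FF M) V₀ G, Sy ℓ M E₀ B →
  ∀ W : Subgroup V₀, W ≠ ⊥ → ∀ (c d : V₀) (x : G), mulF (fc B W c) (fc B W d) x =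
    ((ux B.U W c * ux B.U W d / ux B.U W (c * d) : ℚ) : ℂ) * fc B W (c * d) x

/-! ## 3. Labels -/

/-- PRJ: functions in the span of the projective characters.

Proof.  `f = ∑_χ (f, χ) χ`, `(f, χ) = |H|⁻¹ ∑ f(h) χ(h⁻¹) ∈ RM M`.  If `s` is not regular the claim is
`0 ∈ RM M`.  Let `s` be regular, `P` a Sylow `ℓ`-subgroup of `C(s)`.  `∑_(x ∈ P) f(s x) = f(s)` (`s x` is
singular for `x ≠ 1`), and `|P|⁻¹ ∑_(x ∈ P) χ(s x)` is the trace of `s` on the fixed points of `P` in a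
representation with character `χ`, an algebraic integer.  So `f(s)/|P| ∈ RM M`, and `|C(s)|/|P|` is prime
to `ℓ`. -/
def PrjStmt : Prop := ∀ (ℓ : ℕ) [Fact ℓ.Prime] (M : Ideal (integralClosure ℤ ℂ)) [M.IsMaximal],
  (ℓ : integralClosure ℤ ℂ) ∈ M → ∀ (H : Type) [Group H] [Finite H] (f : H → ℂ),
  (∀ x y, f (y * x * y⁻¹) = f x) → (∀ x, ¬ Reg ℓ x → f x = 0) →
  (∀ χ ∈ Irr H, (Nat.card H : ℂ)⁻¹ * ∑ᶠ h, f h * χ h⁻¹ ∈ RM M) →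
  ∀ s, f s / Nat.card (Cu s) ∈ RM M

/-- CNG: integrality of the weights of the frames.

Proof.  (a) `full = true`: PRJ for `H = C ⊤`, `f = ℓ² bh B ⊤` (zero at the singular elements, `eh_sing`;
`(f, χ) = ℓ² D ⊤/|C ⊤|` for `conj χ` in `g`, `0` otherwise; DGV).
(b) `full = false`: `H = C ⟨c⟩`, `f = ℓ h`, `h(s) = bh ⟨c⟩ s - |C ⊤|⁻¹ ∑_(z ∈ H) bh ⊤ (z⁻¹ s z)`, a class
function of `H` which vanishes at the singular elements.  For `ψ ∈ Irr H` (`ψ` the conjugate of `χ`):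
`|H|⁻¹ ∑ f(s) ψ(s) = (ℓ/|H|) (∑ bh ⟨c⟩ s ψ(s) - (|H|/|C ⊤|) ∑ bh ⊤ s ψ(s))`.  If `ψ ∈ b ⟨c⟩` the first
sum is `D W` and the second `D ⊤ (ℓ m₀ + S W)` (NSV; `W = ⟨c⟩`), so the value is
`(ℓ D W/|H|) (1 - U W (1 + ℓ S W m₀))`, and `U W ≡ 1` modulo `ℓ`, `ℓ² D W/|H| ∈ RM M` (DGV).  (If
`C W = C ⊤` and the second sum is `D ⊤`, then `b W = g`, the value is `0`.)  If `ψ ∉ b ⟨c⟩` the
first sum is `0`, the second `D ⊤ ℓ m₀`, the value is `- m₀ ℓ² D ⊤/|C ⊤| ∈ RM M`. -/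
def CngStmt : Prop := ∀ (ℓ : ℕ) [Fact ℓ.Prime] (M : Ideal (integralClosure ℤ ℂ)) [M.IsMaximal],
  (ℓ : integralClosure ℤ ℂ) ∈ M → ℓ ≠ 2 → ∀ (V₀ G : Type) [CommGroup V₀] [Finite V₀] [Group G]
  [Finite G] (E₀ : Subgroup (MulAut V₀)), Fr ℓ V₀ E₀ → ∀ B : Bk (FF M) V₀ G, Sy ℓ M E₀ B →
  ∀ c : V₀, c ≠ 1 → ∀ (f : Bool) (s : G), s ∈ B.C (frm c f) →
    (Nat.card (frm c f) : ℂ) * (Nat.card (B.C (frm c f)) * wt B c f s) /
      Nat.card (B.C (frm c f) ⊓ Cu s : Subgroup G) ∈ RM M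

/-- LAC: integrality of the total sum.

Proof.  For given kinds `f`, `f'` let `P = frm c f`, `Q = frm d f'`, and `Y(s, t)` the sum of
`F₁₃ + F₁₂` over `XX (i c s) (i d t)`.  `wt B c f s = 0` unless `s ∈ C P` is regular (`ext0`, `eh_sing`).
For such `s`, `t`: `Y(s, t) ∈ |P| |Q| Rl ℓ` (`Rel`; `c ∈ P`, `d ∈ Q`).  `Y(z s z⁻¹, t) = Y(s, t)` for `z ∈ C P`
(substitute `(x, y, u) ↦ (z x z⁻¹, z y z⁻¹, z u)`; the types do not change, because `z` commutes with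
`i(P)`), and `Y(s, z t z⁻¹) = Y(s, t)` for `z ∈ C Q` (`u ↦ u z⁻¹`).  `wt` is a class function of `C P` in `s`.
So the sum over `s`, `t` is the sum over pairs of classes of `C P`, `C Q` of
`[|C P| wt s/|C P ∩ C(s)|] [|C Q| wt t/|C Q ∩ C(t)|] Y(s, t)`, in `RM M` by CNG (`|P| [..]`, `|Q| [..]` are in
`RM M`). -/
def LacStmt : Prop := ∀ (ℓ : ℕ) [Fact ℓ.Prime] (M : Ideal (integralClosure ℤ ℂ)) [M.IsMaximal],
  (ℓ : integralClosure ℤ ℂ) ∈ M → ℓ ≠ 2 → ∀ (V₀ G : Type) [CommGroup V₀] [Finite V₀] [Group G]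
  [Finite G] (E₀ : Subgroup (MulAut V₀)), Fr ℓ V₀ E₀ → ∀ B : Bk (FF M) V₀ G, Sy ℓ M E₀ B →
  ∀ (n m : ℕ) (c d : V₀), c ≠ 1 → d ≠ 1 → ∀ F₁₃ F₁₂ : Set (SS n V₀) → ℚ,
  Rel ℓ n m B.i c d F₁₃ F₁₂ → TS B m c d F₁₃ F₁₂ ∈ RM M

/-- MBI: Möbius inversion on the subsets of a finite set.

Proof.  `∑_(L ⊆ τ) mob F L = ∑_(T ⊆ τ) F(T) ∑_(T ⊆ L ⊆ τ) (-1)^|L - T| = F(τ)`.  If `F = 0` on all subsets of
`L` then `mob F L = 0`. -/
def MbiStmt : Prop := ∀ (A : Type) [Finite A] (F : Set A → ℚ),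
  (∀ τ, ∑ᶠ L ∈ {L : Set A | L ⊆ τ}, mob F L = F τ) ∧
  (∀ L, (∀ T ⊆ L, F T = 0) → mob F L = 0) ∧
  (∀ (L : Set A) (q : ℚ), L.Nonempty → mob (fun T => F T - q) L = mob F L) ∧
  mob F ∅ = F ∅

/-- LBS: the total sum in terms of the weighted numbers.

Proof.  MBI: `F₁₃(τ) = ∑_(L ⊆ τ) mob F₁₃ L`; so `TS` is the sum over `L` of `mob F₁₃ L` times
`∑_(f, f') ∑_(s, t) wt(s) wt(t) #{z : L ⊆ t13(z)}`, and in the same way for `F₁₂`.  `L ⊆ t13(z)` means: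
`pL L ≤ P`, `qL L ≤ Q` and `c13` for all elements of `L` (`P = frm c f`, `Q = frm d f'` subgroups).  For
given `L` and `t` let `Y(s)` be the number of the `z ∈ XX (i c s) (i d t)` with all `c13`.
`∑_f ∑_s wt B c f s [pL L ≤ frm c f] Y(s)` is: if `pL L ≤ ⟨c⟩`, `Y(z s z⁻¹) = Y(s)` for `z ∈ C ⟨c⟩` (see LAC), so
`∑_s |C ⟨c⟩|⁻¹ |C ⊤|⁻¹ ∑_z bh ⊤ (z⁻¹ s z) Y(s) = |C ⊤|⁻¹ ∑_s bh ⊤ s Y(s)`, which cancels with the term
`f = true`, and the total is `|C ⟨c⟩|⁻¹ ∑_s bh ⟨c⟩ s Y(s)`, `pL L ⊔ ⟨c⟩ = ⟨c⟩`.  If `pL L` is not contained in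
`⟨c⟩` only `f = true` remains, and `pL L ⊔ ⟨c⟩ = ⊤` (`|V₀| = ℓ ^ 2`, `c ≠ 1`).  The same for `t`. -/
def LbsStmt : Prop := ∀ (ℓ : ℕ) [Fact ℓ.Prime] (M : Ideal (integralClosure ℤ ℂ)) [M.IsMaximal],
  (ℓ : integralClosure ℤ ℂ) ∈ M → ∀ (V₀ G : Type) [CommGroup V₀] [Finite V₀] [Group G]
  [Finite G] (E₀ : Subgroup (MulAut V₀)), Fr ℓ V₀ E₀ → ∀ B : Bk (FF M) V₀ G, Sb ℓ M E₀ B →
  ∀ (n m : ℕ) (c d : V₀), c ≠ 1 → d ≠ 1 → ∀ F₁₃ F₁₂ : Set (SS n V₀) → ℚ,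
  TS B m c d F₁₃ F₁₂ = ∑ᶠ L : Set (SS n V₀), ((mob F₁₃ L : ℚ) * W13 B m c d L +
    (mob F₁₂ L : ℚ) * W12 B m c d L)

end Pool.Agent.PP.SO
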