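import Pool.Agent.ASO.Stmts3
import Pool.Agent.ASO.Stmts2

/-!
# Squad ASO, statements 4: the counting and the comparison of two groups

Complete proofs in the docstrings.  `V = i(V₀)`, `C₁ = C W₁`, ....  `X ^ m` is the `ℓ`-part of `X` (`PE`): if
`X = i(x) s` with `s` regular commuting with `i(x)` then `X ^ m = i(x)` (`i(x) ^ m = i(x)`, `s ^ m = 1`).
`bh B W` vanishes outside of the regular elements of `C W` (`ext0`, `eh_sing`).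
-/

open scoped BigOperators

noncomputable section

namespace Pool.Agent.PP.SO

open Pool.Agent.Helper51_AWC Pool.Agent.Helper79_WRA Pool.Agent.PP Pool.Agent.PP.KF
open Pool.Agent.PP.K9 Pool.Agent.PP.K9.H97 Pool.Agent.PP.H75 Pool.Agent.PP.T3

attribute [local instance] Ideal.Quotient.field

/-- the subgroup generated by the first components -/
def p1 {V₀ : Type} [CommGroup V₀] (L : Set (V₀ × V₀ × ℤ)) : Subgroup V₀ :=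
  Subgroup.closure {p | ∃ s ∈ L, s.1 = p}

/-- the subgroup generated by the second components -/
def p2 {V₀ : Type} [CommGroup V₀] (L : Set (V₀ × V₀ × ℤ)) : Subgroup V₀ :=
  Subgroup.closure {q | ∃ s ∈ L, s.2.1 = q}

/-- GPR: the product of the elements `f_x`, `f_(x'⁻¹)` under the conditions of `L`.

Proof.  `W₁ = p1 L`, `W₂ = p2 L`, `W = W₁ ⊔ ⟨x⟩`, `W' = W₂ ⊔ ⟨x'⟩`.  Insert the definition of `fc`: the left side is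
`(|C W| |C W'|)⁻¹` times the sum over `(X, u)` and `z ∈ C₁`, `z' ∈ C₂` of `bh W (s) bh W' (s')`,
`s = i(x)⁻¹ z⁻¹ X z`, `s' = i(x') z'⁻¹ u⁻¹ X⁻¹ u z'`.  Substitute `X = z i(x) s z⁻¹`, `u = z w z'⁻¹` (for fixed
`z`, `z'`: `(X, u) ↔ (s, w)`).  If the term is not `0`: `s ∈ C W` regular, so `X ^ m = z i(x) z⁻¹`; the condition
`u i(q) u⁻¹ = i(p) (X^m)^k` becomes `w i(q) w⁻¹ = i(p x^k)` (`z` commutes with `i(p)`, `z'` with `i(q)`).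
`i(x')⁻¹ s' = w⁻¹ s⁻¹ i(x)⁻¹ w`; the `m`-th powers are `i(x')⁻¹` and `w⁻¹ i(x)⁻¹ w`, so `w i(x') w⁻¹ = i(x)` and
`s' = w⁻¹ s⁻¹ w`.  So the sum is `|C₁| |C₂|/(|C W| |C W'|)` times the sum over the `w` with
`w i(x') w⁻¹ = i(x)`, `w i(q) w⁻¹ = i(p x^k)` (all of `L`) of `∑_s bh W s bh W' (w⁻¹ s⁻¹ w)`.  Such a `w` maps
`i(W')` onto `i(W)`, `W = ⟨x, p x^k⟩`, so `C W = w C W' w⁻¹`, the function `s ↦ bh W' (w⁻¹ s w)` is the lift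
of the block `cj w (b W')` of `C W`, and the sum is the value at `1` of a product of two block
idempotents: `0`, or, if `cj w (b W') = b W`, `bh W 1 = ℓ² (D W)²/|C W|` (NSV (7)).  By FUW for such `w` there
is `σ ∈ E₀` with `σ x' = x`, `σ q = p x^k`, and `w ∈ t C W'`, `t ∈ T` acting by `σ`; conversely for
such `σ` the elements of `t C W'` satisfy everything (`cj t (b W') = b (σ W') = b W`: CJT).  `σ` is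
determined by `w` (`W' ≠ ⊥`, free action).  So the number of the `w` is `|C W'|` times the number of the
`σ`; `τ = σ⁻¹`; `|C W'| = |C W|`. -/
def GprStmt : Prop := ∀ (ℓ : ℕ) [Fact ℓ.Prime] (M : Ideal (integralClosure ℤ ℂ)) [M.IsMaximal],
  (ℓ : integralClosure ℤ ℂ) ∈ M → ℓ ≠ 2 → ∀ (V₀ G : Type) [CommGroup V₀] [Finite V₀] [Group G]
  [Finite G] (E₀ : Subgroup (MulAut V₀)), Fr ℓ V₀ E₀ → ∀ B : Bk (FF M) V₀ G, Sy ℓ M E₀ B →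
  ∀ n m : ℕ, PE ℓ n m G → ∀ L : Set (V₀ × V₀ × ℤ), p1 L ≠ ⊥ → p2 L ≠ ⊥ → ∀ x x' : V₀,
  ∑ᶠ w ∈ {w : G × G | ∀ s ∈ L, w.2 * B.i s.2.1 * w.2⁻¹ = B.i s.1 * (w.1 ^ m) ^ s.2.2},
    fc B (p1 L) x w.1 * fc B (p2 L) x'⁻¹ (w.2⁻¹ * w.1⁻¹ * w.2) =
  (Nat.card (B.C (p1 L)) : ℂ) * Nat.card (B.C (p2 L)) *
    (ℓ ^ 2 * B.D (p1 L ⊔ Subgroup.zpowers x) ^ 2 /
      (Nat.card (B.C (p1 L ⊔ Subgroup.zpowers x)) : ℂ) ^ 2) *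
    {τ : MulAut V₀ | τ ∈ E₀ ∧ τ x = x' ∧ ∀ s ∈ L, τ (s.1 * x ^ s.2.2) = s.2.1}.ncard

/-- SSL: the sums `SL`.

Proof.  `W₁ = p1 L`, `W₂ = p2 L`.  NSV (4): `χ(X) = (|C₁|/(ℓ² D₁)) ∑_x conj λ(x)/ux₁(x) · fc W₁ x X⁻¹`,
`χ'(u⁻¹ X⁻¹ u) = (|C₂|/(ℓ² D₂)) ∑_x' conj λ'(x')/ux₂(x') · fc W₂ x' (u⁻¹ X u)`, `λ = lam χ`, `λ' = lam χ'`.
Replace `X` by `X⁻¹` (this changes `L` to `L⁻ = {(p, q, -k)}`, `p1`, `p2` are the same) and use GPR for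
`L⁻` with `x'⁻¹` for `x'`: only `x' = τ(x)⁻¹` counts, `τ (p x^(-k)) = q`; put `y = x⁻¹`: `x' = τ y`,
`conj λ(x) = λ(y)` (values are roots of unity), `ux₁(x) = ux₁(y)`.  So
`SL = (|C₁| |C₂|/(ℓ⁴ D₁ D₂)) |C₁| |C₂| ∑_(τ, y) λ(y) conj λ'(τ y) ℓ² (D_W/|C W|)²/(ux₁(y) ux₂(τ y))`, `W = W₁ ⊔ ⟨y⟩`,
`τ (p y^k) = q`.  By the definition of `U`: `D_W/|C W| = ux₁(y) ε₁ D₁/|C₁|`, `ε₁ = 1` if `y ∈ W₁`, `S W₁`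
otherwise (then `W = ⊤`, `S W₁ ^ 2 = 1`), and in the same way for `W' = W₂ ⊔ ⟨τ y⟩ = τ W` (`D_W' = D_W`,
`|C W'| = |C W|`: CJT) `= ux₂(τ y) ε₂ D₂/|C₂|`.  So the term is `λ(y) conj λ'(τ y) ε₁ ε₂ ℓ² D₁ D₂/(|C₁| |C₂|)`.
Signs: `ε₁ ε₂ = S W₁ S W₂` (`S ⊤ = 1`: `U ⊤ = S ⊤ ≡ 1`, `ℓ ≠ 2`): `τ⁻¹ W₂` is generated by the `p y^k`.  If `W₁`,
`W₂` are `⊤` clear.  If `W₁` is a line and `W₂ = ⊤` then `y ∉ W₁`.  If `W₁ = ⊤`, `W₂` a line: `τ y ∉ W₂`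
(otherwise `y, p ∈ τ⁻¹ W₂` for all `p`).  Both lines: if `y ∈ W₁` then `τ⁻¹ W₂ ≤ W₁`, `τ W₁ = W₂ ∋ τ y`,
`ε₁ ε₂ = 1` and `S W₂ = S W₁` (CJT); if `y ∉ W₁` then `τ y ∉ W₂` (otherwise `y, p ∈ τ⁻¹ W₂`, all `p`,
`W₁ = τ⁻¹ W₂ ∋ y`). -/
def SslStmt : Prop := ∀ (ℓ : ℕ) [Fact ℓ.Prime] (M : Ideal (integralClosure ℤ ℂ)) [M.IsMaximal],
  (ℓ : integralClosure ℤ ℂ) ∈ M → ℓ ≠ 2 → ∀ (V₀ G : Type) [CommGroup V₀] [Finite V₀] [Group G]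
  [Finite G] (E₀ : Subgroup (MulAut V₀)), Fr ℓ V₀ E₀ → ∀ B : Bk (FF M) V₀ G, Sy ℓ M E₀ B →
  ∀ n m : ℕ, PE ℓ n m G → ∀ L : Set (V₀ × V₀ × ℤ), p1 L ≠ ⊥ → p2 L ≠ ⊥ →
  ∀ χ ∈ Ch B (p1 L), ∀ χ' ∈ Ch B (p2 L), SL B m L χ χ' =
    (Nat.card (B.C (p1 L)) : ℂ) * Nat.card (B.C (p2 L)) / ℓ ^ 2 * (B.S (p1 L) * B.S (p2 L)) *
    ∑ᶠ w ∈ {w : MulAut V₀ × V₀ | w.1 ∈ E₀ ∧ ∀ s ∈ L, w.1 (s.1 * w.2 ^ s.2.2) = s.2.1},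
      lam B (p1 L) χ w.2 * starRingEnd ℂ (lam B (p2 L) χ' (w.1 w.2))

/-- WTH: the value of `W13`.

Proof.  `W₁ = pL L`, `W₂ = qL L`, `C₁`, `C₂`.  For `g = i(c) s`, `h = i(d) t` and `(x, y, u)` with
`[x, y] = g (u h u⁻¹)` let `X = g⁻¹ x`, `w = y⁻¹ u`: `g = x X⁻¹`, `h = (u⁻¹ X u)(w⁻¹ x⁻¹ w)`.  The condition `c13`
for `(i, j, p, q)` is: `p` commutes with `x`; `u q u⁻¹ = (X^m)^(-j) p`; `w q w⁻¹ = (x^m)^i p`.  Terms are `0`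
unless `s ∈ C(W₁ ⊔ ⟨c⟩)`; then `g ∈ C₁`, `X ∈ C₁`, and the conditions are: `x, X ∈ C₁`,
`u q u⁻¹ = p (X^m)^(-j)`, `w q w⁻¹ = p (x^m)^i` (`L₋ = {(p, q, -j)}`, `L₊ = {(p, q, i)}`).  So `W13` is a sum over
independent pairs `(X, u)` and `(x, w)`.  Conjugate everything with `z ∈ C₁` and `z' ∈ C₂`
(`(x, X, u, w) ↦ (z x z⁻¹, z X z⁻¹, z u z'⁻¹, z w z'⁻¹)`) and take the mean:
`W13 = (|C₁| |C₂|)⁻¹ ∑ fc W₁ c (x X⁻¹) fc W₂ d ((u⁻¹ X u)(w⁻¹ x⁻¹ w))`.  By NSV (3), (6):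
`fc W₁ c (g) = ∑_(χ ∈ Ch W₁) cv(fc W₁ c) χ (D₁/|C₁|) χ(g⁻¹)`.  Now conjugate `(X, u)` alone,
`(z X z⁻¹, z u z'⁻¹)`: `|C₁|⁻¹ ∑_z χ(z X z⁻¹ x⁻¹) = χ(X) χ(x⁻¹)/D₁`, and the same for `z'`.  So
`W13 = (|C₁| |C₂|)⁻² ∑_(χ, χ') cv(fc c) χ cv(fc d) χ' SL(L₋; χ, χ') conj SL(L₊; χ, χ')`.  SSL, and
`cv(fc c) χ = ux₁(c) λ(c)` (NSV): the sum over `χ` (`λ` runs over all linear characters, NSV (1))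
gives `ℓ²` if `c X = x` and `0` otherwise, the sum over `χ'` gives `ℓ²` if `d σ'(x) = σ(X)`.  Signs
`(S W₁ S W₂)² = 1`. -/
def WthStmt : Prop := ∀ (ℓ : ℕ) [Fact ℓ.Prime] (M : Ideal (integralClosure ℤ ℂ)) [M.IsMaximal],
  (ℓ : integralClosure ℤ ℂ) ∈ M → ℓ ≠ 2 → ∀ (V₀ G : Type) [CommGroup V₀] [Finite V₀] [Group G]
  [Finite G] (E₀ : Subgroup (MulAut V₀)), Fr ℓ V₀ E₀ → ∀ B : Bk (FF M) V₀ G, Sy ℓ M E₀ B →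
  ∀ n m : ℕ, PE ℓ n m G → ∀ (c d : V₀) (L : Set (SS n V₀)), pL L ≠ ⊥ → qL L ≠ ⊥ →
  W13 B m c d L = ((P13 E₀ B.U c d L : ℚ) : ℂ)

/-- W12A: `W12` in terms of the numbers `HK`.

Proof.  `W₁ = pL L`, `W₂ = qL L`.  With `κ = [x, y]` and `a = (κ^m)^k p` the condition `c12` for `(i, k, p, q)` is:
`u q u⁻¹ = p`, `a x = x a`, `y⁻¹ a y = a (x^m)^i`.  If `W₁ = ⊥` and `W₂ ≠ ⊥` there is no `u`: `W12 = 0`.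
Let `W₁ ≠ ⊥`, `R(κ)` the number of the `(x, y)` with `[x, y] = κ` and the conditions for the
`a = (κ^m)^k p`: a class function on `C₁`.  `W12 = (|C(W₁ ⊔ ⟨c⟩)| |C(W₂ ⊔ ⟨d⟩)|)⁻¹ ∑_(s, t) bh s bh t
∑_u R(i(c) s · u i(d) t u⁻¹)` (`u q u⁻¹ = p` for all of `L`); the set of the `u` is invariant under `C₁` (left) and
`C₂` (right), so by taking means `W12 = (|C₁| |C₂|)⁻¹ ∑_u ∑_(g, h) fc W₁ c g fc W₂ d h R(g u h u⁻¹)`.  If there is no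
`u` both sides are `0` (`EL = ∅`, see below).  Let `u` be given: `u i(W₂) u⁻¹ = i(W₁)`, `W₂ ≠ ⊥`;
`h' = u h u⁻¹`: `∑_κ (fc W₁ c * (conjugate of fc W₂ d)) (κ) R(κ)`; `fc W₁ c` is a multiple of the lift of `b W₁`, the
conjugate a multiple of the lift of `cj u (b W₂)` (NSV (3)), both central in the group ring of `C₁`, so the
product is `0` unless `cj u (b W₂) = b W₁`.  In this case by FUW `p = σ q` for all of `L`, `σ ∈ E₀`,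
`u ∈ t C₂`, `t` acting by `σ`, and the conjugate of `fc W₂ d` is `fc W₁ (σ d)` (CJT).  Each `σ ∈ EL` belongs to
`|C₂|` elements `u` (and `σ` is determined by `u`, `W₂ ≠ ⊥`).  With MUL:
`W12 = |C₁|⁻¹ ∑_σ (ux c ux (σ d)/ux (c σ d)) ∑_g fc W₁ (c σ d) g R(g)`.  With `κ = c σ d` and the definition of `fc`:
`|C₁|⁻¹ ∑_g fc W₁ κ g R(g) = |C(W₁ ⊔ ⟨κ⟩)|⁻¹ ∑_s bh (W₁ ⊔ ⟨κ⟩) s R(i(κ) s)`, `(i(κ) s)^m = i(κ)`, which is `HK B m κ L`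
(`aL κ L ⊔ ⟨κ⟩ = W₁ ⊔ ⟨κ⟩`). -/
def W12AStmt : Prop := ∀ (ℓ : ℕ) [Fact ℓ.Prime] (M : Ideal (integralClosure ℤ ℂ)) [M.IsMaximal],
  (ℓ : integralClosure ℤ ℂ) ∈ M → ℓ ≠ 2 → ∀ (V₀ G : Type) [CommGroup V₀] [Finite V₀] [Group G]
  [Finite G] (E₀ : Subgroup (MulAut V₀)), Fr ℓ V₀ E₀ → ∀ B : Bk (FF M) V₀ G, Sy ℓ M E₀ B →
  ∀ n m : ℕ, PE ℓ n m G → ∀ (c d : V₀) (L : Set (SS n V₀)),
  (pL L = ⊥ → qL L ≠ ⊥ → W12 B m c d L = 0) ∧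
  (pL L ≠ ⊥ → W12 B m c d L = ∑ᶠ σ ∈ EL E₀ L,
    ((ux B.U (pL L) c * ux B.U (pL L) (σ d) / ux B.U (pL L) (c * σ d) : ℚ) : ℂ) *
      HK B m (c * σ d) L)

/-- W12B: the value of `HK` for `aL ≠ ⊥`.

Proof.  `A = aL κ L`, `a = κ^k p`; the conditions for `(x, y)` are: `x ∈ C A`, `y⁻¹ a y = a (x^m)^i`, and
`[x, y] = i(κ) t`.  They are invariant under conjugation with `C A`, so by taking the mean over `C A`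
`HK = |C A|⁻¹ ∑_(x, y) fc A κ ([x, y])`, `fc A κ (g) = ∑_(χ ∈ Ch A) cv(fc A κ) χ (D A/|C A|) χ(g⁻¹)` (NSV (3), (6)).
Replace `y` by `z y`, `z ∈ C A` (the conditions do not change), `[x, z y]⁻¹ = z (y x y⁻¹) z⁻¹ x⁻¹`, and take the mean
over `z`: `χ(y x y⁻¹) χ(x⁻¹)/D A` (`y x y⁻¹ ∈ C A`: `y⁻¹ a y` commutes with `x`).  So with `u = y⁻¹`:
`HK = |C A|⁻² ∑_χ cv(fc A κ) χ conj SL(L_A; χ, χ)`, `L_A = {(a, a, i)}`, and by SSL (the sign is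
`(S A)² = 1`) `HK = ℓ⁻² ∑_(τ, x) ∑_χ ux(κ) λ(κ) conj λ(x) λ(τ x)`, `τ (a x^i) = a`, `= ux(κ) #{(τ, x) : κ τ(x) = x,
τ (a x^i) = a}`; with `X = x⁻¹` this is `N12`. -/
def W12BStmt : Prop := ∀ (ℓ : ℕ) [Fact ℓ.Prime] (M : Ideal (integralClosure ℤ ℂ)) [M.IsMaximal],
  (ℓ : integralClosure ℤ ℂ) ∈ M → ℓ ≠ 2 → ∀ (V₀ G : Type) [CommGroup V₀] [Finite V₀] [Group G]
  [Finite G] (E₀ : Subgroup (MulAut V₀)), Fr ℓ V₀ E₀ → ∀ B : Bk (FF M) V₀ G, Sy ℓ M E₀ B →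
  ∀ n m : ℕ, PE ℓ n m G → ∀ (κ : V₀) (L : Set (SS n V₀)), aL κ L ≠ ⊥ →
  HK B m κ L = ((ux B.U (aL κ L) κ * N12 E₀ κ L : ℚ) : ℂ)

/-- WZE: the evaluation of the sums without conditions.

Proof.  Frobenius: the number of the `(x, y)` with `[x, y] = g` is `∑_(χ ∈ Irr G) (|G|/χ(1)) χ(g)`.  (a) For
`c ≠ 1` and `χ ∉ e`: `cv (fc B ⊥ c) χ = |G| gv/(|C| χ 1)` (as HLNK in `StmtsH.lean`, which does not use that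
`χ` is in the block), `= 0` by `T3.SmgStmt`.  (b) By taking the mean over `G` the left side is
`|G|⁻¹ ∑_g fc ⊥ κ g #{[x, y] = g} = ∑_(χ ∈ Irr G) cv(fc ⊥ κ) χ`, and (a).  (c) In the same way
`W13 = W12 = |G|⁻² ∑_(g, h) fc c g fc d h #{(x, y, u) : [x, y] = g u h u⁻¹}`; substitute `h ↦ u⁻¹ h u` (`fc d` is a class
function): `|G|⁻¹ ∑_κ (fc c * fc d) κ #{[x, y] = κ} = ∑_χ cv(fc c) χ cv(fc d) χ`, and (a). -/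
def WzeStmt : Prop := ∀ (ℓ : ℕ) [Fact ℓ.Prime] (M : Ideal (integralClosure ℤ ℂ)) [M.IsMaximal],
  (ℓ : integralClosure ℤ ℂ) ∈ M → ∀ (V₀ G : Type) [CommGroup V₀] [Finite V₀] [Group G]
  [Finite G] (E₀ : Subgroup (MulAut V₀)), (∀ v : V₀, v ^ ℓ = 1) → ∀ B : Bk (FF M) V₀ G,
  Sb ℓ M E₀ B →
  (∀ c : V₀, c ≠ 1 → ∀ χ ∈ Irr G, χ ∉ IrrE M B.e → cv (fc B ⊥ c) χ = 0) ∧
  (∀ κ : V₀, κ ≠ 1 → (Nat.card (B.C (Subgroup.zpowers κ)) : ℂ)⁻¹ *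
    ∑ᶠ t : G, bh B (Subgroup.zpowers κ) t * {w : G × G | kap w.1 w.2 = B.i κ * t}.ncard =
      L1 B κ) ∧
  ∀ (n m : ℕ) (c d : V₀), c ≠ 1 → d ≠ 1 → W13 B m c d (∅ : Set (SS n V₀)) = L2 B c d ∧
    W12 B m c d (∅ : Set (SS n V₀)) = L2 B c d

/-- M12: the non local part of `W12`.

Proof.  For `L ⊆ τ₀ = {(i, k, κ⁻¹^k, κ₂⁻¹^k)}` all `κ^k p = 1`, so `aL κ L = ⊥`, `aL ⊔ ⟨κ⟩ = ⟨κ⟩`, and the conditions in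
`HK` are `(x^m)^i = 1` for all of `L`.  So the left side is `|C ⟨κ⟩|⁻¹ ∑_t bh ⟨κ⟩ t ∑_([x, y] = i(κ) t) ∑_(L ⊆ τ(x)) mob F L`,
`τ(x) = {(i, k, κ⁻¹^k, κ₂⁻¹^k) : (x^m)^i = 1}`; by MBI the inner sum is `F (τ(x)) = v` (`i = 0` satisfies the
condition).  WZE (b). -/
def M12Stmt : Prop := ∀ (ℓ : ℕ) [Fact ℓ.Prime] (M : Ideal (integralClosure ℤ ℂ)) [M.IsMaximal],
  (ℓ : integralClosure ℤ ℂ) ∈ M → ∀ (V₀ G : Type) [CommGroup V₀] [Finite V₀] [Group G]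
  [Finite G] (E₀ : Subgroup (MulAut V₀)), (∀ v : V₀, v ^ ℓ = 1) → ∀ B : Bk (FF M) V₀ G,
  Sb ℓ M E₀ B → ∀ (n m : ℕ) (κ κ₂ : V₀), κ ≠ 1 → ∀ (F : Set (SS n V₀) → ℚ) (v : ℚ), 0 < n →
  (∀ I : Set (Fin n), (∃ i ∈ I, (i : ℕ) = 0) →
    F {s | s.1 ∈ I ∧ s.2.2.1 = κ⁻¹ ^ (s.2.1 : ℕ) ∧ s.2.2.2 = κ₂⁻¹ ^ (s.2.1 : ℕ)} = v) →
  ∑ᶠ L ∈ {L : Set (SS n V₀) | ∀ s ∈ L, s.2.2.1 = κ⁻¹ ^ (s.2.1 : ℕ) ∧ s.2.2.2 = κ₂⁻¹ ^ (s.2.1 : ℕ)},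
    (mob F L : ℂ) * HK B m κ L = v * L1 B κ

/-- the local part of the total sum -/
def PPd {n : ℕ} {V₀ : Type} [CommGroup V₀] (E₀ : Subgroup (MulAut V₀)) (U : Subgroup V₀ → ℚ)
    (c d : V₀) (F₁₃ F₁₂ : Set (SS n V₀) → ℚ) : ℚ :=
  ∑ᶠ L ∈ {L : Set (SS n V₀) | pL L ≠ ⊥ ∧ qL L ≠ ⊥},
    (mob F₁₃ L * P13 E₀ U c d L + mob F₁₂ L * P12 E₀ U c d L)

/-- the coefficient of `L1 (c σ(d))` -/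
def cfL {V₀ : Type} [CommGroup V₀] {ℓ : ℕ} (U : Subgroup V₀ → ℚ) (ρ₁ ρ₂ : V₀ → ZMod ℓ) (c d : V₀)
    (σ : MulAut V₀) : ℚ :=
  (ρ₁ (c * σ d)⁻¹).val * (ρ₂ (σ⁻¹ (c * σ d))⁻¹).val *
    (ux U (Subgroup.zpowers (c * σ d)) c * ux U (Subgroup.zpowers (c * σ d)) (σ d))

/-- FIN: the relation between `L2` and `L1`.

Proof.  LAC and LBS: `∑_L (mob F₁₃ L W13 L + mob F₁₂ L W12 L) ∈ RM M`.  `L = ∅`: `mob F₁₃ ∅ = F₁₃ ∅ = 0` (z13),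
`mob F₁₂ ∅ = F₁₂ ∅ = r₁ r₂/ℓ²` (z12), WZE (c).  Let `L ≠ ∅`.  If all `p = 1` or all `q = 1` in `L` then
`mob F₁₃ L = 0` (MBI, z13).  Otherwise `W13 L = P13` (WTH).  Let `F = F₁₂ - r₁ r₂/ℓ²`, `mob F L = mob F₁₂ L` (MBI);
if all `p = q = 1` it is `0` (z12).  If exactly one of `pL`, `qL` is `⊥` then `W12 L = 0` (W12A; if
`qL = ⊥`, `pL ≠ ⊥` then `EL = ∅`), and `P12` does not appear in `PPd`.  Otherwise W12A: the terms with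
`aL (c σ d) L ≠ ⊥` give `P12 L` (W12B).  The others: `σ ∈ E₀`, `κ = c σ(d)`, `p = κ⁻ᵏ`, `q = σ⁻¹ p = (σ⁻¹ κ)⁻ᵏ` for all
of `L`, `pL L ≠ ⊥`, so `κ ≠ 1` and `pL L = ⟨κ⟩` (`ℓ` prime), and the coefficient is
`ux ⟨κ⟩ c · ux ⟨κ⟩ (σ d)/1`.  For given `σ` with `κ ≠ 1` these `L` are the `L ⊆ τ₀` of M12 (`κ₂ = σ⁻¹ κ`) with
`pL L ≠ ⊥`; for the other `L ⊆ τ₀` `mob F L = 0`.  M12 for `F`: `v = - (ρ₁ κ⁻¹).val (ρ₂ (σ⁻¹ κ)⁻¹).val/ℓ²` by `main`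
(`κ⁻¹ ≠ c⁻¹` because `d ≠ 1`, `(σ⁻¹ κ)⁻¹ = (σ⁻¹(c) d)⁻¹ ≠ d⁻¹` because `c ≠ 1`). -/
def FinStmt : Prop := ∀ (ℓ : ℕ) [Fact ℓ.Prime] (M : Ideal (integralClosure ℤ ℂ)) [M.IsMaximal],
  (ℓ : integralClosure ℤ ℂ) ∈ M → ℓ ≠ 2 → ∀ (V₀ G : Type) [CommGroup V₀] [Finite V₀] [Group G]
  [Finite G] (E₀ : Subgroup (MulAut V₀)), Fr ℓ V₀ E₀ → ∀ B : Bk (FF M) V₀ G, Sy ℓ M E₀ B →
  ∀ n m : ℕ, PE ℓ n m G → ∀ (ρ₁ ρ₂ : V₀ → ZMod ℓ) (c d : V₀) (r₁ r₂ : ℤ)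
  (F₁₃ F₁₂ : Set (SS n V₀) → ℚ), c ≠ 1 → d ≠ 1 → FT ℓ n ρ₁ ρ₂ c d r₁ r₂ F₁₃ F₁₂ →
  Rel ℓ n m B.i c d F₁₃ F₁₂ →
  (r₁ * r₂ : ℂ) / ℓ ^ 2 * L2 B c d -
    ∑ᶠ σ ∈ {σ : MulAut V₀ | σ ∈ E₀ ∧ c * σ d ≠ 1},
      ((cfL B.U ρ₁ ρ₂ c d σ : ℚ) : ℂ) / ℓ ^ 2 * L1 B (c * σ d) +
    ((PPd E₀ B.U c d F₁₃ F₁₂ : ℚ) : ℂ) ∈ RM M

/-- PPC: continuity of the local part.

Proof.  There are finitely many `L`; choose `K₀` with `ℓ^K₀ mob F₁₃ L`, `ℓ^K₀ mob F₁₂ L ∈ Rl ℓ` for all `L`,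
`K = K₀`.  The numbers `U W`, `U' W` (`W ≠ ⊥`) are in `1 + ℓ Rl ℓ`, they and their inverses are in `Rl ℓ`, and
congruent modulo `ℓ^K`; so the same holds for `ux U W x` (`W ≠ ⊥`), products and quotients, and
`P13`, `P12` are polynomials with integer coefficients in these. -/
def PpcStmt : Prop := ∀ (ℓ : ℕ) [Fact ℓ.Prime] (V₀ : Type) [CommGroup V₀] [Finite V₀]
  (E₀ : Subgroup (MulAut V₀)) (n : ℕ) (c d : V₀) (F₁₃ F₁₂ : Set (SS n V₀) → ℚ),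
  ∃ K₀ : ℕ, ∀ K, K₀ ≤ K → ∀ U U' : Subgroup V₀ → ℚ,
  (∀ W, W ≠ ⊥ → ∃ q ∈ SOR.Rl ℓ, U W = 1 + ℓ * q) → (∀ W, W ≠ ⊥ → ∃ q ∈ SOR.Rl ℓ, U' W = 1 + ℓ * q) →
  (∀ W, W ≠ ⊥ → ∃ q ∈ SOR.Rl ℓ, U W - U' W = ℓ ^ K * q) →
  PPd E₀ U c d F₁₃ F₁₂ - PPd E₀ U' c d F₁₃ F₁₂ ∈ SOR.Rl ℓ

/-- CPG: comparison of two groups.

Proof.  For `c, d ≠ 1`, homomorphisms `ρ₁`, `ρ₂` and `r₁ ≡ - ρ₁ c`, `r₂ ≡ - ρ₂ d`, where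
`r₁ ∈ {(- ρ₁ c).val, (- ρ₁ c).val + ℓ}` (only the first if `ρ₁ c = 0`), `r₂ = (- ρ₂ d).val`, choose `F₁₃`, `F₁₂` by
RTX; `K ≥ 2` larger than the numbers `K₀` of PPC for these finitely many choices (they do not depend on
the groups).  FIN for both systems with the same functions; the difference of the `PPd` is in `Rl ℓ`, so in
`RM M`.
(A) Choose `ρ₁`, `ρ₂` with `ρ₁ c ≠ 0`, `ρ₂ d ≠ 0` (`V₀` is a vector space over the field with `ℓ`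
elements).  Subtract the difference for `r₁` from the one for `r₁ + ℓ`:
the terms with `L1` cancel and `(r₂/ℓ) (L2 - L2') ∈ RM M`, `ℓ ∤ r₂`.
(B) Use `ρ₁⁻`, `ρ₂⁻`, `ρ⁻(v) = ρ(v⁻¹) = - ρ v`, and `r₁ = (ρ₁ c).val`, `r₂ = (ρ₂ d).val`.  In the difference the coefficient
of `σ` is `a/ℓ² (u L1 - u' L1') = a/ℓ² ((L1 - L1') + (u - 1)(L1 - L1') + (u - u') L1')`, `a` the product of the two
`val`, `u - 1 ∈ ℓ Rl ℓ`, `u - u' ∈ ℓ^K Rl ℓ`, `L1' ∈ RM M` (central characters at `fc ⊥ κ`), `L1 - L1' ∈ ℓ RM M`. -/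
def CpgStmt : Prop := ∀ (ℓ : ℕ) [Fact ℓ.Prime] (M : Ideal (integralClosure ℤ ℂ)) [M.IsMaximal],
  (ℓ : integralClosure ℤ ℂ) ∈ M → ℓ ≠ 2 → ∀ (V₀ : Type) [CommGroup V₀] [Finite V₀]
  (E₀ : Subgroup (MulAut V₀)), Fr ℓ V₀ E₀ → ∀ n : ℕ, ∃ K : ℕ, ∀ (G G' : Type) [Group G] [Finite G]
  [Group G'] [Finite G'] (B : Bk (FF M) V₀ G) (B' : Bk (FF M) V₀ G') (m m' : ℕ),
  Sy ℓ M E₀ B → Sy ℓ M E₀ B' → PE ℓ n m G → PE ℓ n m' G' →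
  (∀ W, W ≠ ⊥ → ∃ q ∈ SOR.Rl ℓ, B.U W - B'.U W = ℓ ^ K * q) →
  (∀ c d : V₀, c ≠ 1 → d ≠ 1 → (L2 B c d - L2 B' c d) / ℓ ∈ RM M) ∧
  ((∀ c : V₀, c ≠ 1 → (L1 B c - L1 B' c) / ℓ ∈ RM M) → ∀ (ρ₁ ρ₂ : V₀ → ZMod ℓ), Hm ρ₁ → Hm ρ₂ →
    ∀ c d : V₀, c ≠ 1 → d ≠ 1 →
    ((L2 B c d - L2 B' c d) * ((ρ₁ c).val * (ρ₂ d).val) -
      ∑ᶠ σ ∈ {σ : MulAut V₀ | σ ∈ E₀ ∧ c * σ d ≠ 1},
        ((ρ₁ (c * σ d)).val : ℂ) * (ρ₂ (σ⁻¹ (c * σ d))).val *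
          (L1 B (c * σ d) - L1 B' (c * σ d))) / ℓ ^ 2 ∈ RM M)

end Pool.Agent.PP.SO
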