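import Pool.Agent.ASO.Stmts4
import Pool.Agent.ASO.StmtsH2

/-!
# Squad ASO, statements 5: the number of characters modulo `ℓ ^ 2`

`K2bStmt` (`Stmts8.lean`) is the output.

K2B.  Proof.  `U = B.U`: `U ⊤ = S ⊤ = 1` (`S ⊤ = ± 1`, `U ⊤ = S ⊤ |C ⊤| D ⊤/(|C ⊤| D ⊤)` is `1` modulo `ℓ`, `ℓ ≥ 5`,
`D ⊤ > 0` by `Dg`), `U (W.map σ) = U W` (CJT; `sur`).  PEX for `G`: `n = ℓ ^ r`, `m`, `PE ℓ n m G`.  Let `K` be the
number of KCM for `n`, `G'`, `B'`, `m'` the comparison block of `CmpStmt` (`Stmts7.lean`) for `k = K`, `r`.  KCM: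
`ℓ ^ 2` divides `k(B) - k(B')`, and `k(B') = |Irr (V₀ : E₀)|`.
-/

open scoped BigOperators

noncomputable section

namespace Pool.Agent.PP.SO

open Pool.Agent.Helper51_AWC Pool.Agent.Helper79_WRA Pool.Agent.PP Pool.Agent.PP.KF
open Pool.Agent.PP.K9 Pool.Agent.PP.K9.H97 Pool.Agent.PP.H75 Pool.Agent.PP.T3

attribute [local instance] Ideal.Quotient.field

/-- PEX: existence of the exponent `m`.

Proof.  `ℓ ^ r ≥ |G|_ℓ`, `|G| = ℓ^a b`, `ℓ ∤ b`: by the Chinese remainder theorem there is `m` with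
`m ≡ 1` modulo `ℓ ^ (max r a)` and `m ≡ 0` modulo `b`.  `El ℓ g`: the order of `g` is a power of `ℓ` dividing
`ℓ ^ r`; `Reg ℓ g`: the order of `g` divides `b`. -/
def PexStmt : Prop := ∀ (ℓ : ℕ) [Fact ℓ.Prime] (G : Type) [Group G] [Finite G],
  ∃ r m : ℕ, 0 < r ∧ PE ℓ (ℓ ^ r) m G

/-- KCM: two systems with numbers `U` congruent modulo `ℓ^K` have the same number of characters
modulo `ℓ ^ 2`.

Proof.  `K` from CPG.  Let `D c = L1 B c - L1 B' c`, `N c d = L2 B c d - L2 B' c d` (rational numbers in `Rl ℓ`,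
HCO), `k = k(B) - k(B')`.  The assumptions of KAR: invariance: HCO for both.  (A): CPG (A), a rational
number in `RM M` is in `Rl ℓ`.  (B): CPG (B).  (SF), (H): the differences of the two relations of HCO (with
the same `|E₀|`).  So `ℓ ^ 2 ∣ k`. -/
def KcmStmt : Prop := ∀ (ℓ : ℕ) [Fact ℓ.Prime] (M : Ideal (integralClosure ℤ ℂ)) [M.IsMaximal],
  (ℓ : integralClosure ℤ ℂ) ∈ M → 5 ≤ ℓ → ∀ (V₀ : Type) [CommGroup V₀] [Finite V₀]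
  (E₀ : Subgroup (MulAut V₀)), Fr ℓ V₀ E₀ → ∀ n : ℕ, ∃ K : ℕ, ∀ (G G' : Type) [Group G] [Finite G]
  [Group G'] [Finite G'] (B : Bk (FF M) V₀ G) (B' : Bk (FF M) V₀ G') (m m' : ℕ),
  Sy ℓ M E₀ B → Sy ℓ M E₀ B' → PE ℓ n m G → PE ℓ n m' G' →
  (∀ W, W ≠ ⊥ → ∃ q ∈ SOR.Rl ℓ, B.U W - B'.U W = ℓ ^ K * q) →
  ((ℓ ^ 2 : ℕ) : ℤ) ∣ ((IrrE M B.e).ncard : ℤ) - ((IrrE M B'.e).ncard : ℤ)

end Pool.Agent.PP.SO
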