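import Pool.Agent.ASO.DefsC

/-!
# Squad ASO, block H: heights, congruences for the sums of the central characters

Complete proofs in the docstrings.  The rows are for `Sb`; most of them need one *regular* element:
`Rgl E₀ c`: `c ≠ 1` and no `σ ≠ 1` in `E₀` fixes `c`.  If `E₀` acts freely all `c ≠ 1` are regular.
`Es E₀ c` is the stabiliser of `c` in `E₀`.
-/

open scoped BigOperators

noncomputable section

namespace Pool.Agent.PP.SO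

open Pool.Agent.Helper51_AWC Pool.Agent.Helper79_WRA Pool.Agent.PP Pool.Agent.PP.KF
open Pool.Agent.PP.K9 Pool.Agent.PP.K9.H97 Pool.Agent.PP.H75 Pool.Agent.PP.T3

attribute [local instance] Ideal.Quotient.field

/-- the stabiliser of `c` in `E₀` -/
def Es {V₀ : Type} [CommGroup V₀] (E₀ : Subgroup (MulAut V₀)) (c : V₀) : Subgroup (MulAut V₀) where
  carrier := {σ | σ ∈ E₀ ∧ σ c = c}
  one_mem' := ⟨E₀.one_mem, rfl⟩
  mul_mem' := fun {a b} ha hb => ⟨E₀.mul_mem ha.1 hb.1, by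
    rw [MulAut.mul_apply, hb.2, ha.2]⟩
  inv_mem' := fun {a} ha => ⟨E₀.inv_mem ha.1, by
    rw [MulAut.inv_apply, MulEquiv.symm_apply_eq, ha.2]⟩

/-- the number of the elements of the `E₀`-orbit of `c` -/
def nE {V₀ : Type} [CommGroup V₀] (E₀ : Subgroup (MulAut V₀)) (c : V₀) : ℕ :=
  Nat.card E₀ / Nat.card (Es E₀ c)

/-- `c` is regular -/
def Rgl {V₀ : Type} [CommGroup V₀] (E₀ : Subgroup (MulAut V₀)) (c : V₀) : Prop :=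
  c ≠ 1 ∧ ∀ σ ∈ E₀, σ c = c → σ = 1

/-- the product of the powers of `ℓ` in the order of `G` -/
def lpG (ℓ : ℕ) (G : Type) : ℕ := ℓ ^ (Nat.card G).factorization ℓ

/-- HLNK: the central character at `f_c` and the number `gv`.

Proof.  `C(i c) = C ⟨i c⟩` and `(zpowers c).map i = zpowers (i c)` (`MonoidHom.map_zpowers`,
`Subgroup.centralizer_closure` or directly); `Lb` for `zpowers c` is `Lc` for `i c`.
`fc B ⊥ c g = |C_c|⁻¹ ∑_z bh B ⟨c⟩ ((i c)⁻¹ z⁻¹ g z)`, `z` in `B.C ⊥ = G` (`⊥ ⊔ zpowers c = zpowers c`);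
`χ` is a class function, so `∑_g fc B ⊥ c g χ g = (|G|/|C_c|) ∑_h bh B ⟨c⟩ ((i c)⁻¹ h) χ h =
(|G|/|C_c|) ∑_{t ∈ C_c} eh (t) χ((i c) t)`. -/
def HLnkStmt : Prop := ∀ (ℓ : ℕ) [Fact ℓ.Prime] (M : Ideal (integralClosure ℤ ℂ)) [M.IsMaximal],
  (ℓ : integralClosure ℤ ℂ) ∈ M → ∀ (V₀ : Type) [CommGroup V₀] [Finite V₀]
  (E₀ : Subgroup (MulAut V₀)) (G : Type) [Group G] [Finite G] (B : Bk (FF M) V₀ G),
  Sb ℓ M E₀ B → ∀ c : V₀, Cu (B.i c) = B.C (Subgroup.zpowers c) ∧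
    Lc B.e B.i.range B.g (B.i c) (B.b (Subgroup.zpowers c)) ∧
    ∀ χ ∈ Irr G, cv (fc B ⊥ c) χ = Nat.card G *
      gv M (Cu (B.i c)) (B.i c) (B.b (Subgroup.zpowers c)) χ /
        (Nat.card (B.C (Subgroup.zpowers c)) * χ 1)

/-- HIXE: the inertial index.

Proof.  `T = Tg V γ`, `V = i(V₀)`.  `t ↦ σ` (`act`; `σ` is unique because `i` is injective) is a
homomorphism `T → E₀`, surjective (`sur`), with kernel `T ∩ C(V) = C(V)` (`C(V) ≤ T`: `γ` is a central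
idempotent of `F C(V)`); the preimage of `Es E₀ c` is `T ∩ C(i c)`.  `ix V γ` is prime to `ℓ`
(`K9.InxStmt`).  `B.C ⊤ = C(V)` (`MonoidHom.range_eq_map`). -/
def HIxeStmt : Prop := ∀ (ℓ : ℕ) [Fact ℓ.Prime] (M : Ideal (integralClosure ℤ ℂ)) [M.IsMaximal],
  (ℓ : integralClosure ℤ ℂ) ∈ M → ∀ (V₀ : Type) [CommGroup V₀] [Finite V₀]
  (E₀ : Subgroup (MulAut V₀)) (G : Type) [Group G] [Finite G] (B : Bk (FF M) V₀ G),
  Sb ℓ M E₀ B → ix B.i.range B.g = Nat.card E₀ ∧ ¬ ℓ ∣ Nat.card E₀ ∧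
    B.C ⊤ = Subgroup.centralizer (B.i.range : Set G) ∧
    ∀ c : V₀, (Cu (B.i c)).relIndex (Tg B.i.range B.g) = nE E₀ c ∧
      nE E₀ c * Nat.card (Es E₀ c) = Nat.card E₀ ∧ (Rgl E₀ c → Rg B.i.range B.g (B.i c)) ∧
      (Rgl E₀ c → nE E₀ c = Nat.card E₀)

/-- HOMR: the residue of the central character at `f_c`.

Proof.  HLNK, `K9.OmgStmt` for `u = w = i c`, `T3.RsvStmt`, HIXE.  (`b` is an idempotent of `F C(u)`:
`Lc`.) -/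
def HOmrStmt : Prop := ∀ (ℓ : ℕ) [Fact ℓ.Prime] (M : Ideal (integralClosure ℤ ℂ)) [M.IsMaximal],
  (ℓ : integralClosure ℤ ℂ) ∈ M → ∀ (V₀ : Type) [CommGroup V₀] [Finite V₀]
  (E₀ : Subgroup (MulAut V₀)) (G : Type) [Group G] [Finite G] (B : Bk (FF M) V₀ G),
  Sb ℓ M E₀ B → ∀ c : V₀, ∀ χ ∈ IrrE M B.e, cv (fc B ⊥ c) χ ∈ RM M ∧
    rr M (cv (fc B ⊥ c) χ) = ((nE E₀ c : ℕ) : FF M)

/-- HFCE: `f_c` depends on the `E₀`-orbit of `c` only, and `f_1` is the block.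

Proof.  `t ∈ T` with `t i(v) t⁻¹ = i(σ v)` (`sur`).  `cj t (B.b ⟨c⟩)` is a block of `C(i(σ c))` under `e` and over
`cj t γ = γ`, so it is `B.b ⟨σ c⟩` (uniqueness in `T3.LocStmt`), `bh B ⟨σ c⟩ (t g t⁻¹) = bh B ⟨c⟩ g`, and the
orders of the centralisers are equal.  Substitute `z t` for `z` in the sum.  For `c = 1`: `B.b ⊥ = e`
(`T3.LocStmt` with `u = 1`; `e` has the properties), `fc B ⊥ 1` is the average of the class function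
`eh e`, and `∑_g eh e (g) χ(g) = χ(1)` for `χ` in the block. -/
def HFceStmt : Prop := ∀ (ℓ : ℕ) [Fact ℓ.Prime] (M : Ideal (integralClosure ℤ ℂ)) [M.IsMaximal],
  (ℓ : integralClosure ℤ ℂ) ∈ M → ∀ (V₀ : Type) [CommGroup V₀] [Finite V₀]
  (E₀ : Subgroup (MulAut V₀)) (G : Type) [Group G] [Finite G] (B : Bk (FF M) V₀ G),
  Sb ℓ M E₀ B → (∀ c : V₀, ∀ σ ∈ E₀, fc B ⊥ (σ c) = fc B ⊥ c) ∧
    ∀ χ ∈ IrrE M B.e, cv (fc B ⊥ 1) χ = 1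

/-- HTA: the degree of the characters of `γ`.

Proof.  `C = C(V)`, `V` central in `C`, `H = C/V`, `p : C → H`.  `γ' = push p γ` is a block (`T3.PsgStmt`), its good
`ℓ`-subgroups are trivial (`K9.PugStmt`: a good subgroup of `γ'` has a good preimage `R ≥ V`; good
subgroups of `γ` are good for `e`, so `|R| ≤ |V|`, see the proof of `T3.DgcStmt`), so `IrrE M γ' = {κ₀}`, `κ₀`
vanishes at the singular elements (`K9.DzoStmt`), and `κ₀ ∘ p` is in `IrrE M γ` (`K9.PsiStmt`), so `κ₀(1) = D`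
(`Dg`).  For a Sylow `ℓ`-subgroup `S` of `H` the inner product `(κ₀|S, 1) = κ₀(1)/|S|` is an integer
(`K9.AdaStmt` or the restriction is a character), and `D` divides `|H|` (or: `|H|/κ₀(1)` is an algebraic
integer).  So `|H|/D` is an integer prime to `ℓ`, `|C| = |V| |H|`. -/
def HTaStmt : Prop := ∀ (ℓ : ℕ) [Fact ℓ.Prime] (M : Ideal (integralClosure ℤ ℂ)) [M.IsMaximal],
  (ℓ : integralClosure ℤ ℂ) ∈ M → ∀ (G : Type) [Group G] [Finite G] (e : G → FF M)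
  (V : Subgroup G) (γ : G → FF M), Ld ℓ e V γ → ∀ d : ℕ,
  Dg M (fun t : Subgroup.centralizer (V : Set G) => γ t) d →
  ∃ m : ℕ, ¬ ℓ ∣ m ∧ Nat.card (Subgroup.centralizer (V : Set G)) = Nat.card V * d * m

/-- HTZ: the heights are zero.

Proof.  Let `u = i c` (order `ℓ`), `b` its local block, regular (`Rg`, HIXE), `d` its degree and
`|IrrE b| = |V|` (`T3.RglStmt`), `ζ` of order `ℓ`, `w_χ = |G| d/(|C(u)| χ(1))`, `v_j(χ) = gv u^j b χ/d =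
∑ m_i ζ ^ (i j)` (`T3.InrStmt`), `w_χ v_j(χ) = cv (f_(c^j)) χ` for `¬ ℓ ∣ j` (HLNK for `c ^ j`; `⟨c ^ j⟩ = ⟨c⟩`), a
number in `RM M` with residue `|E₀| ≠ 0` (HOMR, HIXE), a unit.  So `w_χ⁻¹ = v_j/(w_χ v_j)` is in `RM M`.
(1) `w_χ` is in `RM M`.  Otherwise `v_j/ℓ` is in `RM M` for all `j` prime to `ℓ` (`w_χ⁻¹` is rational, so it is
`ℓ` times an element of `RM M`).  `∑_{j=1}^{ℓ-1} v_j ζ ^ (- j k) = ℓ m_k - ∑ m_i`, so
`m_k - m_0 = ∑_j (v_j/ℓ) (ζ ^ (- j k) - 1)` has residue `0` (`ζ` has residue `1`), it is divisible by `ℓ`, and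
`v_j = ℓ ∑ ((m_i - m_0)/ℓ) ζ ^ (i j)` (`∑ ζ ^ (i j) = 0`), not zero, so by `T3.GlpStmt` (`a = 1`)
`∑_j |v_j(χ)|² ≥ ℓ² (ℓ - 1)`.  But `∑_{χ' ∈ Irr G} |v_j(χ')|² = |V| = ℓ²` (`T3.Co1Stmt`), so `v_j(χ') = 0` for
all `χ' ≠ χ`; the `v_j(χ')` are not zero for `χ'` in `e`, so `IrrE M e = {χ}`, and `χ(1) χ(g) = 0` for all singular
`g` (`K9.PrgStmt`, first part), so `v_1(χ) = 0` (`eh b` vanishes at the singular elements), a
contradiction.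
(2) By `T3.NitStmt` for `C(u)`, `b` (`ix = 1`, `T3.RglStmt`, `T3.LsbStmt`) `|C(u)| D/(|C(V)| d)` is in `RM M` with residue
`± 1`, so it and its inverse are in `RM M`.  The product with `w_χ` is `|G| D/(|C(V)| χ(1))`, so this number and its
inverse are in `RM M`; with HTA: `|G| = |V| χ(1) x/y`, `x`, `y` positive integers prime to `ℓ`. -/
def HTzStmt : Prop := ∀ (ℓ : ℕ) [Fact ℓ.Prime] (M : Ideal (integralClosure ℤ ℂ)) [M.IsMaximal],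
  (ℓ : integralClosure ℤ ℂ) ∈ M → ∀ (V₀ : Type) [CommGroup V₀] [Finite V₀],
  (∀ v : V₀, v ^ ℓ = 1) → Nat.card V₀ = ℓ ^ 2 → ∀
  (E₀ : Subgroup (MulAut V₀)) (G : Type) [Group G] [Finite G] (B : Bk (FF M) V₀ G),
  Sb ℓ M E₀ B → ∀ c : V₀, Rgl E₀ c → ∀ χ ∈ IrrE M B.e,
    ∃ x y : ℕ, ¬ ℓ ∣ x ∧ ¬ ℓ ∣ y ∧ (y : ℂ) * Nat.card G = ℓ ^ 2 * χ 1 * x

/-- HKB: `k(B) ≤ ℓ ^ 2`.

Proof.  Notation of HTZ: `v_1(χ) ≠ 0` for `χ` in the block, so `∑_j |v_j(χ)|² ≥ ℓ - 1` by `T3.GlpStmt` (`a = 1`;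
the sum over the `j < ℓ` prime to `ℓ`), and `∑_χ |v_j(χ)|² = ℓ²` for every `j` (`T3.Co1Stmt` for `u ^ j`,
`T3.RglStmt`; the block, the degree and the number of characters are the same for `u ^ j`,
`T3.LpwStmt`).  `(ℓ - 1) k ≤ (ℓ - 1) ℓ²`. -/
def HKbStmt : Prop := ∀ (ℓ : ℕ) [Fact ℓ.Prime] (M : Ideal (integralClosure ℤ ℂ)) [M.IsMaximal],
  (ℓ : integralClosure ℤ ℂ) ∈ M → ∀ (V₀ : Type) [CommGroup V₀] [Finite V₀],
  (∀ v : V₀, v ^ ℓ = 1) → Nat.card V₀ = ℓ ^ 2 → ∀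
  (E₀ : Subgroup (MulAut V₀)) (G : Type) [Group G] [Finite G] (B : Bk (FF M) V₀ G),
  Sb ℓ M E₀ B → ∀ c : V₀, Rgl E₀ c → (IrrE M B.e).Finite ∧ 0 < (IrrE M B.e).ncard ∧
    (IrrE M B.e).ncard ≤ ℓ ^ 2

/-- HRAT: the sum over a line is rational.

Proof.  `u = i c` of order `ℓ`, `b` its local block.  As in `T3.InrStmt` (the restriction of `χ` to `C(u)` is
`∑ m_κ κ`, `κ(u ^ j) = ζ ^ (i j) κ(1)`): `gv u ^ j b χ = ∑_{i<ℓ} m_i ζ ^ (i j)` with integers `m_i = ∑ m_κ κ(1)`, the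
sum over the `κ ∈ b` with `κ(u) = ζ ^ i κ(1)`, for all `j`.  The sum over `j = 1, …, ℓ - 1` is the integer
`ℓ m_0 - ∑ m_i`, and `cv (f_(c^j)) χ` is `gv u ^ j b χ` times the rational number `|G|/(|C(u)| χ(1))` (HLNK for
`c ^ j`).  So the sum is rational; it is in `RM M` with residue `(ℓ - 1) n_c = - n_c` (HOMR for `c ^ j`;
`nE E₀ (c ^ j) = nE E₀ c`), and a rational number in `RM M` with residue `0` is `ℓ q`, `q ∈ Rl ℓ`. -/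
def HRatStmt : Prop := ∀ (ℓ : ℕ) [Fact ℓ.Prime] (M : Ideal (integralClosure ℤ ℂ)) [M.IsMaximal],
  (ℓ : integralClosure ℤ ℂ) ∈ M → ∀ (V₀ : Type) [CommGroup V₀] [Finite V₀],
  (∀ v : V₀, v ^ ℓ = 1) → ∀
  (E₀ : Subgroup (MulAut V₀)) (G : Type) [Group G] [Finite G] (B : Bk (FF M) V₀ G),
  Sb ℓ M E₀ B → ∀ c : V₀, c ≠ 1 → ∀ χ ∈ IrrE M B.e, ∃ q ∈ SOR.Rl ℓ,
    ∑ t ∈ Finset.Icc 1 (ℓ - 1), cv (fc B ⊥ (c ^ t)) χ = ((- (nE E₀ c : ℚ) + ℓ * q : ℚ) : ℂ)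

/-- HL12: the sums `L1`, `L2`.

Proof.  Let `N` be as in `T3.PrmStmt` (`ℓ` odd; for `ℓ = 2` the claims `j` are empty and
`N = 1` does it), `j = N ^ k` on the `ℓ`-elements.  `χ ↦ χ(· ^ N)` is a bijection of `IrrE M e` (`T3.RtcStmt`;
injective because `g ↦ g ^ N` is a bijection of `G`, and the set is finite), and
`cv (fc B ⊥ (c ^ N)) χ = cv (fc B ⊥ c) χ'`, `χ' = χ(· ^ N)`: HLNK, `χ((u s) ^ N) = χ(u ^ N s)` for `s` regular in `C(u)`,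
`eh` vanishes at the singular elements, `χ'(1) = χ(1)`, `⟨c ^ N⟩ = ⟨c⟩`.  So `L1`, `L2` are invariant under `c ↦ c ^ j`.
*Rational:* with the numbers `m_i` of HRAT `cv (fc B ⊥ (c ^ j)) χ = w ∑ m_i ζ ^ (i j)`, `w` rational, so
`L2 (c ^ j) (d ^ j) = ∑_{k<ℓ} a_k ζ ^ (k j)` with rational `a_k` (all `j`); the sum over `j = 1, …, ℓ - 1` is rational, and
all terms are equal.  `L1 c = L2 c 1` (HFCE).  They are in `RM M` (HOMR), so in `Rl ℓ`.  (If `ℓ = 2`: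
`ζ = - 1`, all numbers are rational.)  `σ`: HFCE. -/
def HL12Stmt : Prop := ∀ (ℓ : ℕ) [Fact ℓ.Prime] (M : Ideal (integralClosure ℤ ℂ)) [M.IsMaximal],
  (ℓ : integralClosure ℤ ℂ) ∈ M → ∀ (V₀ : Type) [CommGroup V₀] [Finite V₀],
  (∀ v : V₀, v ^ ℓ = 1) → ∀
  (E₀ : Subgroup (MulAut V₀)) (G : Type) [Group G] [Finite G] (B : Bk (FF M) V₀ G),
  Sb ℓ M E₀ B →
  (∀ c : V₀, ∃ q ∈ SOR.Rl ℓ, L1 B c = (q : ℂ)) ∧ (∀ c d : V₀, ∃ q ∈ SOR.Rl ℓ, L2 B c d = (q : ℂ)) ∧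
  (∀ c : V₀, ∀ j : ℕ, ¬ ℓ ∣ j → L1 B (c ^ j) = L1 B c) ∧
  (∀ c d : V₀, ∀ j : ℕ, ¬ ℓ ∣ j → L2 B (c ^ j) (d ^ j) = L2 B c d) ∧
  (∀ c : V₀, ∀ σ ∈ E₀, L1 B (σ c) = L1 B c) ∧
  (∀ c d : V₀, ∀ σ ∈ E₀, ∀ τ ∈ E₀, L2 B (σ c) (τ d) = L2 B c d) ∧
  (∀ c d : V₀, L2 B c d = L2 B d c) ∧ (∀ c : V₀, L2 B c 1 = L1 B c) ∧
  L1 B 1 = ((IrrE M B.e).ncard : ℂ)

/-- HFRO: Frobenius' theorem for characters.

Proof.  Let `S` be a Sylow `ℓ`-subgroup and `a(g)` the number of the fixed points of `g` on `G/S`, a character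
of `G` (`1_S^G`; all its powers are characters, so all inner products with `χ` are integers).  `a(g) = 0` if
`g` is not an `ℓ`-element, and `a(g) ≡ |G : S|` modulo `ℓ`, prime to `ℓ`, if it is one.  So for
`N = (ℓ - 1) ℓ ^ n`, `n ≥` the exponent of `ℓ` in `|G|`, `a(g) ^ N = 1 + ℓ ^ (n + 1) b(g)`, `b(g)` an integer, for
`ℓ`-elements `g`.  `(1/|G|) ∑_u χ(u) a(u) ^ N = z` is an integer, `∑_u χ(u) = |G| z - ℓ ^ (n+1) ∑_u b(u) χ(u)`;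
divide by `lpG ℓ G`: the quotient is an algebraic integer. -/
def HFroStmt : Prop := ∀ (ℓ : ℕ) [Fact ℓ.Prime] (M : Ideal (integralClosure ℤ ℂ)) [M.IsMaximal],
  (ℓ : integralClosure ℤ ℂ) ∈ M → ∀ (G : Type) [Group G] [Finite G], ∀ χ ∈ Irr G,
  (∑ᶠ (u : G) (_ : El ℓ u), χ u) / (lpG ℓ G : ℂ) ∈ RM M

/-- HFPR: the sum over the `ℓ`-elements.

Proof.  For an `ℓ`-element `u`: `χ(u) = ∑_b gv (C(u)) u b χ`, `b` over the blocks of `C(u)` (extended by zero; the sum of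
the lifts `eh b` is `1` at `1` and `0` elsewhere).  If `e|C(u) b = 0` the term is `0`: for `u ≠ 1` `T3.SmgStmt`
(`s = 1`), for `u = 1` because `χ` is in `e`.  Let `Ω` be the set of the pairs `(u, b)`, `u` an `ℓ`-element, `b` a block of
`C(u)` with `e|C(u) b = b`.  `G` acts on it by conjugation, the stabiliser of `(u, b)` is `C(u)`.  Every pair is conjugate
to some `(i c, B.b ⟨c⟩)`: by `T3.DugStmt` (`Q = ⟨u⟩`) there is a subgroup `P ≤ C(u)` with `u ∈ P`, `|P| = |V|`, good for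
`b`, so good for `e`, so `P = k V k⁻¹` (`K9.FmgStmt`); replace the pair by its conjugate: `P = V`, `u ∈ V`.  Let
`γ₁` be a block of `C(V)` with `br_V(b) γ₁ = γ₁`; it is under `br_V(e)`, so `γ = cj n γ₁` with `n ∈ N(V)`
(`K9.OrbStmt` for the block `br_V(e)` of `N(V)`, as in `T3.GchStmt`); replace by the conjugate with `n`: `γ₁ = γ`,
`u = i c`, and `b = B.b ⟨c⟩` by `T3.LocStmt`.  `(i c, B.b ⟨c⟩)` and `(i c', B.b ⟨c'⟩)` are conjugate iff `c' = σ c` for some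
`σ ∈ E₀` (`T3.FusStmt`, `act`; conversely HFCE's argument).  So the number of the `(z, c) ∈ G × V₀` with
`z (i c, B.b ⟨c⟩) z⁻¹ = (u, b)` is `|C(u)| n_c`, and `∑_Ω gv = ∑_c ∑_z gv(i c, B.b ⟨c⟩)/(|C(i c)| n_c) =
∑_c |G| gv/(|C(i c)| n_c) = χ(1) ∑_c cv (f_c) χ/n_c` (HLNK; `gv` is invariant under conjugation of the pair). -/
def HFprStmt : Prop := ∀ (ℓ : ℕ) [Fact ℓ.Prime] (M : Ideal (integralClosure ℤ ℂ)) [M.IsMaximal],
  (ℓ : integralClosure ℤ ℂ) ∈ M → ∀ (V₀ : Type) [CommGroup V₀] [Finite V₀]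
  (E₀ : Subgroup (MulAut V₀)) (G : Type) [Group G] [Finite G] (B : Bk (FF M) V₀ G),
  Sb ℓ M E₀ B → ∀ χ ∈ IrrE M B.e,
    ∑ᶠ (u : G) (_ : El ℓ u), χ u = χ 1 * ∑ᶠ c : V₀, cv (fc B ⊥ c) χ / nE E₀ c

/-- HSM: the relations for the linear algebra.

Proof.  (i) `k ≤ ℓ²`: HKB.  (ii) HRAT for `c` and `d`: `W_c(χ) = ∑_t cv (f_(c^t)) χ`, `(W_c + n_c)(W_d + n_d) = ℓ² q q'`;
add over `χ` in the block (finite).  (iii) For `χ` in the block: HFRO, HFPR, HTZ: `∑_c cv (f_c) χ/n_c =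
(∑_u χ(u)/lpG) (lpG/χ(1))` and `lpG/χ(1)` is `ℓ²` times a unit of `Rl ℓ` (`|G| = lpG m`, `¬ ℓ ∣ m`), so the sum is
`ℓ²` times an element of `RM M`; it is rational: group the `c ≠ 1` by the lines, HRAT (`n_(c^t) = n_c`; the number of
the pairs `(c, t)` with given `c ^ t` is `ℓ - 1`), and the term of `c = 1` is `1` (HFCE).  A rational number in `RM M` is in
`Rl ℓ`.  Multiply with `|E₀|` (`|E₀|/n_c = |Es E₀ c|`, HIXE) and add over `χ`. -/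
def HSmStmt : Prop := ∀ (ℓ : ℕ) [Fact ℓ.Prime] (M : Ideal (integralClosure ℤ ℂ)) [M.IsMaximal],
  (ℓ : integralClosure ℤ ℂ) ∈ M → ∀ (V₀ : Type) [CommGroup V₀] [Finite V₀],
  (∀ v : V₀, v ^ ℓ = 1) → Nat.card V₀ = ℓ ^ 2 → ∀
  (E₀ : Subgroup (MulAut V₀)) (G : Type) [Group G] [Finite G] (B : Bk (FF M) V₀ G),
  Sb ℓ M E₀ B → (∃ c : V₀, Rgl E₀ c) →
  ((IrrE M B.e).ncard ≤ ℓ ^ 2 ∧ 0 < (IrrE M B.e).ncard) ∧
  (∀ c d : V₀, c ≠ 1 → d ≠ 1 → ∃ q ∈ SOR.Rl ℓ,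
    ∑ t ∈ Finset.Icc 1 (ℓ - 1), ∑ s ∈ Finset.Icc 1 (ℓ - 1), L2 B (c ^ t) (d ^ s) +
      nE E₀ d * ∑ t ∈ Finset.Icc 1 (ℓ - 1), L1 B (c ^ t) +
      nE E₀ c * ∑ s ∈ Finset.Icc 1 (ℓ - 1), L1 B (d ^ s) +
      nE E₀ c * nE E₀ d * (IrrE M B.e).ncard = ((ℓ ^ 2 * q : ℚ) : ℂ)) ∧
  ∃ q ∈ SOR.Rl ℓ, ∑ᶠ c : V₀, Nat.card (Es E₀ c) * L1 B c = ((ℓ ^ 2 * q : ℚ) : ℂ)

end Pool.Agent.PP.SO
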